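import Pool.Agent.Helper74_Centr.Fibre

/-!
# The key lemma: `R ∘ u = v ∘ R` with `R` indecomposable with many critical values
-/

namespace Pool.Agent.Helper74_Centr

open Polynomial IntermediateField

theorem num_denom_not_both_zero (v : RatFunc ℂ) (y : ℂ) (h1 : v.num.eval y = 0)
    (h2 : v.denom.eval y = 0) : False := by
  obtain ⟨a, b, hab⟩ := v.isCoprime_num_denom
  have := congrArg (Polynomial.eval y) hab
  rw [eval_add, eval_mul, eval_mul, h1, h2] at this
  simp at this

theorem wronskian_ne_zero {v : RatFunc ℂ} (hv : Nonconst v) : wronskian v.num v.denom ≠ 0 := by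
  intro h
  rw [IsCoprime.wronskian_eq_zero_iff v.isCoprime_num_denom] at h
  have h1 := derivative_eq_zero.1 h.1
  have h2 := derivative_eq_zero.1 h.2
  have h3 := deg_pos_iff.2 hv
  rw [deg, h1, h2] at h3
  simp at h3

/-- The polynomial whose roots are the (finite) solutions of `v(y) = s`. -/
noncomputable def fibP (v : RatFunc ℂ) (s : ℂ) : ℂ[X] := v.num - C s * v.denom

theorem fibP_eval (v : RatFunc ℂ) (s y : ℂ) :
    (fibP v s).eval y = v.num.eval y - s * v.denom.eval y := by
  simp [fibP]

theorem fibP_natDegree_le (v : RatFunc ℂ) (s : ℂ) : (fibP v s).natDegree ≤ deg v := by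
  refine (natDegree_sub_le _ _).trans (max_le (le_max_left _ _) ?_)
  exact (natDegree_C_mul_le _ _).trans (le_max_right _ _)

theorem fibP_ne_zero {v : RatFunc ℂ} (hv : Nonconst v) (s : ℂ) : fibP v s ≠ 0 := by
  intro h
  apply hv s
  rw [fibP, sub_eq_zero] at h
  rw [← RatFunc.num_div_denom v, h, map_mul, RatFunc.algebraMap_C, mul_div_assoc, div_self, mul_one]
  intro h0
  exact v.denom_ne_zero (RatFunc.algebraMap_injective ℂ (by rw [h0, map_zero]))

/-- `v(y) ≠ s` for all but one exceptional `s`: the polynomial `fibP v s` has full degree. -/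
theorem fibP_natDegree_eq {v : RatFunc ℂ} (hv : Nonconst v) {s : ℂ}
    (hs : s ≠ v.num.coeff (deg v) / v.denom.coeff (deg v)) : (fibP v s).natDegree = deg v := by
  apply le_antisymm (fibP_natDegree_le v s)
  apply le_natDegree_of_ne_zero
  rw [fibP, coeff_sub, coeff_C_mul]
  intro h0
  by_cases hb : v.denom.coeff (deg v) = 0
  · rw [hb, mul_zero, sub_zero] at h0
    have hpos := deg_pos_iff.2 hv
    rcases max_choice v.num.natDegree v.denom.natDegree with h | h
    · have h' : deg v = v.num.natDegree := h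
      rw [h', coeff_natDegree, leadingCoeff_eq_zero] at h0
      rw [h', h0] at hpos; simp at hpos
    · have h' : deg v = v.denom.natDegree := h
      rw [h', coeff_natDegree, leadingCoeff_eq_zero] at hb
      exact v.denom_ne_zero hb
  · apply hs
    rw [eq_div_iff hb]
    linear_combination -h0

theorem fibP_disjoint {v : RatFunc ℂ} {s s' y : ℂ} (hss : s ≠ s')
    (h1 : (fibP v s).eval y = 0) (h2 : (fibP v s').eval y = 0) : False := by
  rw [fibP_eval] at h1 h2
  have h3 : (s - s') * v.denom.eval y = 0 := by linear_combination h2 - h1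
  rcases mul_eq_zero.1 h3 with h | h
  · exact hss (sub_eq_zero.1 h)
  · rw [h, mul_zero, sub_zero] at h1
    exact num_denom_not_both_zero v y h1 h

theorem sum_mult (p : ℂ[X]) : ∑ y ∈ p.roots.toFinset, p.rootMultiplicity y = p.natDegree := by
  have h1 : Multiset.card p.roots = p.natDegree := (IsAlgClosed.splits p).natDegree_eq_card_roots.symm
  rw [← h1, ← Multiset.toFinset_sum_count_eq]
  exact Finset.sum_congr rfl (fun y _ => (count_roots p).symm)

theorem mult_wronskian {v : RatFunc ℂ} (hv : Nonconst v) (s y : ℂ) :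
    (fibP v s).rootMultiplicity y - 1 ≤ (wronskian v.num v.denom).rootMultiplicity y := by
  rw [le_rootMultiplicity_iff (wronskian_ne_zero hv)]
  have h1 : wronskian v.num v.denom = wronskian (fibP v s) v.denom := by
    rw [wronskian, wronskian, fibP, derivative_sub, derivative_C_mul]; ring
  rw [h1, wronskian]
  have h2 : (X - C y) ^ (fibP v s).rootMultiplicity y ∣ fibP v s := pow_rootMultiplicity_dvd _ _
  apply dvd_sub
  · exact Dvd.dvd.mul_right ((pow_dvd_pow _ (Nat.sub_le _ _)).trans h2) _
  · exact Dvd.dvd.mul_right (pow_sub_one_dvd_derivative_of_pow_dvd h2) _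

/-- The counting argument. -/
theorem counting {v : RatFunc ℂ} (hv : Nonconst v) (S X₀ : Finset ℂ)
    (hS : ∀ s ∈ S, (fibP v s).natDegree = deg v)
    (hX : ∀ s ∈ S, ∀ y, (fibP v s).eval y = 0 → y ∉ X₀ → (derivative (fibP v s)).eval y = 0) :
    S.card * deg v + 2 ≤ 4 * deg v + X₀.card := by
  classical
  set N := deg v with hN
  have hNpos : 0 < N := deg_pos_iff.2 hv
  set Y : ℂ → Finset ℂ := fun s => (fibP v s).roots.toFinset with hY
  have hmemY : ∀ s y, y ∈ Y s ↔ (fibP v s).eval y = 0 := by
    intro s y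
    rw [hY, Multiset.mem_toFinset, mem_roots (fibP_ne_zero hv s)]; rfl
  have hdisj : (S : Set ℂ).PairwiseDisjoint Y := by
    intro s _ s' _ hss
    rw [Function.onFun, Finset.disjoint_left]
    intro y h1 h2
    exact fibP_disjoint hss ((hmemY s y).1 h1) ((hmemY s' y).1 h2)
  have hmpos : ∀ s, ∀ y ∈ Y s, 1 ≤ (fibP v s).rootMultiplicity y := by
    intro s y hy
    exact (rootMultiplicity_pos (fibP_ne_zero hv s)).2 ((hmemY s y).1 hy)
  have hsum : ∀ s ∈ S, ∑ y ∈ Y s, (fibP v s).rootMultiplicity y = N := by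
    intro s hs
    rw [hY, sum_mult, hS s hs]
  -- first inequality
  have h1 : ∑ s ∈ S, ∑ y ∈ Y s, ((fibP v s).rootMultiplicity y - 1) ≤ 2 * N - 1 := by
    calc ∑ s ∈ S, ∑ y ∈ Y s, ((fibP v s).rootMultiplicity y - 1)
        ≤ ∑ s ∈ S, ∑ y ∈ Y s, (wronskian v.num v.denom).rootMultiplicity y :=
          Finset.sum_le_sum (fun s _ => Finset.sum_le_sum (fun y _ => mult_wronskian hv s y))
      _ = ∑ y ∈ S.biUnion Y, (wronskian v.num v.denom).rootMultiplicity y :=
          (Finset.sum_biUnion hdisj).symm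
      _ ≤ ∑ y ∈ S.biUnion Y ∪ (wronskian v.num v.denom).roots.toFinset,
            (wronskian v.num v.denom).rootMultiplicity y :=
          Finset.sum_le_sum_of_subset Finset.subset_union_left
      _ = ∑ y ∈ (wronskian v.num v.denom).roots.toFinset,
            (wronskian v.num v.denom).rootMultiplicity y := by
          symm
          apply Finset.sum_subset Finset.subset_union_right
          intro y _ hy
          rw [Multiset.mem_toFinset] at hy
          rw [← count_roots]
          exact Multiset.count_eq_zero_of_notMem hy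
      _ = (wronskian v.num v.denom).natDegree := sum_mult _
      _ ≤ 2 * N - 1 := by
          have := natDegree_wronskian_lt_add (wronskian_ne_zero hv)
          have h2 : v.num.natDegree ≤ N := le_max_left _ _
          have h3 : v.denom.natDegree ≤ N := le_max_right _ _
          omega
  have h1' : S.card * N ≤ 2 * N - 1 + ∑ s ∈ S, (Y s).card := by
    have e : ∑ s ∈ S, ∑ y ∈ Y s, (fibP v s).rootMultiplicity y = S.card * N := by
      rw [Finset.sum_congr rfl hsum, Finset.sum_const, smul_eq_mul]
    rw [← e]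
    calc ∑ s ∈ S, ∑ y ∈ Y s, (fibP v s).rootMultiplicity y
        = ∑ s ∈ S, ∑ y ∈ Y s, (((fibP v s).rootMultiplicity y - 1) + 1) := by
          apply Finset.sum_congr rfl; intro s _
          apply Finset.sum_congr rfl; intro y hy
          have := hmpos s y hy; omega
      _ = ∑ s ∈ S, ∑ y ∈ Y s, ((fibP v s).rootMultiplicity y - 1) + ∑ s ∈ S, (Y s).card := by
          rw [← Finset.sum_add_distrib]
          apply Finset.sum_congr rfl; intro s _
          rw [Finset.sum_add_distrib, Finset.sum_const, smul_eq_mul, mul_one]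
      _ ≤ _ := Nat.add_le_add_right h1 _
  -- second inequality
  have h2 : ∀ s ∈ S, 2 * (Y s).card ≤ N + (Y s ∩ X₀).card := by
    intro s hs
    have e1 : ∑ y ∈ Y s, 2 ≤ ∑ y ∈ Y s, ((fibP v s).rootMultiplicity y + if y ∈ X₀ then 1 else 0) := by
      apply Finset.sum_le_sum
      intro y hy
      by_cases hyX : y ∈ X₀
      · rw [if_pos hyX]; have := hmpos s y hy; omega
      · rw [if_neg hyX, add_zero]
        have h3 : 1 < (fibP v s).rootMultiplicity y := by
          rw [one_lt_rootMultiplicity_iff_isRoot (fibP_ne_zero hv s)]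
          exact ⟨(hmemY s y).1 hy, hX s hs y ((hmemY s y).1 hy) hyX⟩
        omega
    rw [Finset.sum_const, smul_eq_mul, Finset.sum_add_distrib, hsum s hs, Finset.sum_ite_mem,
      Finset.sum_const, smul_eq_mul, mul_one] at e1
    omega
  have h3 : ∑ s ∈ S, (Y s ∩ X₀).card ≤ X₀.card := by
    have e : ∑ s ∈ S, (Y s ∩ X₀).card = (S.biUnion (fun s => Y s ∩ X₀)).card := by
      symm
      apply Finset.card_biUnion
      intro s hs s' hs' hss
      exact (hdisj hs hs' hss).mono Finset.inter_subset_left Finset.inter_subset_left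
    rw [e]
    apply Finset.card_le_card
    intro y hy
    rw [Finset.mem_biUnion] at hy
    obtain ⟨s, _, hs⟩ := hy
    exact (Finset.mem_inter.1 hs).2
  have h4 : 2 * ∑ s ∈ S, (Y s).card ≤ S.card * N + X₀.card := by
    rw [Finset.mul_sum]
    calc ∑ s ∈ S, 2 * (Y s).card ≤ ∑ s ∈ S, (N + (Y s ∩ X₀).card) := Finset.sum_le_sum h2
      _ = S.card * N + ∑ s ∈ S, (Y s ∩ X₀).card := by
          rw [Finset.sum_add_distrib, Finset.sum_const, smul_eq_mul]
      _ ≤ _ := Nat.add_le_add_left h3 _
  omega

theorem gen_of_indecomposable {R u : RatFunc ℂ}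
    (hind : ∀ E : IntermediateField ℂ (RatFunc ℂ), ℂ⟮R⟯ ≤ E → E = ℂ⟮R⟯ ∨ E = ⊤)
    (hu' : u ∉ ℂ⟮R⟯) : IntermediateField.adjoin ℂ⟮R⟯ {u} = ⊤ := by
  have h1 : ℂ⟮R⟯ ≤ (IntermediateField.adjoin ℂ⟮R⟯ {u}).restrictScalars ℂ := by
    intro x hx
    exact (IntermediateField.adjoin ℂ⟮R⟯ {u}).algebraMap_mem ⟨x, hx⟩
  rcases hind _ h1 with h | h
  · exfalso
    apply hu'
    rw [← h]
    exact IntermediateField.mem_adjoin_simple_self _ u
  · rwa [IntermediateField.restrictScalars_eq_top_iff] at h

/-- **The key lemma.** If `R` is indecomposable with at least twelve critical values and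
`R ∘ u = v ∘ R` with `u ∉ ℂ(R)`, then `u` is a Möbius transformation. -/
theorem key_lemma {R u v : RatFunc ℂ} (hR : Nonconst R) (hu : Nonconst u) (hv : Nonconst v)
    (hind : ∀ E : IntermediateField ℂ (RatFunc ℂ), ℂ⟮R⟯ ≤ E → E = ℂ⟮R⟯ ∨ E = ⊤)
    (hcomm : comp R u = comp v R) (hu' : u ∉ ℂ⟮R⟯) (V : Finset ℂ)
    (hV : ∀ s, s ∈ V ↔ ∃ c, HasJet R c s 0) (hcard : 12 ≤ V.card) : deg u = 1 := by
  classical
  have hgen := gen_of_indecomposable hind hu'
  have hRpos := deg_pos_iff.2 hR
  have hdeg : deg v = deg u := by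
    have h1 := congrArg deg hcomm
    rw [deg_comp _ hu, deg_comp _ hR, mul_comm] at h1
    exact (Nat.eq_of_mul_eq_mul_right hRpos h1).symm
  rw [← hdeg]
  set v₀ := v.num.coeff (deg v) / v.denom.coeff (deg v) with hv₀
  set r₀ := R.num.coeff (deg R) / R.denom.coeff (deg R) with hr₀
  set S := (V.erase v₀).erase r₀ with hS
  have hScard : V.card ≤ S.card + 2 := by
    have h1 := Finset.pred_card_le_card_erase (s := V) (a := v₀)
    have h2 : (V.erase v₀).card - 1 ≤ S.card :=
      Finset.pred_card_le_card_erase (s := V.erase v₀) (a := r₀)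
    omega
  set X₀ := insert r₀ V with hX₀
  have hX₀card : X₀.card ≤ V.card + 1 := Finset.card_insert_le _ _
  have hcount := counting hv S X₀ ?_ ?_
  · -- conclusion
    have hpos := deg_pos_iff.2 hv
    by_contra hne
    have hN : 2 ≤ deg v := by omega
    have h5 : S.card * deg v + 2 ≤ 4 * deg v + (S.card + 3) := by omega
    have hS10 : 10 ≤ S.card := by omega
    obtain ⟨k, hk⟩ := Nat.exists_eq_add_of_le hS10
    rw [hk] at h5
    nlinarith
  · intro s hs
    apply fibP_natDegree_eq hv
    intro h0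
    rw [hS, Finset.mem_erase, Finset.mem_erase] at hs
    exact hs.2.1 h0
  · intro s hs y hy hyX
    rw [hS, Finset.mem_erase, Finset.mem_erase] at hs
    obtain ⟨hsr, hsv, hsV⟩ := hs
    rw [hX₀, Finset.mem_insert, not_or] at hyX
    obtain ⟨hyr, hyV⟩ := hyX
    obtain ⟨c, hc⟩ := (hV s).1 hsV
    -- `v` at `y`
    have hby : v.denom.eval y ≠ 0 := by
      intro h0
      rw [fibP_eval, h0, mul_zero, sub_zero] at hy
      exact num_denom_not_both_zero v y hy h0
    have hay : v.num.eval y = s * v.denom.eval y := by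
      rw [fibP_eval, sub_eq_zero] at hy; exact hy
    obtain ⟨hc1, hc2⟩ := hc.eval_eq (num_denom_eq R)
    have hpt : R.num.eval c * v.denom.eval y = R.denom.eval c * v.num.eval y := by
      rw [hc1, hay]; ring
    have hlc : R.num.coeff (deg R) * v.denom.eval y - R.denom.coeff (deg R) * v.num.eval y ≠ 0 := by
      rw [hay]
      intro h0
      have h1 : (fibP R s).coeff (deg R) = 0 := by
        rw [fibP, coeff_sub, coeff_C_mul]
        apply mul_right_cancel₀ hby
        linear_combination h0
      have h2 := fibP_natDegree_eq hR hsr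
      rw [← h2, coeff_natDegree, leadingCoeff_eq_zero] at h1
      exact fibP_ne_zero hR s h1
    have hydeg : (R.num - C y * R.denom).natDegree = deg R := fibP_natDegree_eq hR hyr
    obtain ⟨z₀, ⟨d, hd⟩, ⟨e, he⟩⟩ := exists_point hR hu hgen hcomm hpt hlc hydeg
    have hjv := hasJet_of_eq (num_denom_eq v) hby
    have hval : v.num.eval y / v.denom.eval y = s := by rw [hay]; field_simp
    have h1 : HasJet (comp R u) z₀ s (0 * d) := hd.comp hu hc
    have h2 := he.comp hR hjv
    rw [hval, ← hcomm] at h2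
    have h3 := (h1.unique h2).2
    have he0 : e ≠ 0 := by
      rintro rfl
      exact hyV ((hV y).2 ⟨z₀, he⟩)
    have h4 : (derivative v.num).eval y * v.denom.eval y -
        v.num.eval y * (derivative v.denom).eval y = 0 := by
      rw [zero_mul] at h3
      have := (mul_eq_zero.1 h3.symm).resolve_right he0
      rw [div_eq_zero_iff] at this
      exact this.resolve_right (pow_ne_zero 2 hby)
    rw [fibP, derivative_sub, derivative_C_mul, eval_sub, eval_mul, eval_C]
    apply mul_right_cancel₀ hby
    rw [hay] at h4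
    linear_combination h4

end Pool.Agent.Helper74_Centr
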