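import Pool.Agent.Helper74_Centr.Equiv
import Pool.Agent.Helper74_Centr.Key

/-!
# Normalisation of the equivariant functions
-/

namespace Pool.Agent.Helper74_Centr

open Polynomial IntermediateField Matrix

theorem exists_eval_ne {p : ℂ[X]} (h : p ≠ 0) : ∃ c, p.eval c ≠ 0 := by
  by_contra hcon
  push Not at hcon
  exact h (Polynomial.funext (fun r => by rw [hcon r, eval_zero]))

/-- Values of a nonconstant ratio. -/
theorem const_ratio {f g : RatFunc ℂ} {c a : ℂ} {d : ℂ} (hf : HasJet f c a d) {d' : ℂ}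
    (hg : HasJet g c 1 d') (h : ¬ Nonconst (f / g)) : f = RatFunc.C a * g := by
  have hg0 : g ≠ 0 := by
    rintro rfl
    have := hg.unique (hasJet_zero c)
    exact one_ne_zero this.1
  rw [Nonconst] at h
  push Not at h
  obtain ⟨k, hk⟩ := h
  rw [div_eq_iff hg0] at hk
  have h1 := (hasJet_C k c).mul hg
  rw [← hk] at h1
  have h2 := (hf.unique h1).1
  rw [mul_one] at h2
  rw [hk, h2]

/-- The normalisation at a point. -/
theorem normalise {v₀ v₁ : Fin 2 → RatFunc ℂ} {u : RatFunc ℂ} {c₀ e : ℂ} {s₀ d₀ s₁ d₁ : Fin 2 → ℂ}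
    (h₀ : ∀ i, HasJet (v₀ i) c₀ (s₀ i) (d₀ i)) (h₁ : ∀ i, HasJet (v₁ i) c₀ (s₁ i) (d₁ i))
    (hu : HasJet u c₀ 0 e) (he : e ≠ 0) (hs : s₀ 0 * s₁ 1 - s₀ 1 * s₁ 0 ≠ 0)
    (hΔ : v₀ 0 * v₁ 1 - v₀ 1 * v₁ 0 ≠ 0) :
    ∃ α β : RatFunc ℂ, (∀ σ : RatFunc ℂ →ₐ[ℂ] RatFunc ℂ, σ u = u → σ α = α ∧ σ β = β) ∧
      HasJet (α * v₀ 0 + β * v₁ 0) c₀ c₀ 0 ∧ HasJet (α * v₀ 1 + β * v₁ 1) c₀ 1 0 ∧
      Nonconst ((α * v₀ 0 + β * v₁ 0) / (α * v₀ 1 + β * v₁ 1)) := by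
  have hu0 : u ≠ 0 := by
    rintro rfl
    exact he (hu.unique (hasJet_zero c₀)).2
  set δ := s₀ 0 * s₁ 1 - s₀ 1 * s₁ 0 with hδ
  -- zeroth order
  obtain ⟨x₀, y₀, e1, e2⟩ : ∃ x y : ℂ, x * s₀ 0 + y * s₁ 0 = c₀ ∧ x * s₀ 1 + y * s₁ 1 = 1 := by
    refine ⟨(c₀ * s₁ 1 - s₁ 0) / δ, (s₀ 0 - c₀ * s₀ 1) / δ, ?_, ?_⟩
    · field_simp; rw [hδ]; ring
    · field_simp; rw [hδ]; ring
  -- first order
  obtain ⟨x₁, y₁, e3, e4⟩ : ∃ x y : ℂ,
      x * e * s₀ 0 + y * e * s₁ 0 + (x₀ * d₀ 0 + y₀ * d₁ 0) = 0 ∧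
      x * e * s₀ 1 + y * e * s₁ 1 + (x₀ * d₀ 1 + y₀ * d₁ 1) = 0 := by
    set p := -(x₀ * d₀ 0 + y₀ * d₁ 0) with hp
    set q := -(x₀ * d₀ 1 + y₀ * d₁ 1) with hq
    refine ⟨(p * s₁ 1 - q * s₁ 0) / (δ * e), (q * s₀ 0 - p * s₀ 1) / (δ * e), ?_, ?_⟩
    · have : (p * s₁ 1 - q * s₁ 0) / (δ * e) * e * s₀ 0 + (q * s₀ 0 - p * s₀ 1) / (δ * e) * e * s₁ 0
          = p := by
        field_simp; rw [hδ]; ring
      rw [this, hp]; ring
    · have : (p * s₁ 1 - q * s₁ 0) / (δ * e) * e * s₀ 1 + (q * s₀ 0 - p * s₀ 1) / (δ * e) * e * s₁ 1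
          = q := by
        field_simp; rw [hδ]; ring
      rw [this, hq]; ring
  set α := RatFunc.C x₀ + RatFunc.C x₁ * u with hα
  set β := RatFunc.C y₀ + RatFunc.C y₁ * u with hβ
  have hσC : ∀ (σ : RatFunc ℂ →ₐ[ℂ] RatFunc ℂ) (x : ℂ), σ (RatFunc.C x) = RatFunc.C x := by
    intro σ x
    rw [← RatFunc.algebraMap_eq_C, σ.commutes]
  have hασ : ∀ σ : RatFunc ℂ →ₐ[ℂ] RatFunc ℂ, σ u = u → σ α = α ∧ σ β = β := by
    intro σ hσ
    rw [hα, hβ, map_add, map_add, map_mul, map_mul, hσ, hσC, hσC, hσC, hσC]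
    exact ⟨rfl, rfl⟩
  have hαj : HasJet α c₀ x₀ (x₁ * e) :=
    ((hasJet_C x₀ c₀).add ((hasJet_C x₁ c₀).mul hu)).congr (by ring) (by ring)
  have hβj : HasJet β c₀ y₀ (y₁ * e) :=
    ((hasJet_C y₀ c₀).add ((hasJet_C y₁ c₀).mul hu)).congr (by ring) (by ring)
  have j0 : HasJet (α * v₀ 0 + β * v₁ 0) c₀ c₀ 0 :=
    ((hαj.mul (h₀ 0)).add (hβj.mul (h₁ 0))).congr e1 (by linear_combination e3)
  have j1 : HasJet (α * v₀ 1 + β * v₁ 1) c₀ 1 0 :=
    ((hαj.mul (h₀ 1)).add (hβj.mul (h₁ 1))).congr e2 (by linear_combination e4)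
  -- the corrections
  have hu2 : HasJet (u ^ 2) c₀ 0 0 := (hu.pow 2).congr (by simp) (by simp)
  by_contra hcon
  push Not at hcon
  have k0 := hcon α β hασ j0 j1
  have k1 := hcon (α + u ^ 2) β (fun σ hσ => by
      obtain ⟨q1, q2⟩ := hασ σ hσ
      rw [map_add σ α, map_pow, hσ, q1]; exact ⟨rfl, q2⟩)
    ((((hαj.add hu2).mul (h₀ 0)).add (hβj.mul (h₁ 0))).congr (by linear_combination e1)
      (by linear_combination e3))
    ((((hαj.add hu2).mul (h₀ 1)).add (hβj.mul (h₁ 1))).congr (by linear_combination e2)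
      (by linear_combination e4))
  have k2 := hcon α (β + u ^ 2) (fun σ hσ => by
      obtain ⟨q1, q2⟩ := hασ σ hσ
      rw [map_add σ β, map_pow, hσ, q2]; exact ⟨q1, rfl⟩)
    (((hαj.mul (h₀ 0)).add ((hβj.add hu2).mul (h₁ 0))).congr (by linear_combination e1)
      (by linear_combination e3))
    (((hαj.mul (h₀ 1)).add ((hβj.add hu2).mul (h₁ 1))).congr (by linear_combination e2)
      (by linear_combination e4))
  have r0 := const_ratio j0 j1 k0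
  have r1 := const_ratio ((((hαj.add hu2).mul (h₀ 0)).add (hβj.mul (h₁ 0))).congr
      (by linear_combination e1) (by linear_combination e3) : HasJet _ c₀ c₀ 0)
    ((((hαj.add hu2).mul (h₀ 1)).add (hβj.mul (h₁ 1))).congr (by linear_combination e2)
      (by linear_combination e4) : HasJet _ c₀ 1 0) k1
  have r2 := const_ratio (((hαj.mul (h₀ 0)).add ((hβj.add hu2).mul (h₁ 0))).congr
      (by linear_combination e1) (by linear_combination e3) : HasJet _ c₀ c₀ 0)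
    (((hαj.mul (h₀ 1)).add ((hβj.add hu2).mul (h₁ 1))).congr (by linear_combination e2)
      (by linear_combination e4) : HasJet _ c₀ 1 0) k2
  have hu2' : u ^ 2 ≠ 0 := pow_ne_zero 2 hu0
  have t0 : v₀ 0 = RatFunc.C c₀ * v₀ 1 := by
    apply mul_left_cancel₀ hu2'
    linear_combination r1 - r0
  have t1 : v₁ 0 = RatFunc.C c₀ * v₁ 1 := by
    apply mul_left_cancel₀ hu2'
    linear_combination r2 - r0
  apply hΔ
  rw [t0, t1]; ring

/-- Values of nonzero rational functions. -/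
theorem HasJet.ne_zero_of_num {f : RatFunc ℂ} {c s d : ℂ} (h : HasJet f c s d)
    (hn : f.num.eval c ≠ 0) : s ≠ 0 := by
  rintro rfl
  have := (h.eval_eq (num_denom_eq f)).1
  rw [zero_mul] at this
  exact hn this

/-- Invertible derivative from the Wronskian. -/
theorem HasJet.deriv_ne_zero {f : RatFunc ℂ} {c s d : ℂ} (h : HasJet f c s d)
    (hn : (wronskian f.num f.denom).eval c ≠ 0) : d ≠ 0 := by
  rintro rfl
  exact hn (h.wronskian_eq_zero (num_denom_eq f))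

theorem linear_ne_zero {M : Matrix (Fin 2) (Fin 2) ℂ} (hM : M.det ≠ 0) :
    (C (M 1 0) * X + C (M 1 1) : ℂ[X]) ≠ 0 := by
  intro h
  apply det_ne_of_den_zero hM
  have := congrArg (algebraMap ℂ[X] (RatFunc ℂ)) h
  rwa [map_add, map_mul, RatFunc.algebraMap_C, RatFunc.algebraMap_C, RatFunc.algebraMap_X,
    map_zero] at this

section

variable {T : Type*} [Group T] (ρ₁ : T →* RatMapˣ) (B : T → GL (Fin 2) ℂ)

/-- `f` and `g` are the components of an equivariant vector with multiplier `μ`. -/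
def EqVec (t : T) (μ f g : RatFunc ℂ) : Prop :=
  sub ρ₁ t f = μ * (RatFunc.C (B t 0 0) * f + RatFunc.C (B t 0 1) * g) ∧
  sub ρ₁ t g = μ * (RatFunc.C (B t 1 0) * f + RatFunc.C (B t 1 1) * g)

variable {ρ₁ B}

theorem EqVec.comb {t : T} {μ f g f' g' α β : RatFunc ℂ} (h : EqVec ρ₁ B t μ f g)
    (h' : EqVec ρ₁ B t μ f' g') (hα : sub ρ₁ t α = α) (hβ : sub ρ₁ t β = β) :
    EqVec ρ₁ B t μ (α * f + β * f') (α * g + β * g') := by
  constructor
  · rw [map_add, map_mul, map_mul, hα, hβ, h.1, h'.1]; ring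
  · rw [map_add, map_mul, map_mul, hα, hβ, h.2, h'.2]; ring

theorem EqVec.scale {t : T} {μ f g l : RatFunc ℂ} (h : EqVec ρ₁ B t μ f g) (hl : l ≠ 0) :
    EqVec ρ₁ B t (sub ρ₁ t l / l * μ) (l * f) (l * g) := by
  constructor
  · rw [map_mul, h.1]; field_simp
  · rw [map_mul, h.2]; field_simp

/-- Choice of the base point and polynomial data. -/
theorem exists_base [Finite T] (hρ : Function.Injective ρ₁) (hB : Proj B) (A : T → GL (Fin 2) ℂ) :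
    ∃ (c₀ : ℂ) (a₀ b₀ a₁ b₁ wn wd : ℂ[X]),
      a₁ * b₀ - a₀ * b₁ ≠ 0 ∧ wronskian a₁ b₁ ≠ 0 ∧ IsCoprime wn wd ∧ wronskian wn wd ≠ 0 ∧
      max wn.natDegree wd.natDegree = Nat.card T ∧
      (∀ t, sub ρ₁ t (algebraMap ℂ[X] (RatFunc ℂ) wn / algebraMap ℂ[X] (RatFunc ℂ) wd) =
        algebraMap ℂ[X] (RatFunc ℂ) wn / algebraMap ℂ[X] (RatFunc ℂ) wd) ∧
      (∀ t, ∃ μ : RatFunc ℂ, μ ≠ 0 ∧
        EqVec ρ₁ B t μ (algebraMap ℂ[X] (RatFunc ℂ) a₀) (algebraMap ℂ[X] (RatFunc ℂ) b₀) ∧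
        EqVec ρ₁ B t μ (algebraMap ℂ[X] (RatFunc ℂ) a₁) (algebraMap ℂ[X] (RatFunc ℂ) b₁)) ∧
      wd.eval c₀ = 0 ∧ b₁.eval c₀ ≠ 0 ∧ a₁.eval c₀ = c₀ * b₁.eval c₀ ∧
      (derivative a₁).eval c₀ = c₀ * (derivative b₁).eval c₀ ∧
      ∀ t, A t 1 0 * c₀ + A t 1 1 ≠ 0 := by
  classical
  have := Fintype.ofFinite T
  obtain ⟨v₀, v₁, hΔ, hv⟩ := exists_equivariant ρ₁ hρ hB
  obtain ⟨w₀, hw₀, hinvw, hdegw⟩ := exists_w ρ₁ hρ
  -- the base point
  set Δ := v₀ 0 * v₁ 1 - v₀ 1 * v₁ 0 with hΔdef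
  have hprod : (v₀ 0).denom * (v₀ 1).denom * (v₁ 0).denom * (v₁ 1).denom * w₀.denom * Δ.num *
      wronskian w₀.num w₀.denom * ∏ t, (C (A t 1 0) * X + C (A t 1 1) : ℂ[X]) ≠ 0 := by
    refine mul_ne_zero (mul_ne_zero (mul_ne_zero (mul_ne_zero (mul_ne_zero (mul_ne_zero
      (mul_ne_zero ?_ ?_) ?_) ?_) ?_) ?_) ?_) ?_
    · exact RatFunc.denom_ne_zero _
    · exact RatFunc.denom_ne_zero _
    · exact RatFunc.denom_ne_zero _
    · exact RatFunc.denom_ne_zero _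
    · exact RatFunc.denom_ne_zero _
    · rw [Ne, RatFunc.num_eq_zero_iff]; exact hΔ
    · exact wronskian_ne_zero hw₀
    · rw [Finset.prod_ne_zero_iff]
      intro t _
      exact linear_ne_zero (Matrix.GeneralLinearGroup.det_ne_zero (A t))
  obtain ⟨c₀, hc₀⟩ := exists_eval_ne hprod
  simp only [eval_mul, eval_prod, mul_ne_zero_iff, Finset.prod_ne_zero_iff] at hc₀
  obtain ⟨⟨⟨⟨⟨⟨⟨n1, n2⟩, n3⟩, n4⟩, n5⟩, n6⟩, n7⟩, n8⟩ := hc₀
  obtain ⟨s00, d00, j00⟩ := exists_hasJet n1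
  obtain ⟨s01, d01, j01⟩ := exists_hasJet n2
  obtain ⟨s10, d10, j10⟩ := exists_hasJet n3
  obtain ⟨s11, d11, j11⟩ := exists_hasJet n4
  obtain ⟨sw, dw, jw⟩ := exists_hasJet n5
  have hs : s00 * s11 - s01 * s10 ≠ 0 :=
    ((j00.mul j11).sub (j01.mul j10)).ne_zero_of_num n6
  have hdw : dw ≠ 0 := jw.deriv_ne_zero n7
  -- the local parameter
  set u := w₀ - RatFunc.C sw with hu
  have ju : HasJet u c₀ 0 dw := (jw.sub (hasJet_C sw c₀)).congr (by ring) (by ring)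
  have hu0 : u ≠ 0 := by
    intro h0
    exact hw₀ sw (sub_eq_zero.1 h0)
  obtain ⟨α, β, hσ, k0, k1, hnc⟩ := normalise (v₀ := v₀) (v₁ := v₁) (s₀ := ![s00, s01])
    (d₀ := ![d00, d01]) (s₁ := ![s10, s11]) (d₁ := ![d10, d11])
    (by intro i; fin_cases i; exacts [j00, j01]) (by intro i; fin_cases i; exacts [j10, j11])
    ju hdw hs hΔ
  have hsubw : ∀ t, sub ρ₁ t w₀ = w₀ := by
    rw [← mem_invField, hinvw]; exact mem_adjoin_simple_self ℂ w₀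
  have hsubu : ∀ t, sub ρ₁ t u = u := by
    intro t
    rw [hu, map_sub, hsubw, sub_C]
  set f := α * v₀ 0 + β * v₁ 0 with hf
  set g := α * v₀ 1 + β * v₁ 1 with hg
  -- equivariance of the vectors
  have hE0 : ∀ t, ∃ μ : RatFunc ℂ, μ ≠ 0 ∧ EqVec ρ₁ B t μ (v₀ 0) (v₀ 1) ∧
      EqVec ρ₁ B t μ (v₁ 0) (v₁ 1) := by
    intro t
    obtain ⟨μ, hμ, h0, h1⟩ := hv t
    have hm : ∀ (v : Fin 2 → RatFunc ℂ) (i : Fin 2), ((BK B t).val.mulVec v) i =
        RatFunc.C (B t i 0) * v 0 + RatFunc.C (B t i 1) * v 1 := by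
      intro v i
      rw [Matrix.mulVec, dotProduct, Fin.sum_univ_two]
      rfl
    exact ⟨μ, hμ, ⟨by rw [h0 0, hm], by rw [h0 1, hm]⟩, ⟨by rw [h1 0, hm], by rw [h1 1, hm]⟩⟩
  -- the second vector
  obtain ⟨f', g', hreg, hΔ', hE⟩ : ∃ f' g' : RatFunc ℂ,
      ((f'.denom.eval c₀ ≠ 0) ∧ (g'.denom.eval c₀ ≠ 0)) ∧ f * g' - f' * g ≠ 0 ∧
      ∀ t, ∃ μ : RatFunc ℂ, μ ≠ 0 ∧ EqVec ρ₁ B t μ f' g' ∧ EqVec ρ₁ B t μ f g := by
    by_cases hβ : β = 0
    · refine ⟨v₁ 0, v₁ 1, ⟨n3, n4⟩, ?_, ?_⟩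
      · have hα0 : α ≠ 0 := by
          intro hα0
          apply hnc 0
          rw [hf, hα0, hβ]; simp
        have : f * v₁ 1 - v₁ 0 * g = α * Δ := by rw [hf, hg, hΔdef]; ring
        rw [this]
        exact mul_ne_zero hα0 hΔ
      · intro t
        obtain ⟨μ, hμ, h0, h1⟩ := hE0 t
        obtain ⟨q1, q2⟩ := hσ (sub ρ₁ t) (hsubu t)
        exact ⟨μ, hμ, h1, h0.comb h1 q1 q2⟩
    · refine ⟨v₀ 0, v₀ 1, ⟨n1, n2⟩, ?_, ?_⟩
      · have : f * v₀ 1 - v₀ 0 * g = -(β * Δ) := by rw [hf, hg, hΔdef]; ring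
        rw [this]
        exact neg_ne_zero.2 (mul_ne_zero hβ hΔ)
      · intro t
        obtain ⟨μ, hμ, h0, h1⟩ := hE0 t
        obtain ⟨q1, q2⟩ := hσ (sub ρ₁ t) (hsubu t)
        exact ⟨μ, hμ, h0, h0.comb h1 q1 q2⟩
  -- clear denominators
  have m1 := hreg.1
  have m2 := hreg.2
  have m3 := k0.denom_ne_zero
  have m4 := k1.denom_ne_zero
  set l : ℂ[X] := f'.denom * g'.denom * f.denom * g.denom with hl
  have hlc : l.eval c₀ ≠ 0 := by
    rw [hl]; simp only [eval_mul]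
    exact mul_ne_zero (mul_ne_zero (mul_ne_zero m1 m2) m3) m4
  have hl0 : algebraMap ℂ[X] (RatFunc ℂ) l ≠ 0 := by
    intro h0
    apply hlc
    have : l = 0 := RatFunc.algebraMap_injective ℂ (by rw [h0, map_zero])
    rw [this, eval_zero]
  have ea₀ : algebraMap ℂ[X] (RatFunc ℂ) (f'.num * g'.denom * f.denom * g.denom) =
      algebraMap ℂ[X] (RatFunc ℂ) l * f' := by
    rw [hl]; simp only [map_mul]; rw [← num_denom_eq f']; ring
  have eb₀ : algebraMap ℂ[X] (RatFunc ℂ) (g'.num * f'.denom * f.denom * g.denom) =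
      algebraMap ℂ[X] (RatFunc ℂ) l * g' := by
    rw [hl]; simp only [map_mul]; rw [← num_denom_eq g']; ring
  have ea₁ : algebraMap ℂ[X] (RatFunc ℂ) (f.num * f'.denom * g'.denom * g.denom) =
      algebraMap ℂ[X] (RatFunc ℂ) l * f := by
    rw [hl]; simp only [map_mul]; rw [← num_denom_eq f]; ring
  have eb₁ : algebraMap ℂ[X] (RatFunc ℂ) (g.num * f'.denom * g'.denom * f.denom) =
      algebraMap ℂ[X] (RatFunc ℂ) l * g := by
    rw [hl]; simp only [map_mul]; rw [← num_denom_eq g]; ring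
  set a₀ := f'.num * g'.denom * f.denom * g.denom
  set b₀ := g'.num * f'.denom * f.denom * g.denom
  set a₁ := f.num * f'.denom * g'.denom * g.denom
  set b₁ := g.num * f'.denom * g'.denom * f.denom
  clear_value a₀ b₀ a₁ b₁
  have hg0 : g ≠ 0 := by
    intro h0
    apply hnc 0
    rw [h0]; simp
  have hratio : f / g * algebraMap ℂ[X] (RatFunc ℂ) b₁ = algebraMap ℂ[X] (RatFunc ℂ) a₁ := by
    rw [ea₁, eb₁]; field_simp
  have jr : HasJet (f / g) c₀ c₀ 0 := (k0.div k1 one_ne_zero).congr (by ring) (by ring)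
  have hb₁ : b₁.eval c₀ ≠ 0 := by
    have h1 := (((hasJet_algebraMap l c₀).mul k1).unique (eb₁ ▸ hasJet_algebraMap b₁ c₀)).1
    rw [← h1, mul_one]; exact hlc
  obtain ⟨r1, r2⟩ := jr.eval_eq hratio
  have hw1 : u⁻¹ * algebraMap ℂ[X] (RatFunc ℂ) (u⁻¹).denom =
    algebraMap ℂ[X] (RatFunc ℂ) (u⁻¹).num := num_denom_eq _
  have huinv : Nonconst u⁻¹ := by
    intro a ha
    apply hw₀ (a⁻¹ + sw)
    have : w₀ = (u⁻¹)⁻¹ + RatFunc.C sw := by rw [inv_inv, hu]; ring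
    rw [this, ha, map_add, map_inv₀]
  refine ⟨c₀, a₀, b₀, a₁, b₁, (u⁻¹).num, (u⁻¹).denom, ?_, ?_, RatFunc.isCoprime_num_denom _,
    wronskian_ne_zero huinv, ?_, ?_, ?_, ?_, hb₁, r1, ?_, ?_⟩
  · intro h0
    apply hΔ'
    have h1 := congrArg (algebraMap ℂ[X] (RatFunc ℂ)) h0
    rw [map_sub, map_mul, map_mul, ea₀, eb₀, ea₁, eb₁, map_zero] at h1
    have h2 : algebraMap ℂ[X] (RatFunc ℂ) l ^ 2 * (f * g' - f' * g) = 0 := by
      linear_combination h1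
    exact (mul_eq_zero.1 h2).resolve_left (pow_ne_zero 2 hl0)
  · -- nonconstancy
    have hb0 : b₁ ≠ 0 := by intro h0; rw [h0, eval_zero] at hb₁; exact hb₁ rfl
    have hb0' : algebraMap ℂ[X] (RatFunc ℂ) b₁ ≠ 0 := by
      intro h0
      exact hb0 (RatFunc.algebraMap_injective ℂ (by rw [h0, map_zero]))
    obtain ⟨k, hk⟩ : (f / g).denom ∣ b₁ := by
      rw [RatFunc.denom_dvd hb0]
      exact ⟨a₁, by rw [eq_div_iff hb0']; exact hratio⟩
    have hk' : a₁ = (f / g).num * k := by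
      apply RatFunc.algebraMap_injective ℂ
      rw [← hratio, hk, map_mul, map_mul, ← mul_assoc, num_denom_eq]
    have hk0 : k ≠ 0 := by rintro rfl; apply hb0; rw [hk, mul_zero]
    have : wronskian a₁ b₁ = k ^ 2 * wronskian (f / g).num (f / g).denom := by
      rw [hk', hk, wronskian, wronskian, derivative_mul, derivative_mul]; ring
    rw [this]
    exact mul_ne_zero (pow_ne_zero 2 hk0) (wronskian_ne_zero hnc)
  · -- the degree
    show deg u⁻¹ = _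
    let M : GL (Fin 2) ℂ := Matrix.GeneralLinearGroup.mkOfDetNeZero !![0, 1; 1, -sw]
      (by rw [Matrix.det_fin_two_of]; norm_num)
    have h1 : u⁻¹ = comp (mob M) w₀ := by
      rw [comp_mob _ hw₀]
      have e00 : M 0 0 = 0 := rfl
      have e01 : M 0 1 = 1 := rfl
      have e10 : M 1 0 = 1 := rfl
      have e11 : M 1 1 = -sw := rfl
      show _ = (RatFunc.C (M 0 0) * w₀ + RatFunc.C (M 0 1)) /
        (RatFunc.C (M 1 0) * w₀ + RatFunc.C (M 1 1))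
      rw [e00, e01, e10, e11, hu, map_zero, zero_mul, zero_add, map_one, one_mul, map_neg,
        ← sub_eq_add_neg, one_div]
    rw [h1, deg_comp _ hw₀, deg_mob, one_mul, hdegw]
  · intro t
    rw [RatFunc.num_div_denom, map_inv₀, hsubu]
  · intro t
    obtain ⟨μ, hμ, h0, h1⟩ := hE t
    refine ⟨sub ρ₁ t (algebraMap ℂ[X] (RatFunc ℂ) l) / algebraMap ℂ[X] (RatFunc ℂ) l * μ, ?_, ?_, ?_⟩
    · exact mul_ne_zero (div_ne_zero ((_root_.map_ne_zero _).2 hl0) hl0) hμ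
    · rw [ea₀, eb₀]; exact h0.scale hl0
    · rw [ea₁, eb₁]; exact h1.scale hl0
  · have h1 : u * algebraMap ℂ[X] (RatFunc ℂ) (u⁻¹).num =
        algebraMap ℂ[X] (RatFunc ℂ) (u⁻¹).denom := by
      rw [← num_denom_eq u⁻¹, mul_inv_cancel_left₀ hu0]
    have h2 := (ju.eval_eq h1).1
    rw [zero_mul] at h2
    exact h2
  · rw [r2]; ring
  · intro t
    have := n8 t (Finset.mem_univ t)
    simpa using this

end

end Pool.Agent.Helper74_Centr
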