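import Mathlib

/-!
# Composition of rational functions over `ℂ`
-/

namespace Pool.Agent.Helper74_Centr

open Polynomial IntermediateField

/-- Composition `f ∘ g` of rational functions over `ℂ`: the rational function obtained from `f`
by substituting `g` for the variable. (For nonconstant `g` no denominator vanishes.) -/
noncomputable def comp (f g : RatFunc ℂ) : RatFunc ℂ := RatFunc.eval RatFunc.C g f

/-- A rational function is nonconstant. -/
def Nonconst (f : RatFunc ℂ) : Prop := ∀ c : ℂ, f ≠ RatFunc.C c

/-- The degree of a rational function `p / q` in lowest terms: `max (deg p) (deg q)`. -/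
noncomputable def deg (f : RatFunc ℂ) : ℕ := max f.num.natDegree f.denom.natDegree

theorem Nonconst.not_exists {g : RatFunc ℂ} (hg : Nonconst g) : ¬ ∃ c, g = RatFunc.C c :=
  fun ⟨c, hc⟩ => hg c hc

theorem Nonconst.transcendental {g : RatFunc ℂ} (hg : Nonconst g) : Transcendental ℂ g :=
  g.transcendental_of_ne_C hg.not_exists

theorem algHom_ext {A : Type*} [Field A] [Algebra ℂ A] {f g : RatFunc ℂ →ₐ[ℂ] A}
    (h : f RatFunc.X = g RatFunc.X) : f = g := by
  have h1 : (f : RatFunc ℂ →+* A) = g := by
    apply IsLocalization.ringHom_ext (nonZeroDivisors ℂ[X])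
    apply Polynomial.ringHom_ext
    · intro a
      have e : (algebraMap ℂ[X] (RatFunc ℂ)) (Polynomial.C a) = algebraMap ℂ (RatFunc ℂ) a := by
        rw [RatFunc.algebraMap_C, RatFunc.algebraMap_eq_C]
      simp only [RingHom.comp_apply, e]
      show f _ = g _
      rw [AlgHom.commutes, AlgHom.commutes]
    · simp only [RingHom.comp_apply, RatFunc.algebraMap_X]
      exact h
  ext x
  exact congrArg (fun F : RatFunc ℂ →+* A => F x) h1

/-- Substitution of a nonconstant `g` as an algebra endomorphism of `ℂ(z)`. -/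
noncomputable def compHom (g : RatFunc ℂ) (hg : Nonconst g) : RatFunc ℂ →ₐ[ℂ] RatFunc ℂ :=
  (ℂ⟮g⟯).val.comp (RatFunc.algEquivOfTranscendental g hg.transcendental).toAlgHom

theorem compHom_X (g : RatFunc ℂ) (hg : Nonconst g) : compHom g hg RatFunc.X = g := by
  simp [compHom]

theorem compHom_apply (f g : RatFunc ℂ) (hg : Nonconst g) : compHom g hg f = comp f g := by
  simp [compHom, RatFunc.algEquivOfTranscendental_apply, comp, RatFunc.eval,
    Polynomial.aeval_def, RatFunc.algebraMap_eq_C]

theorem comp_X (g : RatFunc ℂ) : comp RatFunc.X g = g := by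
  simp [comp]

theorem comp_C (c : ℂ) (g : RatFunc ℂ) : comp (RatFunc.C c) g = RatFunc.C c := by
  simp [comp]

theorem comp_add {g : RatFunc ℂ} (hg : Nonconst g) (a b : RatFunc ℂ) :
    comp (a + b) g = comp a g + comp b g := by
  simp only [← compHom_apply _ _ hg, map_add]

theorem comp_sub {g : RatFunc ℂ} (hg : Nonconst g) (a b : RatFunc ℂ) :
    comp (a - b) g = comp a g - comp b g := by
  simp only [← compHom_apply _ _ hg, map_sub]

theorem comp_mul {g : RatFunc ℂ} (hg : Nonconst g) (a b : RatFunc ℂ) :
    comp (a * b) g = comp a g * comp b g := by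
  simp only [← compHom_apply _ _ hg, map_mul]

theorem comp_div {g : RatFunc ℂ} (hg : Nonconst g) (a b : RatFunc ℂ) :
    comp (a / b) g = comp a g / comp b g := by
  simp only [← compHom_apply _ _ hg, map_div₀]

theorem comp_inv {g : RatFunc ℂ} (hg : Nonconst g) (a : RatFunc ℂ) :
    comp (a⁻¹) g = (comp a g)⁻¹ := by
  simp only [← compHom_apply _ _ hg, map_inv₀]

theorem comp_pow {g : RatFunc ℂ} (hg : Nonconst g) (a : RatFunc ℂ) (n : ℕ) :
    comp (a ^ n) g = (comp a g) ^ n := by
  simp only [← compHom_apply _ _ hg, map_pow]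

theorem comp_eq_zero_iff {g : RatFunc ℂ} (hg : Nonconst g) (a : RatFunc ℂ) :
    comp a g = 0 ↔ a = 0 := by
  simp only [← compHom_apply _ _ hg, map_eq_zero]

theorem comp_algebraMap {g : RatFunc ℂ} (hg : Nonconst g) (p : ℂ[X]) :
    comp (algebraMap ℂ[X] (RatFunc ℂ) p) g = aeval g p := by
  rw [← compHom_apply _ _ hg]
  induction p using Polynomial.induction_on' with
  | add p q hp hq => simp only [map_add, hp, hq]
  | monomial n a =>
    rw [RatFunc.algebraMap_monomial, map_mul, map_pow, compHom_X, compHom_apply, comp_C,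
      aeval_monomial, RatFunc.algebraMap_eq_C]

theorem nonconst_X : Nonconst (RatFunc.X : RatFunc ℂ) := by
  intro c h
  have := RatFunc.transcendental_X (K := ℂ)
  rw [h] at this
  exact this (isAlgebraic_algebraMap c)

theorem X_comp (f : RatFunc ℂ) : comp f RatFunc.X = f := by
  rw [← compHom_apply _ _ nonconst_X]
  have : compHom RatFunc.X nonconst_X = AlgHom.id ℂ _ := algHom_ext (by simp [compHom_X])
  rw [this]; rfl

theorem Nonconst.comp {f g : RatFunc ℂ} (hf : Nonconst f) (hg : Nonconst g) :
    Nonconst (comp f g) := by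
  intro c hc
  rw [← compHom_apply _ _ hg] at hc
  have : compHom g hg f = compHom g hg (RatFunc.C c) := by
    rw [hc, compHom_apply, comp_C]
  exact hf c ((compHom g hg).toRingHom.injective this)

theorem comp_assoc (f : RatFunc ℂ) {g h : RatFunc ℂ} (hg : Nonconst g) (hh : Nonconst h) :
    comp (comp f g) h = comp f (comp g h) := by
  rw [← compHom_apply _ _ hg, ← compHom_apply _ _ hh, ← compHom_apply _ _ (hg.comp hh)]
  have : (compHom h hh).comp (compHom g hg) = compHom (comp g h) (hg.comp hh) := by
    apply algHom_ext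
    simp [compHom_apply, comp_X]
  rw [← this]; rfl

theorem comp_right_cancel {f f' g : RatFunc ℂ} (hg : Nonconst g)
    (h : comp f g = comp f' g) : f = f' := by
  rw [← compHom_apply _ _ hg, ← compHom_apply _ _ hg] at h
  exact (compHom g hg).toRingHom.injective h

theorem finrank_adjoin (f : RatFunc ℂ) : Module.finrank ℂ⟮f⟯ (RatFunc ℂ) = deg f :=
  RatFunc.finrank_eq_max_natDegree f

theorem deg_eq_zero_iff {f : RatFunc ℂ} : deg f = 0 ↔ ∃ c, f = RatFunc.C c := by
  rw [RatFunc.eq_C_iff, deg, Nat.max_eq_zero_iff]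

theorem deg_pos_iff {f : RatFunc ℂ} : 0 < deg f ↔ Nonconst f := by
  rw [Nat.pos_iff_ne_zero, Ne, deg_eq_zero_iff, Nonconst]
  push Not
  rfl

theorem adjoin_comp (f g : RatFunc ℂ) (hg : Nonconst g) :
    ℂ⟮comp f g⟯ = (ℂ⟮f⟯).map (compHom g hg) := by
  rw [IntermediateField.adjoin_map, Set.image_singleton, compHom_apply]

theorem fieldRange_compHom (g : RatFunc ℂ) (hg : Nonconst g) :
    (compHom g hg).fieldRange = ℂ⟮g⟯ := by
  rw [AlgHom.fieldRange_eq_map, ← RatFunc.adjoin_X, IntermediateField.adjoin_map,
    Set.image_singleton, compHom_X]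

theorem mem_adjoin_iff {g : RatFunc ℂ} (hg : Nonconst g) (f : RatFunc ℂ) :
    f ∈ ℂ⟮g⟯ ↔ ∃ v, f = comp v g := by
  rw [← fieldRange_compHom g hg]
  constructor
  · rintro ⟨v, hv⟩
    exact ⟨v, by rw [← hv]; exact compHom_apply _ _ hg⟩
  · rintro ⟨v, hv⟩
    exact ⟨v, by rw [hv]; exact compHom_apply _ _ hg⟩

theorem deg_comp (f : RatFunc ℂ) {g : RatFunc ℂ} (hg : Nonconst g) :
    deg (comp f g) = deg f * deg g := by
  rw [← finrank_adjoin, ← finrank_adjoin f, ← finrank_adjoin g]
  have h1 : ℂ⟮comp f g⟯ ≤ ℂ⟮g⟯ := by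
    rw [adjoin_simple_le_iff, mem_adjoin_iff hg]
    exact ⟨f, rfl⟩
  rw [← IntermediateField.relfinrank_mul_finrank_top h1]
  congr 1
  rw [adjoin_comp f g hg, ← fieldRange_compHom g hg, AlgHom.fieldRange_eq_map,
    IntermediateField.relfinrank_map_map, IntermediateField.relfinrank_top_right]

theorem deg_X : deg RatFunc.X = 1 := by simp [deg]

/-- The type of nonconstant rational functions over `ℂ`. -/
@[ext]
structure RatMap : Type where
  /-- the underlying rational function -/
  val : RatFunc ℂ
  /-- it is not constant -/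
  nonconst : Nonconst val

/-- Nonconstant rational functions form a monoid under composition. -/
noncomputable instance : Monoid RatMap where
  mul f g := ⟨comp f.val g.val, Nonconst.comp f.nonconst g.nonconst⟩
  one := ⟨RatFunc.X, nonconst_X⟩
  mul_assoc f g h := RatMap.ext (comp_assoc f.val g.nonconst h.nonconst)
  one_mul f := RatMap.ext (comp_X f.val)
  mul_one f := RatMap.ext (X_comp f.val)

theorem RatMap.val_mul (f g : RatMap) : (f * g).val = comp f.val g.val := rfl
theorem RatMap.val_one : (1 : RatMap).val = RatFunc.X := rfl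

/-- The degree of a nonconstant rational function. -/
noncomputable def RatMap.degree (f : RatMap) : ℕ := deg f.val

theorem RatMap.degree_mul (f g : RatMap) : (f * g).degree = f.degree * g.degree :=
  deg_comp f.val g.nonconst

theorem RatMap.degree_one : (1 : RatMap).degree = 1 := deg_X

theorem RatMap.degree_pos (f : RatMap) : 0 < f.degree := deg_pos_iff.2 f.nonconst

theorem RatMap.mul_right_cancel' {f f' g : RatMap} (h : f * g = f' * g) : f = f' :=
  RatMap.ext (comp_right_cancel g.nonconst (congrArg RatMap.val h))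

theorem RatMap.degree_pow (f : RatMap) (n : ℕ) : (f ^ n).degree = f.degree ^ n := by
  induction n with
  | zero => simp [RatMap.degree_one]
  | succ n ih => rw [pow_succ, RatMap.degree_mul, ih, pow_succ]

end Pool.Agent.Helper74_Centr
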