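import Pool.Agent.Helper74_Centr.Comp

/-!
# The group `G_P` of a rational function, and special rational functions
-/

namespace Pool.Agent.Helper74_Centr

open Polynomial Topology

theorem commute_pow {P : RatMap} (Q : Submonoid.centralizer ({P} : Set RatMap)) (n : ℕ) :
    (Q : RatMap) * P ^ n = P ^ n * (Q : RatMap) := by
  have h : Commute (Q : RatMap) P := ((Submonoid.mem_centralizer_iff.1 Q.2) P rfl).symm
  exact (h.pow_right n).eq

theorem mul_mul_pow {P : RatMap} (Q Q' : Submonoid.centralizer ({P} : Set RatMap)) (a c : ℕ) :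
    (Q : RatMap) * (Q' : RatMap) * P ^ (a + c) = (Q : RatMap) * P ^ a * ((Q' : RatMap) * P ^ c) := by
  rw [mul_assoc (Q : RatMap) (P ^ a), ← mul_assoc (P ^ a), ← commute_pow Q' a, pow_add,
    mul_assoc, mul_assoc, ← mul_assoc]

/-- The relation `Q₁ ∼_P Q₂` (that is, `Q₁ ∘ P^{l₁} = Q₂ ∘ P^{l₂}` for some `l₁, l₂ ≥ 0`) on the
semigroup `C(P)` of the nonconstant rational functions commuting with `P`; it is a congruence. -/
def simCon (P : RatMap) : Con (Submonoid.centralizer ({P} : Set RatMap)) where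
  r Q₁ Q₂ := ∃ l₁ l₂ : ℕ, (Q₁ : RatMap) * P ^ l₁ = (Q₂ : RatMap) * P ^ l₂
  iseqv := {
    refl := fun _ => ⟨0, 0, rfl⟩
    symm := fun ⟨l₁, l₂, h⟩ => ⟨l₂, l₁, h.symm⟩
    trans := by
      rintro Q₁ Q₂ Q₃ ⟨a, b, h1⟩ ⟨c, d, h2⟩
      refine ⟨a + c, b + d, ?_⟩
      calc (Q₁ : RatMap) * P ^ (a + c) = (Q₁ : RatMap) * P ^ a * P ^ c := by
            rw [pow_add, mul_assoc]
        _ = (Q₂ : RatMap) * P ^ c * P ^ b := by
            rw [h1, mul_assoc, mul_assoc, ← pow_add, ← pow_add, add_comm]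
        _ = (Q₃ : RatMap) * P ^ (b + d) := by
            rw [h2, mul_assoc, ← pow_add, add_comm] }
  mul' := by
    rintro Q₁ Q₂ Q₃ Q₄ ⟨a, b, h1⟩ ⟨c, d, h2⟩
    refine ⟨a + c, b + d, ?_⟩
    show (Q₁ : RatMap) * (Q₃ : RatMap) * P ^ (a + c) = (Q₂ : RatMap) * (Q₄ : RatMap) * P ^ (b + d)
    rw [mul_mul_pow, mul_mul_pow, h1, h2]

/-- The group `G_P = C(P) / ∼_P`, with the product induced by composition. -/
abbrev GP (P : RatMap) : Type := (simCon P).Quotient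

/-- `P` is a **Lattès map**: `P ∘ Θ = Θ ∘ L` for a complex torus `E = ℂ/Λ`, where `Λ` is the
lattice generated by `ω₁` and `ω₂`, an affine self-map `L` of `E`, induced by `z ↦ a z + b` with
`aΛ ⊆ Λ`, and a nonconstant holomorphic map `Θ : E → ℂℙ¹`. Such a map `Θ` is the same thing as a
nonconstant elliptic function: a meromorphic function on `ℂ` with the periods `ω₁` and `ω₂`. The
identity `P ∘ Θ = Θ ∘ L` of meromorphic functions is expressed as the equality of the values at all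
points outside a closed discrete set. -/
def IsLattes (P : RatFunc ℂ) : Prop :=
  ∃ (ω₁ ω₂ a b : ℂ) (Θ : ℂ → ℂ), LinearIndependent ℝ ![ω₁, ω₂] ∧
    a * ω₁ ∈ AddSubgroup.closure {ω₁, ω₂} ∧ a * ω₂ ∈ AddSubgroup.closure {ω₁, ω₂} ∧
    (∀ z, MeromorphicAt Θ z) ∧ (∀ z, Θ (z + ω₁) = Θ z) ∧ (∀ z, Θ (z + ω₂) = Θ z) ∧
    (¬ ∃ k : ℂ, Θ =ᶠ[Filter.codiscrete ℂ] fun _ => k) ∧
    (fun z => RatFunc.eval (RingHom.id ℂ) (Θ z) P) =ᶠ[Filter.codiscrete ℂ] fun z => Θ (a * z + b)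

/-- `P` is **special**: it is a Lattès map, or it is conjugate by a Möbius transformation (an
invertible element `μ` of the monoid of nonconstant rational functions) to one of `z ^ n`,
`z ^ (-n)`, `T_n`, `-T_n` with `n ≥ 2`. -/
def IsSpecial (P : RatMap) : Prop :=
  IsLattes P.val ∨ ∃ (μ : RatMapˣ) (n : ℕ), 2 ≤ n ∧
    (((μ : RatMap) * P * (↑μ⁻¹ : RatMap)).val = RatFunc.X ^ n ∨
      ((μ : RatMap) * P * (↑μ⁻¹ : RatMap)).val = (RatFunc.X ^ n)⁻¹ ∨
      ((μ : RatMap) * P * (↑μ⁻¹ : RatMap)).val =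
        algebraMap ℂ[X] (RatFunc ℂ) (Chebyshev.T ℂ n) ∨
      ((μ : RatMap) * P * (↑μ⁻¹ : RatMap)).val =
        -algebraMap ℂ[X] (RatFunc ℂ) (Chebyshev.T ℂ n))

end Pool.Agent.Helper74_Centr
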