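import Mathlib

/-!
# Derivations of `ℂ`
-/

namespace Pool.Agent.Helper74_Centr

open Cardinal

open scoped TensorProduct

section extend

/-- Extension of derivations along a formally étale algebra. -/
theorem exists_extend {R S T : Type*} [CommRing R] [CommRing S] [CommRing T] [Algebra R S]
    [Algebra R T] [Algebra S T] [IsScalarTower R S T] [Algebra.FormallyEtale S T]
    (d : Derivation R S T) : ∃ D : Derivation R T T, ∀ s, D (algebraMap S T s) = d s := by
  let l : T ⊗[S] Ω[S⁄R] →ₗ[T] T := LinearMap.liftBaseChange T d.liftKaehlerDifferential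
  let f : Ω[T⁄R] →ₗ[T] T :=
    l.comp (KaehlerDifferential.tensorKaehlerEquivOfFormallyEtale R S T).symm.toLinearMap
  refine ⟨f.compDer (KaehlerDifferential.D R T), fun s => ?_⟩
  show l ((KaehlerDifferential.tensorKaehlerEquivOfFormallyEtale R S T).symm
    (KaehlerDifferential.D R T (algebraMap S T s))) = d s
  rw [KaehlerDifferential.tensorKaehlerEquivOfFormallyEtale_symm_D_algebraMap]
  simp [l]

variable {K : Type*} [Field K] [Algebra K ℂ] {ι : Type*} {x : ι → ℂ}

open scoped IntermediateField.algebraAdjoinAdjoin in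
/-- For a transcendence basis, there are the dual derivations. -/
theorem exists_derivation [CharZero K] (hx : IsTranscendenceBasis K x) [DecidableEq ι] (i : ι) :
    ∃ D : Derivation K ℂ ℂ, ∀ j, D (x j) = if j = i then 1 else 0 := by
  let S := Algebra.adjoin K (Set.range x)
  let K1 := IntermediateField.adjoin K (Set.range x)
  let e : MvPolynomial ι K ≃ₐ[K] S := hx.1.aevalEquiv
  have he : ∀ s : S, (MvPolynomial.aeval x (e.symm s) : ℂ) = s := by
    intro s
    obtain ⟨p, rfl⟩ := e.surjective s
    rw [AlgEquiv.symm_apply_apply]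
    exact (hx.1.algebraMap_aevalEquiv p).symm
  have : Algebra.IsAlgebraic K1 ℂ := hx.isAlgebraic_field
  have h1 : Algebra.FormallyEtale K1 ℂ := Algebra.FormallyEtale.of_isSeparable _ _
  have h2 : Algebra.FormallyEtale S K1 :=
    Algebra.FormallyEtale.of_isLocalization (nonZeroDivisors S)
  have h3 : Algebra.FormallyEtale S ℂ := Algebra.FormallyEtale.comp S K1 ℂ
  let d₀ : S →ₗ[K] ℂ := ((MvPolynomial.aeval x).toLinearMap.comp
    (MvPolynomial.pderiv i).toLinearMap).comp e.symm.toLinearMap
  have hd₀ : ∀ s, d₀ s = MvPolynomial.aeval x (MvPolynomial.pderiv i (e.symm s)) := fun s => rfl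
  let d : Derivation K S ℂ := Derivation.mk' d₀ (by
    intro a b
    rw [hd₀, hd₀, hd₀, map_mul, Derivation.leibniz, map_add, smul_eq_mul, smul_eq_mul, map_mul,
      map_mul, he, he]
    rfl)
  obtain ⟨D, hD⟩ := exists_extend d
  refine ⟨D, fun j => ?_⟩
  have hxj : algebraMap S ℂ (e (MvPolynomial.X j)) = x j := by
    have := hx.1.algebraMap_aevalEquiv (MvPolynomial.X j)
    rw [MvPolynomial.aeval_X] at this
    exact this
  rw [← hxj, hD]
  show d₀ _ = _
  rw [hd₀, AlgEquiv.symm_apply_apply, MvPolynomial.pderiv_X]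
  by_cases h : j = i
  · subst h; simp
  · simp [h]

end extend

/-- Generic parameters with dual derivations killing a given countable set. -/
theorem exists_generic (S : Set ℂ) (hS : S.Countable) (n : ℕ) :
    ∃ (τ : Fin n → ℂ) (D : Fin n → Derivation ℤ ℂ ℂ),
      (∀ i j, D i (τ j) = if j = i then 1 else 0) ∧ ∀ i, ∀ s ∈ S, D i s = 0 := by
  classical
  let K := Subfield.closure S
  obtain ⟨ι, x, hx⟩ := exists_isTranscendenceBasis' K ℂ
  have hK : #K ≤ ℵ₀ := by
    refine (Subfield.cardinalMk_closure_le_max S).trans ?_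
    rw [max_eq_right]
    exact Cardinal.mk_le_aleph0_iff.2 hS
  have hC : ℵ₀ < #ℂ := by
    rw [Cardinal.mk_complex]; exact Cardinal.aleph0_lt_continuum
  have hcard := IsAlgClosed.cardinal_eq_cardinal_transcendence_basis_of_aleph0_lt x hx hK hC
  have hinf : Infinite ι := by
    rw [Cardinal.infinite_iff]
    have h1 : ℵ₀ < Cardinal.lift #ι := by
      rw [← hcard]
      simpa using hC
    simpa using h1.le
  obtain ⟨f, hf⟩ : ∃ f : Fin n → ι, Function.Injective f :=
    ⟨fun i => (Infinite.natEmbedding ι) i, (Infinite.natEmbedding ι).injective.comp Fin.val_injective⟩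
  choose D hD using fun i => exists_derivation hx (f i)
  refine ⟨x ∘ f, fun i => (D i).restrictScalars ℤ, ?_, ?_⟩
  · intro i j
    show D i (x (f j)) = _
    rw [hD]
    simp [hf.eq_iff]
  · intro i s hs
    have hs' : s ∈ K := Subfield.subset_closure hs
    exact (D i).map_algebraMap (⟨s, hs'⟩ : K)

end Pool.Agent.Helper74_Centr
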