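import Pool.Agent.Helper74_Centr.Indec

/-!
# Symmetries of the generic member of the family
-/

namespace Pool.Agent.Helper74_Centr

open Polynomial IntermediateField

theorem quad_zero {A B C s₁ s₂ s₃ : ℂ} (h12 : s₁ ≠ s₂) (h13 : s₁ ≠ s₃) (h23 : s₂ ≠ s₃)
    (h1 : A + B * s₁ + C * s₁ ^ 2 = 0) (h2 : A + B * s₂ + C * s₂ ^ 2 = 0)
    (h3 : A + B * s₃ + C * s₃ ^ 2 = 0) : A = 0 ∧ B = 0 ∧ C = 0 := by
  have e1 : B + C * (s₁ + s₂) = 0 := by
    apply mul_left_cancel₀ (sub_ne_zero.2 h12)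
    linear_combination h1 - h2
  have e2 : B + C * (s₁ + s₃) = 0 := by
    apply mul_left_cancel₀ (sub_ne_zero.2 h13)
    linear_combination h1 - h3
  have hC : C = 0 := by
    apply mul_left_cancel₀ (sub_ne_zero.2 h23)
    linear_combination e1 - e2
  subst hC
  have hB : B = 0 := by linear_combination e1
  subst hB
  exact ⟨by linear_combination h1, rfl, rfl⟩

/-- The derivation argument for Möbius transformations. -/
theorem mobius_D (D : Derivation ℤ ℂ ℂ) {α β γ δ : ℂ} (hdet : α * δ - β * γ ≠ 0)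
    {s₀ s₁ s₂ s₃ t₀ t₁ t₂ t₃ : ℂ}
    (h0 : t₀ * (γ * s₀ + δ) = α * s₀ + β) (h1 : t₁ * (γ * s₁ + δ) = α * s₁ + β)
    (h2 : t₂ * (γ * s₂ + δ) = α * s₂ + β) (h3 : t₃ * (γ * s₃ + δ) = α * s₃ + β)
    (h12 : s₁ ≠ s₂) (h13 : s₁ ≠ s₃) (h23 : s₂ ≠ s₃)
    (Ds₁ : D s₁ = 0) (Ds₂ : D s₂ = 0) (Ds₃ : D s₃ = 0)
    (Dt₀ : D t₀ = 0) (Dt₁ : D t₁ = 0) (Dt₂ : D t₂ = 0) (Dt₃ : D t₃ = 0) : D s₀ = 0 := by
  have key : ∀ s t : ℂ, t * (γ * s + δ) = α * s + β → D t = 0 →
      (β * D δ - D β * δ) + (α * D δ + β * D γ - D α * δ - D β * γ) * s +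
        (α * D γ - D α * γ) * s ^ 2 + (γ * β - α * δ) * D s = 0 := by
    intro s t h ht
    have e := congrArg D h
    simp only [Derivation.leibniz, map_add, smul_eq_mul, ht, mul_zero, add_zero] at e
    linear_combination (γ * s + δ) * e - (s * D γ + D δ + γ * D s) * h
  have k1 := key s₁ t₁ h1 Dt₁
  have k2 := key s₂ t₂ h2 Dt₂
  have k3 := key s₃ t₃ h3 Dt₃
  rw [Ds₁, mul_zero, add_zero] at k1
  rw [Ds₂, mul_zero, add_zero] at k2
  rw [Ds₃, mul_zero, add_zero] at k3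
  obtain ⟨q1, q2, q3⟩ := quad_zero h12 h13 h23 k1 k2 k3
  have k0 := key s₀ t₀ h0 Dt₀
  rw [q1, q2, q3] at k0
  have : (γ * β - α * δ) * D s₀ = 0 := by linear_combination k0
  rcases mul_eq_zero.1 this with h | h
  · exfalso; apply hdet; linear_combination -h
  · exact h

namespace GenData

variable {n : ℕ} {G : GenData n}

theorem Df_cv_poly {c : ℂ} (hc : c ∈ G.Crit) {P : ℂ[X]} (hP : P.natDegree ≤ n) :
    G.Df (fun i => P.coeff i) (G.cv c) = G.Ev c * P.eval (G.wv c) := by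
  rw [Df_cv hc, eval_eq_sum_range' (Nat.lt_succ_of_le hP), Finset.sum_range]

/-- The value of the Möbius transformation of a matrix. -/
noncomputable def mv (M : Matrix (Fin 2) (Fin 2) ℂ) (c : ℂ) : ℂ :=
  (M 0 0 * c + M 0 1) / (M 1 0 * c + M 1 1)

theorem mv_injective {M : Matrix (Fin 2) (Fin 2) ℂ} (hM : M.det ≠ 0) {c c' : ℂ}
    (hc : M 1 0 * c + M 1 1 ≠ 0) (hc' : M 1 0 * c' + M 1 1 ≠ 0) (h : mv M c = mv M c') :
    c = c' := by
  rw [mv, mv, div_eq_div_iff hc hc'] at h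
  rw [Matrix.det_fin_two] at hM
  apply mul_left_cancel₀ hM
  linear_combination h

open Classical in
/-- The good critical points. -/
noncomputable def Good (G : GenData n) (M M' : Matrix (Fin 2) (Fin 2) ℂ) : Finset ℂ :=
  G.Crit.filter (fun c => M 1 0 * c + M 1 1 ≠ 0 ∧ M' 1 0 * G.cv c + M' 1 1 ≠ 0 ∧
    mv M c ∉ G.LRoots)

open Classical in
theorem mem_Good {M M' : Matrix (Fin 2) (Fin 2) ℂ} {c : ℂ} : c ∈ G.Good M M' ↔
    c ∈ G.Crit ∧ M 1 0 * c + M 1 1 ≠ 0 ∧ M' 1 0 * G.cv c + M' 1 1 ≠ 0 ∧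
    mv M c ∉ G.LRoots := by
  rw [Good, Finset.mem_filter]

theorem lin_unique {M : Matrix (Fin 2) (Fin 2) ℂ} (hM : M.det ≠ 0) {x x' : ℂ}
    (h : M 1 0 * x + M 1 1 = 0) (h' : M 1 0 * x' + M 1 1 = 0) : x = x' := by
  rw [Matrix.det_fin_two] at hM
  have h1 : M 1 0 * (x - x') = 0 := by linear_combination h - h'
  rcases mul_eq_zero.1 h1 with h2 | h2
  · exfalso
    rw [h2, zero_mul, zero_add] at h
    apply hM
    rw [h2, h]; ring
  · exact sub_eq_zero.1 h2

theorem card_Good (hinj : ∀ c ∈ G.Crit, ∀ c' ∈ G.Crit, G.cv c = G.cv c' → c = c')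
    {M M' : Matrix (Fin 2) (Fin 2) ℂ} (hM : M.det ≠ 0) (hM' : M'.det ≠ 0) :
    G.Crit.card ≤ (G.Good M M').card + (2 + (wronskian G.a₁ G.b₁).natDegree) := by
  classical
  set B₁ := G.Crit.filter (fun c => M 1 0 * c + M 1 1 = 0) with hB₁
  set B₂ := G.Crit.filter (fun c => M' 1 0 * G.cv c + M' 1 1 = 0) with hB₂
  set B₃ := G.Crit.filter (fun c => M 1 0 * c + M 1 1 ≠ 0 ∧ mv M c ∈ G.LRoots) with hB₃
  have hsub : G.Crit ⊆ G.Good M M' ∪ (B₁ ∪ (B₂ ∪ B₃)) := by
    intro c hc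
    simp only [Finset.mem_union, mem_Good, hB₁, hB₂, hB₃, Finset.mem_filter]
    by_cases h1 : M 1 0 * c + M 1 1 = 0
    · exact Or.inr (Or.inl ⟨hc, h1⟩)
    · by_cases h2 : M' 1 0 * G.cv c + M' 1 1 = 0
      · exact Or.inr (Or.inr (Or.inl ⟨hc, h2⟩))
      · by_cases h3 : mv M c ∈ G.LRoots
        · exact Or.inr (Or.inr (Or.inr ⟨hc, h1, h3⟩))
        · exact Or.inl ⟨hc, h1, h2, h3⟩
  have h1 : B₁.card ≤ 1 := by
    rw [Finset.card_le_one]
    intro c hc c' hc'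
    rw [hB₁, Finset.mem_filter] at hc hc'
    exact lin_unique hM hc.2 hc'.2
  have h2 : B₂.card ≤ 1 := by
    rw [Finset.card_le_one]
    intro c hc c' hc'
    rw [hB₂, Finset.mem_filter] at hc hc'
    exact hinj c hc.1 c' hc'.1 (lin_unique hM' hc.2 hc'.2)
  have h3 : B₃.card ≤ G.LRoots.card := by
    apply Finset.card_le_card_of_injOn (mv M)
    · intro c hc
      exact (Finset.mem_filter.1 (Finset.mem_coe.1 hc)).2.2
    · intro c hc c' hc' h
      exact mv_injective hM (Finset.mem_filter.1 (Finset.mem_coe.1 hc)).2.1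
        (Finset.mem_filter.1 (Finset.mem_coe.1 hc')).2.1 h
  have h4 := Finset.card_le_card hsub
  have h5 := Finset.card_union_le (G.Good M M') (B₁ ∪ (B₂ ∪ B₃))
  have h6 := Finset.card_union_le B₁ (B₂ ∪ B₃)
  have h7 := Finset.card_union_le B₂ B₃
  have h8 := card_LRoots (G := G)
  omega

/-- On good critical points, `ν` maps to critical points, and `v` relates the critical values. -/
theorem good_spec {M M' : Matrix (Fin 2) (Fin 2) ℂ} (hM : M.det ≠ 0) (hM' : M'.det ≠ 0)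
    (hcomm : comp G.R (mob M) = comp (mob M') G.R) {c : ℂ} (hc : c ∈ G.Good M M') :
    mv M c ∈ G.Crit ∧
      G.cv (mv M c) * (M' 1 0 * G.cv c + M' 1 1) = M' 0 0 * G.cv c + M' 0 1 := by
  rw [mem_Good] at hc
  obtain ⟨hcC, h1, h2, h3⟩ := hc
  have j1 : HasJet (comp (mob M') G.R) c (mv M' (G.cv c)) 0 := by
    refine ((hasJet_Crit hcC).comp R_nonconst (hasJet_mob h2)).congr rfl (by rw [mul_zero])
  rw [← hcomm] at j1
  have j2 := hasJet_mob h1
  obtain ⟨e, he, he0⟩ := regular_of_comp (nonconst_mob hM) j2 j1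
  have he1 : e = 0 := by
    rcases mul_eq_zero.1 he0.symm with h | h
    · exact h
    · exfalso
      rw [div_eq_zero_iff] at h
      rcases h with h | h
      · exact hM h
      · exact pow_ne_zero 2 h1 h
  subst he1
  have he' : HasJet G.R (mv M c) (mv M' (G.cv c)) 0 := he
  rcases crit_or_LRoots he' with ⟨h4, h5⟩ | h4
  · refine ⟨h4, ?_⟩
    rw [← h5, mv, div_mul_cancel₀ _ h2]
  · exact absurd h4 h3

theorem card_fibre (x : ℂ) (S : Finset ℂ) (hS : S ⊆ G.Crit) (hx : ∀ c ∈ S, G.wv c = x) :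
    S.card ≤ max G.wn.natDegree G.wd.natDegree := by
  classical
  have hne : G.wn - C x * G.wd ≠ 0 := by
    intro h0
    rw [sub_eq_zero] at h0
    apply G.wne
    rw [h0, wronskian, derivative_C_mul]; ring
  have hdeg : (G.wn - C x * G.wd).natDegree ≤ max G.wn.natDegree G.wd.natDegree := by
    refine (natDegree_sub_le _ _).trans (max_le_max le_rfl (natDegree_C_mul_le _ _))
  refine le_trans (le_trans (Finset.card_le_card ?_)
    ((Multiset.toFinset_card_le (G.wn - C x * G.wd).roots).trans (card_roots' _))) hdeg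
  intro c hc
  rw [Multiset.mem_toFinset, mem_roots hne, IsRoot.def, eval_sub, eval_mul, eval_C]
  have h1 := mem_Crit.1 (hS hc)
  have hwd := eval_ne_zero lp_wd wd_ne h1.1
  have := hx c hc
  rw [wv, div_eq_iff hwd] at this
  rw [this, sub_self]

/-- **Symmetries**: `ν` preserves the values of `w` on the good critical points. -/
theorem wv_mv (hinj : ∀ c ∈ G.Crit, ∀ c' ∈ G.Crit, G.cv c = G.cv c' → c = c')
    {M M' : Matrix (Fin 2) (Fin 2) ℂ} (hM : M.det ≠ 0) (hM' : M'.det ≠ 0) (hn : 7 ≤ n)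
    (hcomm : comp G.R (mob M) = comp (mob M') G.R)
    (hcard : 2 * max G.wn.natDegree G.wd.natDegree + 3 ≤ (G.Good M M').card)
    {c₀ : ℂ} (hc₀ : c₀ ∈ G.Good M M') : G.wv (mv M c₀) = G.wv c₀ := by
  classical
  by_contra hne
  set N := max G.wn.natDegree G.wd.natDegree
  -- choose three other points
  set S := (G.Good M M').filter (fun c => G.wv c ≠ G.wv c₀ ∧ G.wv (mv M c) ≠ G.wv c₀) with hS
  have hScard : 3 ≤ S.card := by
    set B₁ := (G.Good M M').filter (fun c => G.wv c = G.wv c₀) with hB₁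
    set B₂ := (G.Good M M').filter (fun c => G.wv (mv M c) = G.wv c₀) with hB₂
    have hsub : G.Good M M' ⊆ S ∪ (B₁ ∪ B₂) := by
      intro c hc
      simp only [Finset.mem_union, hS, hB₁, hB₂, Finset.mem_filter]
      by_cases h1 : G.wv c = G.wv c₀
      · exact Or.inr (Or.inl ⟨hc, h1⟩)
      · by_cases h2 : G.wv (mv M c) = G.wv c₀
        · exact Or.inr (Or.inr ⟨hc, h2⟩)
        · exact Or.inl ⟨hc, h1, h2⟩
    have h1 : B₁.card ≤ N := by
      apply card_fibre (G.wv c₀)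
      · intro c hc
        exact (mem_Good.1 (Finset.mem_filter.1 hc).1).1
      · intro c hc
        exact (Finset.mem_filter.1 hc).2
    have h2 : B₂.card ≤ N := by
      have e : B₂.card = (B₂.image (mv M)).card := by
        symm
        apply Finset.card_image_of_injOn
        intro c hc c' hc' h
        exact mv_injective hM (mem_Good.1 (Finset.mem_filter.1 (Finset.mem_coe.1 hc)).1).2.1
          (mem_Good.1 (Finset.mem_filter.1 (Finset.mem_coe.1 hc')).1).2.1 h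
      rw [e]
      apply card_fibre (G.wv c₀)
      · intro c hc
        obtain ⟨c', hc', rfl⟩ := Finset.mem_image.1 hc
        exact (good_spec hM hM' hcomm (Finset.mem_filter.1 hc').1).1
      · intro c hc
        obtain ⟨c', hc', rfl⟩ := Finset.mem_image.1 hc
        exact (Finset.mem_filter.1 hc').2
    have h3 := Finset.card_le_card hsub
    have h4 := Finset.card_union_le S (B₁ ∪ B₂)
    have h5 := Finset.card_union_le B₁ B₂
    omega
  obtain ⟨c₁, c₂, c₃, hc₁, hc₂, hc₃, h12, h13, h23⟩ :=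
    Finset.two_lt_card_iff.1 (by omega : 2 < S.card)
  rw [hS, Finset.mem_filter] at hc₁ hc₂ hc₃
  have g₀ := good_spec hM hM' hcomm hc₀
  have g₁ := good_spec hM hM' hcomm hc₁.1
  have g₂ := good_spec hM hM' hcomm hc₂.1
  have g₃ := good_spec hM hM' hcomm hc₃.1
  have m₀ := (mem_Good.1 hc₀).1
  have m₁ := (mem_Good.1 hc₁.1).1
  have m₂ := (mem_Good.1 hc₂.1).1
  have m₃ := (mem_Good.1 hc₃.1).1
  -- the interpolation polynomial
  set P : ℂ[X] := (X - C (G.wv (mv M c₀))) * ((X - C (G.wv c₁)) * (X - C (G.wv (mv M c₁)))) *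
    ((X - C (G.wv c₂)) * (X - C (G.wv (mv M c₂)))) *
    ((X - C (G.wv c₃)) * (X - C (G.wv (mv M c₃)))) with hP
  have hPdeg : P.natDegree ≤ n := by
    refine le_trans ?_ hn
    rw [hP]
    have h2 : ∀ a b : ℂ, ((X - C a) * (X - C b) : ℂ[X]).natDegree ≤ 2 := by
      intro a b
      refine (natDegree_mul_le).trans ?_
      rw [natDegree_X_sub_C, natDegree_X_sub_C]
    have h1 : ∀ a : ℂ, (X - C a : ℂ[X]).natDegree ≤ 1 := fun a => (natDegree_X_sub_C a).le
    refine (natDegree_mul_le).trans ?_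
    refine (Nat.add_le_add (natDegree_mul_le.trans (Nat.add_le_add
      (natDegree_mul_le.trans (Nat.add_le_add (h1 _) (h2 _ _))) (h2 _ _))) (h2 _ _)).trans ?_
    norm_num
  have hP0 : P.eval (G.wv c₀) ≠ 0 := by
    rw [hP]
    simp only [eval_mul, eval_sub, eval_X, eval_C]
    refine mul_ne_zero (mul_ne_zero (mul_ne_zero ?_ (mul_ne_zero ?_ ?_)) (mul_ne_zero ?_ ?_))
      (mul_ne_zero ?_ ?_)
    · exact sub_ne_zero.2 (Ne.symm hne)
    · exact sub_ne_zero.2 (Ne.symm hc₁.2.1)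
    · exact sub_ne_zero.2 (Ne.symm hc₁.2.2)
    · exact sub_ne_zero.2 (Ne.symm hc₂.2.1)
    · exact sub_ne_zero.2 (Ne.symm hc₂.2.2)
    · exact sub_ne_zero.2 (Ne.symm hc₃.2.1)
    · exact sub_ne_zero.2 (Ne.symm hc₃.2.2)
  have hz : ∀ c ∈ G.Crit, P.eval (G.wv c) = 0 → G.Df (fun i => P.coeff i) (G.cv c) = 0 := by
    intro c hc h
    rw [Df_cv_poly hc hPdeg, h, mul_zero]
  have hdet : M' 0 0 * M' 1 1 - M' 0 1 * M' 1 0 ≠ 0 := by
    rw [Matrix.det_fin_two] at hM'; exact hM'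
  have hfin := mobius_D (G.Df (fun i => P.coeff i)) hdet g₀.2 g₁.2 g₂.2 g₃.2
    (fun h => h12 (hinj _ m₁ _ m₂ h)) (fun h => h13 (hinj _ m₁ _ m₃ h))
    (fun h => h23 (hinj _ m₂ _ m₃ h))
    (hz _ m₁ (by rw [hP]; simp)) (hz _ m₂ (by rw [hP]; simp)) (hz _ m₃ (by rw [hP]; simp))
    (hz _ g₀.1 (by rw [hP]; simp)) (hz _ g₁.1 (by rw [hP]; simp)) (hz _ g₂.1 (by rw [hP]; simp))
    (hz _ g₃.1 (by rw [hP]; simp))
  rw [Df_cv_poly m₀ hPdeg] at hfin
  exact mul_ne_zero (Ev_ne m₀) hP0 hfin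

end GenData

end Pool.Agent.Helper74_Centr
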