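import Pool.Agent.Helper74_Centr.Base
import Pool.Agent.Helper74_Centr.Sym

/-!
# Equivariance of the generic member of the family
-/

namespace Pool.Agent.Helper74_Centr

open Polynomial IntermediateField Matrix
open GenData (mv)

/-- The data of an equivariant generic family. -/
structure EqData (T : Type*) [Group T] (n : ℕ) extends GenData n where
  ρ₁ : T →* RatMapˣ
  ρ₂ : T →* RatMapˣ
  inj₁ : Function.Injective ρ₁
  inj₂ : Function.Injective ρ₂
  A : T → GL (Fin 2) ℂ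
  B : T → GL (Fin 2) ℂ
  hA : ∀ t, mobUnits (A t) = ρ₁ t
  hB : ∀ t, mobUnits (B t) = ρ₂ t
  lA : ∀ t j k i, D i (A t j k) = 0
  lB : ∀ t j k i, D i (B t j k) = 0
  hw : ∀ t, sub ρ₁ t (algebraMap ℂ[X] (RatFunc ℂ) wn / algebraMap ℂ[X] (RatFunc ℂ) wd) =
    algebraMap ℂ[X] (RatFunc ℂ) wn / algebraMap ℂ[X] (RatFunc ℂ) wd
  hv : ∀ t, ∃ μ : RatFunc ℂ, μ ≠ 0 ∧
    EqVec ρ₁ B t μ (algebraMap ℂ[X] (RatFunc ℂ) a₀) (algebraMap ℂ[X] (RatFunc ℂ) b₀) ∧
    EqVec ρ₁ B t μ (algebraMap ℂ[X] (RatFunc ℂ) a₁) (algebraMap ℂ[X] (RatFunc ℂ) b₁)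
  hdeg : max wn.natDegree wd.natDegree = Nat.card T

namespace EqData

variable {T : Type*} [Group T] {n : ℕ} (G : EqData T n)

/-- The invariant function `w`. -/
noncomputable def w : RatFunc ℂ :=
  algebraMap ℂ[X] (RatFunc ℂ) G.wn / algebraMap ℂ[X] (RatFunc ℂ) G.wd

theorem wd_ne' : algebraMap ℂ[X] (RatFunc ℂ) G.wd ≠ 0 := by
  intro h0
  exact GenData.wd_ne (G := G.toGenData) (RatFunc.algebraMap_injective ℂ (by rw [h0, map_zero]))

theorem w_mul : G.w * algebraMap ℂ[X] (RatFunc ℂ) G.wd = algebraMap ℂ[X] (RatFunc ℂ) G.wn := by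
  rw [w, div_mul_cancel₀ _ G.wd_ne']

/-- The function `h`. -/
noncomputable def h : RatFunc ℂ :=
  algebraMap ℂ[X] (RatFunc ℂ) (G.F G.τ) / algebraMap ℂ[X] (RatFunc ℂ) G.wd ^ n

theorem h_eq : G.h = ∑ i : Fin (n + 1), RatFunc.C (G.τ i) * G.w ^ (i : ℕ) := by
  rw [h, GenData.F, map_sum, Finset.sum_div]
  apply Finset.sum_congr rfl
  intro i _
  have : algebraMap ℂ[X] (RatFunc ℂ) G.wd ^ n = algebraMap ℂ[X] (RatFunc ℂ) G.wd ^ (i : ℕ) *
      algebraMap ℂ[X] (RatFunc ℂ) G.wd ^ (n - i) := by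
    rw [← pow_add]; congr 1; have := i.2; omega
  have h1 := pow_ne_zero (n - i) G.wd_ne'
  have h2 := pow_ne_zero (i : ℕ) G.wd_ne'
  rw [this, map_mul, map_mul, map_pow, map_pow, RatFunc.algebraMap_C, w, div_pow]
  field_simp

theorem sub_h (t : T) : sub G.ρ₁ t G.h = G.h := by
  rw [h_eq, map_sum]
  apply Finset.sum_congr rfl
  intro i _
  rw [map_mul, map_pow, sub_C]
  congr 2
  exact G.hw t

theorem R_eq : G.R = (1 * algebraMap ℂ[X] (RatFunc ℂ) G.a₀ + G.h * algebraMap ℂ[X] (RatFunc ℂ) G.a₁) /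
    (1 * algebraMap ℂ[X] (RatFunc ℂ) G.b₀ + G.h * algebraMap ℂ[X] (RatFunc ℂ) G.b₁) := by
  have h1 := pow_ne_zero n G.wd_ne'
  rw [GenData.R, GenData.p, GenData.q, h]
  simp only [map_add, map_mul, map_pow]
  symm
  rw [← mul_div_mul_right _ _ h1]
  congr 1
  · field_simp
  · field_simp

theorem den_ne : (1 * algebraMap ℂ[X] (RatFunc ℂ) G.b₀ + G.h * algebraMap ℂ[X] (RatFunc ℂ) G.b₁) ≠ 0 := by
  intro h0
  have := R_eq G
  rw [h0, div_zero] at this
  exact GenData.R_nonconst (G := G.toGenData) 0 (by rw [this, map_zero])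

/-- **Equivariance.** -/
theorem comp_R (t : T) : comp G.R (G.ρ₁ t : RatMap).val = comp (G.ρ₂ t : RatMap).val G.R := by
  obtain ⟨μ, hμ, h0, h1⟩ := G.hv t
  have hc := h0.comb h1 (α := 1) (β := G.h) (map_one _) (G.sub_h t)
  rw [← G.hB t]
  show _ = comp (mob (G.B t)) G.R
  rw [comp_mob _ GenData.R_nonconst, ← sub_apply, R_eq, map_div₀, hc.1, hc.2]
  have hd := G.den_ne
  set N := 1 * algebraMap ℂ[X] (RatFunc ℂ) G.a₀ + G.h * algebraMap ℂ[X] (RatFunc ℂ) G.a₁
  set D := 1 * algebraMap ℂ[X] (RatFunc ℂ) G.b₀ + G.h * algebraMap ℂ[X] (RatFunc ℂ) G.b₁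
  rw [mul_div_mul_left _ _ hμ, ← mul_div_mul_right (RatFunc.C (G.B t 0 0) * (N / D) + _) _ hd]
  congr 1
  · field_simp
  · field_simp

section

variable {G}

/-- the constants of the family -/
theorem lpoly_lin {a b : ℂ} (ha : G.InL a) (hb : G.InL b) :
    G.LPoly (C a * X + C b) :=
  ((GenData.lpoly_C ha).mul GenData.lpoly_X).add (GenData.lpoly_C hb)

theorem den_mv_ne {M : GL (Fin 2) ℂ} (lM : ∀ j k, G.InL (M j k)) {c : ℂ} (hc : ¬ G.InL c) :
    M 1 0 * c + M 1 1 ≠ 0 := by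
  have h1 := GenData.eval_ne_zero (lpoly_lin (lM 1 0) (lM 1 1))
    (linear_ne_zero (Matrix.GeneralLinearGroup.det_ne_zero M)) hc
  simpa using h1

theorem mv_eq_imp {M N : GL (Fin 2) ℂ} (lM : ∀ j k, G.InL (M j k)) (lN : ∀ j k, G.InL (N j k))
    {c : ℂ} (hc : ¬ G.InL c) (h : mv M c = mv N c) : mobUnits M = mobUnits N := by
  have hM := den_mv_ne lM hc
  have hN := den_mv_ne lN hc
  rw [mv, mv, div_eq_div_iff hM hN] at h
  set P : ℂ[X] := (C (M 0 0) * X + C (M 0 1)) * (C (N 1 0) * X + C (N 1 1)) -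
    (C (N 0 0) * X + C (N 0 1)) * (C (M 1 0) * X + C (M 1 1)) with hP
  have hLP : G.LPoly P := ((lpoly_lin (lM 0 0) (lM 0 1)).mul (lpoly_lin (lN 1 0) (lN 1 1))).sub
    ((lpoly_lin (lN 0 0) (lN 0 1)).mul (lpoly_lin (lM 1 0) (lM 1 1)))
  have hP0 : P = 0 := by
    by_contra hne
    apply GenData.eval_ne_zero hLP hne hc
    rw [hP]
    simp only [eval_sub, eval_mul, eval_add, eval_C, eval_X]
    linear_combination h
  apply Units.ext
  apply RatMap.ext
  rw [mobUnits_val, mobUnits_val]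
  unfold mob
  have dM := det_ne_of_den_zero (Matrix.GeneralLinearGroup.det_ne_zero M)
  have dN := det_ne_of_den_zero (Matrix.GeneralLinearGroup.det_ne_zero N)
  rw [div_eq_div_iff dM dN]
  have h2 := congrArg (algebraMap ℂ[X] (RatFunc ℂ)) hP0
  rw [hP] at h2
  simp only [map_sub, map_mul, map_add, RatFunc.algebraMap_C, RatFunc.algebraMap_X, map_zero] at h2
  linear_combination h2

theorem mv_not_inL {M : GL (Fin 2) ℂ} (lM : ∀ j k, G.InL (M j k)) {c : ℂ} (hc : ¬ G.InL c) :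
    ¬ G.InL (mv M c) := by
  intro hy
  have hM := den_mv_ne lM hc
  set y := mv M c with hydef
  have hdet := Matrix.GeneralLinearGroup.det_ne_zero M
  rw [Matrix.det_fin_two] at hdet
  set P : ℂ[X] := C (M 0 0 - y * M 1 0) * X + C (M 0 1 - y * M 1 1) with hP
  have hLP : G.LPoly P := lpoly_lin ((lM 0 0).sub (hy.mul (lM 1 0))) ((lM 0 1).sub (hy.mul (lM 1 1)))
  have hev : P.eval c = 0 := by
    rw [hP]
    simp only [eval_add, eval_mul, eval_C, eval_X]
    have : y * (M 1 0 * c + M 1 1) = M 0 0 * c + M 0 1 := by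
      rw [hydef, mv, div_mul_cancel₀ _ hM]
    linear_combination -this
  have hP0 : P = 0 := by
    by_contra hne
    exact GenData.eval_ne_zero hLP hne hc hev
  have h1 := congrArg (fun p => Polynomial.coeff p 1) hP0
  have h0 := congrArg (fun p => Polynomial.coeff p 0) hP0
  simp [hP] at h1 h0
  apply hdet
  linear_combination M 1 1 * h1 - M 1 0 * h0

theorem wv_orbit (t : T) {c : ℂ} (hc : ¬ G.InL c) : G.wv (mv (G.A t) c) = G.wv c := by
  have lA : ∀ j k, G.InL (G.A t j k) := fun j k i => G.lA t j k i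
  have hy := mv_not_inL lA hc
  have h1 : HasJet G.w (mv (G.A t) c) (G.wv (mv (G.A t) c)) _ :=
    hasJet_of_eq G.w_mul (GenData.eval_ne_zero GenData.lp_wd GenData.wd_ne hy)
  have h2 : HasJet G.w c (G.wv c) _ :=
    hasJet_of_eq G.w_mul (GenData.eval_ne_zero GenData.lp_wd GenData.wd_ne hc)
  have h3 := hasJet_mob (den_mv_ne lA hc)
  have h4 := h3.comp (nonconst_mob (Matrix.GeneralLinearGroup.det_ne_zero _)) h1
  have h5 : comp G.w (mob (G.A t)) = G.w := by
    have := G.hw t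
    rw [sub_apply, ← G.hA t, mobUnits_val] at this
    exact this
  rw [h5] at h4
  exact (h4.unique h2).1

theorem fibre [Finite T] {c c' : ℂ} (hc : ¬ G.InL c) (hc' : ¬ G.InL c') (h : G.wv c = G.wv c') :
    ∃ t, c' = mv (G.A t) c := by
  classical
  have := Fintype.ofFinite T
  set P : ℂ[X] := G.wn - C (G.wv c) * G.wd with hP
  have hne : P ≠ 0 := by
    intro h0
    rw [hP, sub_eq_zero] at h0
    apply G.wne
    rw [h0, wronskian, derivative_C_mul]; ring
  have hdeg : P.natDegree ≤ Fintype.card T := by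
    rw [← Nat.card_eq_fintype_card, ← G.hdeg]
    exact (natDegree_sub_le _ _).trans (max_le_max le_rfl (natDegree_C_mul_le _ _))
  have hroot : ∀ y, ¬ G.InL y → G.wv y = G.wv c → y ∈ P.roots.toFinset := by
    intro y hy hyc
    rw [Multiset.mem_toFinset, mem_roots hne, IsRoot.def, hP, eval_sub, eval_mul, eval_C]
    have hwd := GenData.eval_ne_zero GenData.lp_wd GenData.wd_ne hy
    rw [← hyc, GenData.wv, div_mul_cancel₀ _ hwd, sub_self]
  set O : Finset ℂ := Finset.univ.image (fun t => mv (G.A t) c) with hO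
  have hOcard : O.card = Fintype.card T := by
    rw [hO, Finset.card_image_of_injective, Finset.card_univ]
    intro t s hts
    apply G.inj₁
    rw [← G.hA, ← G.hA]
    exact mv_eq_imp (fun j k i => G.lA t j k i) (fun j k i => G.lA s j k i) hc hts
  have hsub : O ⊆ P.roots.toFinset := by
    intro y hy
    rw [hO, Finset.mem_image] at hy
    obtain ⟨t, -, rfl⟩ := hy
    exact hroot _ (mv_not_inL (fun j k i => G.lA t j k i) hc) (wv_orbit t hc)
  have heq : O = P.roots.toFinset := by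
    apply Finset.eq_of_subset_of_card_le hsub
    rw [hOcard]
    exact ((Multiset.toFinset_card_le _).trans (card_roots' _)).trans hdeg
  have h1 := hroot c' hc' h.symm
  rw [← heq, hO, Finset.mem_image] at h1
  obtain ⟨t, -, ht⟩ := h1
  exact ⟨t, ht.symm⟩

theorem mob_one_of {M : GL (Fin 2) ℂ} (h : mobUnits M = 1) (c : ℂ) : mv M c = c := by
  have h1 : mob M = RatFunc.X := congrArg (fun u : RatMapˣ => (u : RatMap).val) h
  have hdet := Matrix.GeneralLinearGroup.det_ne_zero M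
  obtain ⟨h2, h3, h4⟩ := mob_scalar h1 hdet
  rw [Matrix.det_fin_two] at hdet
  rw [mv, h2, h3, h4, zero_mul, zero_add, add_zero]
  have : M 1 1 ≠ 0 := by
    intro h0
    apply hdet
    rw [h4, h0, h3]; ring
  field_simp

/-- The critical values are distinct. -/
theorem cv_injOn [Finite T] : ∀ c ∈ G.Crit, ∀ c' ∈ G.Crit, G.cv c = G.cv c' → c = c' := by
  intro c hc c' hc' h
  have hw := GenData.wv_eq_of_cv_eq hc hc' h
  have hcL := (GenData.mem_Crit.1 hc).1
  obtain ⟨t, ht⟩ := fibre hcL (GenData.mem_Crit.1 hc').1 hw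
  have hB := G.comp_R t
  rw [← G.hA, ← G.hB, mobUnits_val, mobUnits_val] at hB
  have lA : ∀ j k, G.InL (G.A t j k) := fun j k i => G.lA t j k i
  have lB : ∀ j k, G.InL (G.B t j k) := fun j k i => G.lB t j k i
  have h1 := hasJet_mob (den_mv_ne lA hcL)
  have h2 := GenData.hasJet_Crit hc'
  rw [ht] at h2
  have h3 := h1.comp (nonconst_mob (Matrix.GeneralLinearGroup.det_ne_zero _)) h2
  rw [hB, ← ht, ← h] at h3
  have hcvL := GenData.cv_not_inL hc
  have h4 := (GenData.hasJet_Crit hc).comp GenData.R_nonconst (hasJet_mob (den_mv_ne lB hcvL))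
  have h5 := (h3.unique h4).1
  have l1 : ∀ j k, G.InL (G.B 1 j k) := fun j k i => G.lB 1 j k i
  have h6 : mobUnits (G.B t) = mobUnits (G.B 1) := by
    apply mv_eq_imp lB l1 hcvL
    rw [mob_one_of (M := G.B 1) (by rw [G.hB, map_one])]
    exact h5.symm
  rw [G.hB, G.hB] at h6
  have h7 := G.inj₂ h6
  rw [h7, mob_one_of (M := G.A 1) (by rw [G.hA, map_one])] at ht
  exact ht.symm

end

end EqData

end Pool.Agent.Helper74_Centr
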