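import Mathlib

/-!
# Ternary quadratic forms over `ℂ(w)` are isotropic
-/

namespace Pool.Agent.Helper74_Centr

open Polynomial

/-- Square roots modulo a squarefree polynomial. -/
theorem exists_sqrt_mod (α β : ℂ[X]) (hβ : Squarefree β) (hd : 0 < β.natDegree) :
    ∃ c : ℂ[X], c.natDegree < β.natDegree ∧ β ∣ c ^ 2 - α := by
  classical
  have hβ0 : β ≠ 0 := by rintro rfl; simp at hd
  have hsep : β.Separable := PerfectField.separable_iff_squarefree.2 hβ
  have hnodup : β.roots.Nodup := nodup_roots hsep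
  set s := β.roots.toFinset with hs
  have hcard : s.card = β.natDegree := by
    rw [hs, Multiset.toFinset_card_of_nodup hnodup,
      (IsAlgClosed.splits β).natDegree_eq_card_roots]
  choose sq hsq using fun z : ℂ => IsAlgClosed.exists_pow_nat_eq (α.eval z) (n := 2) (by norm_num)
  set c := Lagrange.interpolate s id (fun z => sq z) with hc
  have hinj : Set.InjOn (id : ℂ → ℂ) s := Set.injOn_id _
  have hcdeg : c.natDegree < β.natDegree := by
    have h1 : c.degree < s.card := Lagrange.degree_interpolate_lt _ hinj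
    rw [hcard] at h1
    by_cases hc0 : c = 0
    · rw [hc0, natDegree_zero]; exact hd
    · exact (natDegree_lt_iff_degree_lt hc0).2 h1
  refine ⟨c, hcdeg, ?_⟩
  have hroots : ∀ z ∈ β.roots, (c ^ 2 - α).eval z = 0 := by
    intro z hz
    have hz' : z ∈ s := Multiset.mem_toFinset.2 hz
    have h1 : c.eval z = sq z := Lagrange.eval_interpolate_at_node _ hinj hz'
    rw [eval_sub, eval_pow, h1, hsq, sub_self]
  by_cases h0 : c ^ 2 - α = 0
  · rw [h0]; exact dvd_zero _
  · have h1 : (β.roots.map (fun a => X - C a)).prod ∣ c ^ 2 - α := by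
      rw [Multiset.prod_X_sub_C_dvd_iff_le_roots h0]
      rw [Multiset.le_iff_subset hnodup]
      intro z hz
      rw [mem_roots h0]
      exact hroots z hz
    obtain ⟨k, hk⟩ := h1
    have h2 := (IsAlgClosed.splits β).eq_prod_roots
    have h3 : (C β.leadingCoeff * C (β.leadingCoeff)⁻¹ : ℂ[X]) = 1 := by
      rw [← C_mul, mul_inv_cancel₀ (leadingCoeff_ne_zero.2 hβ0), C_1]
    refine ⟨C (β.leadingCoeff)⁻¹ * k, ?_⟩
    rw [hk]
    generalize (Multiset.map (fun a => X - C a) β.roots).prod = M at h2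
    generalize C (β.leadingCoeff)⁻¹ = l' at h3 ⊢
    rw [h2]
    linear_combination (-M * k) * h3

theorem dvd_natDegree_lt {β γ δ : ℂ[X]} (h : γ = β * δ) (hδ : δ ≠ 0) (hβ : β ≠ 0)
    (hγ : γ.natDegree ≤ 2 * β.natDegree - 1) (hd : 0 < β.natDegree) :
    δ.natDegree < β.natDegree := by
  rw [h, natDegree_mul hβ hδ] at hγ
  omega

/-- **Legendre–Tsen.** For all `α, β ∈ ℂ[w]`, `z² = α x² + β y²` has a nontrivial solution. -/
theorem legendre : ∀ (k : ℕ) (α β : ℂ[X]), α.natDegree + β.natDegree ≤ k →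
    ∃ x y z : ℂ[X], ¬ (x = 0 ∧ y = 0 ∧ z = 0) ∧ z ^ 2 = α * x ^ 2 + β * y ^ 2 := by
  intro k
  induction k using Nat.strong_induction_on with
  | _ k ih =>
  -- the symmetric main case
  have main : ∀ α β : ℂ[X], α.natDegree + β.natDegree ≤ k → α.natDegree ≤ β.natDegree →
      ∃ x y z : ℂ[X], ¬ (x = 0 ∧ y = 0 ∧ z = 0) ∧ z ^ 2 = α * x ^ 2 + β * y ^ 2 := by
    intro α β hk hle
    by_cases hβ0 : β = 0
    · exact ⟨0, 1, 0, by simp, by rw [hβ0]; ring⟩
    by_cases hβd : β.natDegree = 0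
    · -- constant
      obtain ⟨b, rfl⟩ := natDegree_eq_zero.1 hβd
      obtain ⟨s, hs⟩ := IsAlgClosed.exists_pow_nat_eq b (n := 2) (by norm_num)
      exact ⟨0, 1, C s, by simp, by rw [← hs]; simp⟩
    have hβpos : 0 < β.natDegree := Nat.pos_of_ne_zero hβd
    by_cases hsq : Squarefree β
    · obtain ⟨c, hc1, β', hβ'⟩ := exists_sqrt_mod α β hsq hβpos
      by_cases hβ'0 : β' = 0
      · refine ⟨1, 0, c, by simp, ?_⟩
        rw [hβ'0, mul_zero, sub_eq_zero] at hβ'
        rw [hβ']; ring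
      · have hdeg : β'.natDegree < β.natDegree := by
          apply dvd_natDegree_lt hβ' hβ'0 hβ0 _ hβpos
          refine (natDegree_sub_le _ _).trans (max_le ?_ (by omega))
          refine natDegree_pow_le.trans (by omega)
        obtain ⟨x, y, z, hne, hxyz⟩ := ih (α.natDegree + β'.natDegree) (by omega) α β' le_rfl
        by_cases hy : y = 0
        · refine ⟨x, 0, z, ?_, ?_⟩
          · rintro ⟨h1, -, h3⟩
            exact hne ⟨h1, hy, h3⟩
          · rw [hxyz, hy]; ring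
        · refine ⟨c * x + z, β' * y, c * z + α * x, ?_, ?_⟩
          · rintro ⟨-, h2, -⟩
            exact mul_ne_zero hβ'0 hy h2
          · have e1 : c ^ 2 - α = β * β' := hβ'
            linear_combination (c ^ 2 - α) * hxyz + (β' * y ^ 2) * e1
    · -- not squarefree
      rw [Squarefree] at hsq
      push Not at hsq
      obtain ⟨π, ⟨β', hβ'⟩, hπ⟩ := hsq
      have hπ0 : π ≠ 0 := by
        rintro rfl; apply hβ0; rw [hβ']; ring
      have hβ'0 : β' ≠ 0 := by
        rintro rfl; apply hβ0; rw [hβ']; ring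
      have hπd : 0 < π.natDegree := by
        rw [Nat.pos_iff_ne_zero]
        intro h0
        obtain ⟨a, rfl⟩ := natDegree_eq_zero.1 h0
        apply hπ
        rw [isUnit_C]
        exact (show a ≠ 0 by rintro rfl; simp at hπ0).isUnit
      have hdeg : β.natDegree = π.natDegree + π.natDegree + β'.natDegree := by
        rw [hβ', natDegree_mul (mul_ne_zero hπ0 hπ0) hβ'0, natDegree_mul hπ0 hπ0]
      obtain ⟨x, y, z, hne, hxyz⟩ := ih (α.natDegree + β'.natDegree) (by omega) α β' le_rfl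
      refine ⟨π * x, y, π * z, ?_, ?_⟩
      · rintro ⟨h1, h2, h3⟩
        exact hne ⟨(mul_eq_zero.1 h1).resolve_left hπ0, h2, (mul_eq_zero.1 h3).resolve_left hπ0⟩
      · rw [hβ']
        linear_combination π ^ 2 * hxyz
  intro α β hk
  rcases le_total α.natDegree β.natDegree with h | h
  · exact main α β hk h
  · obtain ⟨x, y, z, hne, hxyz⟩ := main β α (by omega) h
    refine ⟨y, x, z, ?_, by rw [hxyz]; ring⟩
    rintro ⟨h1, h2, h3⟩
    exact hne ⟨h2, h1, h3⟩

/-- Over `ℂ(w)`: `z² = α x² + β y²` has a nontrivial solution. -/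
theorem legendre_ratFunc (α β : RatFunc ℂ) :
    ∃ x y z : RatFunc ℂ, ¬ (x = 0 ∧ y = 0 ∧ z = 0) ∧ z ^ 2 = α * x ^ 2 + β * y ^ 2 := by
  have hinj := RatFunc.algebraMap_injective ℂ
  have hd : ∀ f : RatFunc ℂ, algebraMap ℂ[X] (RatFunc ℂ) f.denom ≠ 0 := fun f h0 =>
    f.denom_ne_zero (hinj (by rw [h0, map_zero]))
  obtain ⟨x, y, z, hne, hxyz⟩ := legendre _ (α.num * α.denom) (β.num * β.denom) le_rfl
  refine ⟨algebraMap ℂ[X] (RatFunc ℂ) (α.denom * x), algebraMap ℂ[X] (RatFunc ℂ) (β.denom * y),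
    algebraMap ℂ[X] (RatFunc ℂ) z, ?_, ?_⟩
  · rintro ⟨h1, h2, h3⟩
    apply hne
    rw [map_mul, mul_eq_zero] at h1 h2
    refine ⟨hinj ?_, hinj ?_, hinj ?_⟩
    · rw [map_zero]; exact h1.resolve_left (hd α)
    · rw [map_zero]; exact h2.resolve_left (hd β)
    · rw [map_zero]; exact h3
  · have e := congrArg (algebraMap ℂ[X] (RatFunc ℂ)) hxyz
    simp only [map_add, map_mul, map_pow] at e ⊢
    have ha : α = algebraMap ℂ[X] (RatFunc ℂ) α.num / algebraMap ℂ[X] (RatFunc ℂ) α.denom :=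
      (RatFunc.num_div_denom α).symm
    have hb : β = algebraMap ℂ[X] (RatFunc ℂ) β.num / algebraMap ℂ[X] (RatFunc ℂ) β.denom :=
      (RatFunc.num_div_denom β).symm
    have ha' : α * algebraMap ℂ[X] (RatFunc ℂ) α.denom = algebraMap ℂ[X] (RatFunc ℂ) α.num := by
      conv_lhs => enter [1]; rw [ha]
      rw [div_mul_cancel₀ _ (hd α)]
    have hb' : β * algebraMap ℂ[X] (RatFunc ℂ) β.denom = algebraMap ℂ[X] (RatFunc ℂ) β.num := by
      conv_lhs => enter [1]; rw [hb]
      rw [div_mul_cancel₀ _ (hd β)]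
    rw [e, ← ha', ← hb']
    ring

/-- A field in which `z² = α x² + β y²` is always solvable has isotropic ternary forms. -/
theorem ternary_isotropic {k : Type*} [Field k] [CharZero k]
    (hk : ∀ α β : k, ∃ x y z : k, ¬ (x = 0 ∧ y = 0 ∧ z = 0) ∧ z ^ 2 = α * x ^ 2 + β * y ^ 2)
    (a b c d e f : k) : ∃ x y z : k, ¬ (x = 0 ∧ y = 0 ∧ z = 0) ∧
      a * x ^ 2 + b * y ^ 2 + c * z ^ 2 + d * (x * y) + e * (x * z) + f * (y * z) = 0 := by
  by_cases ha : a = 0
  · exact ⟨1, 0, 0, by simp, by rw [ha]; ring⟩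
  -- complete the square
  set b' := b - d ^ 2 / (4 * a) with hb'
  set c' := c - e ^ 2 / (4 * a) with hc'
  set f' := f - d * e / (2 * a) with hf'
  have key : ∀ X y z : k, a * (X - d / (2 * a) * y - e / (2 * a) * z) ^ 2 + b * y ^ 2 + c * z ^ 2 +
      d * ((X - d / (2 * a) * y - e / (2 * a) * z) * y) +
      e * ((X - d / (2 * a) * y - e / (2 * a) * z) * z) + f * (y * z) =
      a * X ^ 2 + b' * y ^ 2 + c' * z ^ 2 + f' * (y * z) := by
    intro X y z
    rw [hb', hc', hf']
    field_simp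
    ring
  by_cases hb0 : b' = 0
  · refine ⟨0 - d / (2 * a) * 1 - e / (2 * a) * 0, 1, 0, by simp, ?_⟩
    rw [key, hb0]; ring
  set c'' := c' - f' ^ 2 / (4 * b') with hc''
  have key2 : ∀ Y z : k, b' * (Y - f' / (2 * b') * z) ^ 2 + c' * z ^ 2 +
      f' * ((Y - f' / (2 * b') * z) * z) = b' * Y ^ 2 + c'' * z ^ 2 := by
    intro Y z
    rw [hc'']
    field_simp
    ring
  by_cases hc0 : c'' = 0
  · refine ⟨0 - d / (2 * a) * (0 - f' / (2 * b') * 1) - e / (2 * a) * 1, 0 - f' / (2 * b') * 1, 1,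
      by simp, ?_⟩
    rw [key]
    have := key2 0 1
    rw [hc0] at this
    linear_combination this
  obtain ⟨X, Y, z, hne, h⟩ := hk (-a / c'') (-b' / c'')
  refine ⟨X - d / (2 * a) * (Y - f' / (2 * b') * z) - e / (2 * a) * z, Y - f' / (2 * b') * z, z,
    ?_, ?_⟩
  · rintro ⟨h1, h2, h3⟩
    apply hne
    rw [h3] at h1 h2
    have h4 : Y = 0 := by simpa using h2
    rw [h4] at h1
    exact ⟨by simpa using h1, h4, h3⟩
  · rw [key]
    have h2 := key2 Y z
    have h3 : c'' * z ^ 2 = -a * X ^ 2 - b' * Y ^ 2 := by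
      rw [h]; field_simp; ring
    linear_combination h2 + h3

end Pool.Agent.Helper74_Centr
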