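import Pool.Agent.Helper74_Centr.Mobius
import Pool.Agent.Helper74_Centr.Tsen

/-!
# Equivariant rational functions
-/

namespace Pool.Agent.Helper74_Centr

open Polynomial IntermediateField Matrix

section

variable {T : Type*} [Group T] (ρ₁ : T →* RatMapˣ)

/-- The substitution `f ↦ f ∘ ρ₁(t)`. -/
noncomputable def sub (t : T) : RatFunc ℂ →ₐ[ℂ] RatFunc ℂ :=
  compHom (ρ₁ t : RatMap).val (ρ₁ t : RatMap).nonconst

theorem sub_apply (t : T) (f : RatFunc ℂ) : sub ρ₁ t f = comp f (ρ₁ t : RatMap).val :=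
  compHom_apply _ _ _

theorem sub_X (t : T) : sub ρ₁ t RatFunc.X = (ρ₁ t : RatMap).val := compHom_X _ _

theorem sub_C (t : T) (c : ℂ) : sub ρ₁ t (RatFunc.C c) = RatFunc.C c := by
  rw [sub_apply, comp_C]

theorem sub_mul (t s : T) (f : RatFunc ℂ) : sub ρ₁ (t * s) f = sub ρ₁ s (sub ρ₁ t f) := by
  rw [sub_apply, sub_apply, sub_apply,
    comp_assoc f (ρ₁ t : RatMap).nonconst (ρ₁ s : RatMap).nonconst, map_mul]
  rfl

theorem sub_one (f : RatFunc ℂ) : sub ρ₁ 1 f = f := by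
  rw [sub_apply, map_one]
  exact X_comp f

theorem sub_injective (hρ : Function.Injective ρ₁) {t s : T}
    (h : ∀ f, sub ρ₁ t f = sub ρ₁ s f) : t = s := by
  apply hρ
  apply Units.ext
  apply RatMap.ext
  have := h RatFunc.X
  rwa [sub_X, sub_X] at this

/-- Substitution as an automorphism of `ℂ(z)`. -/
noncomputable def subAut : T →* (RatFunc ℂ ≃ₐ[ℂ] RatFunc ℂ) where
  toFun t := AlgEquiv.ofAlgHom (sub ρ₁ t⁻¹) (sub ρ₁ t)
    (by ext1 f; show sub ρ₁ t⁻¹ (sub ρ₁ t f) = f; rw [← sub_mul, mul_inv_cancel, sub_one])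
    (by ext1 f; show sub ρ₁ t (sub ρ₁ t⁻¹ f) = f; rw [← sub_mul, inv_mul_cancel, sub_one])
  map_one' := by
    ext1 f
    show sub ρ₁ 1⁻¹ f = f
    rw [inv_one, sub_one]
  map_mul' t s := by
    ext1 f
    show sub ρ₁ (t * s)⁻¹ f = sub ρ₁ t⁻¹ (sub ρ₁ s⁻¹ f)
    rw [_root_.mul_inv_rev, sub_mul]

theorem subAut_apply (t : T) (f : RatFunc ℂ) : subAut ρ₁ t f = sub ρ₁ t⁻¹ f := rfl

/-- The field of invariants. -/
noncomputable def invField : IntermediateField ℂ (RatFunc ℂ) :=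
  IntermediateField.fixedField (subAut ρ₁).range

theorem mem_invField (f : RatFunc ℂ) : f ∈ invField ρ₁ ↔ ∀ t, sub ρ₁ t f = f := by
  rw [invField, IntermediateField.mem_fixedField_iff]
  constructor
  · intro h t
    have := h (subAut ρ₁ t⁻¹) ⟨t⁻¹, rfl⟩
    rwa [subAut_apply, inv_inv] at this
  · rintro h _ ⟨t, rfl⟩
    rw [subAut_apply]
    exact h _

theorem subAut_injective (hρ : Function.Injective ρ₁) : Function.Injective (subAut ρ₁) := by
  intro t s h
  have : t⁻¹ = s⁻¹ := by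
    apply sub_injective ρ₁ hρ
    intro f
    rw [← subAut_apply, ← subAut_apply, h]
  exact inv_injective this

theorem finrank_invField [Finite T] (hρ : Function.Injective ρ₁) :
    Module.finrank (invField ρ₁) (RatFunc ℂ) = Nat.card T := by
  have : Finite (subAut ρ₁).range := Finite.of_surjective (subAut ρ₁).rangeRestrict
    (subAut ρ₁).rangeRestrict_surjective
  have := Fintype.ofFinite (subAut ρ₁).range
  have h1 : Module.finrank (invField ρ₁) (RatFunc ℂ) = Fintype.card (subAut ρ₁).range :=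
    FixedPoints.finrank_eq_card (subAut ρ₁).range (RatFunc ℂ)
  rw [h1, ← Nat.card_eq_fintype_card]
  exact (Nat.card_congr (MonoidHom.ofInjective (subAut_injective ρ₁ hρ)).toEquiv).symm

theorem invField_ne_bot [Finite T] (hρ : Function.Injective ρ₁) : invField ρ₁ ≠ ⊥ := by
  intro h
  have h1 := finrank_invField ρ₁ hρ
  have h2 : 0 < Nat.card T := Nat.card_pos
  have h3 : FiniteDimensional (invField ρ₁) (RatFunc ℂ) :=
    Module.finite_of_finrank_pos (by omega)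
  rw [h] at h3
  have h4 : Algebra.IsAlgebraic (⊥ : IntermediateField ℂ (RatFunc ℂ)) (RatFunc ℂ) :=
    Algebra.IsAlgebraic.of_finite _ _
  have h5 : Algebra.IsAlgebraic ℂ (⊥ : IntermediateField ℂ (RatFunc ℂ)) := by
    constructor
    rintro ⟨x, hx⟩
    rw [IntermediateField.mem_bot] at hx
    obtain ⟨c, hc⟩ := hx
    have : (⟨x, by rw [IntermediateField.mem_bot]; exact ⟨c, hc⟩⟩ :
      (⊥ : IntermediateField ℂ (RatFunc ℂ))) = algebraMap ℂ _ c := Subtype.ext hc.symm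
    rw [this]
    exact isAlgebraic_algebraMap c
  have h6 : Algebra.IsAlgebraic ℂ (RatFunc ℂ) :=
    Algebra.IsAlgebraic.trans ℂ (⊥ : IntermediateField ℂ (RatFunc ℂ)) (RatFunc ℂ)
  exact RatFunc.transcendental_X (K := ℂ) (h6.isAlgebraic _)

/-- The invariant function `w`. -/
theorem exists_w [Finite T] (hρ : Function.Injective ρ₁) :
    ∃ w : RatFunc ℂ, Nonconst w ∧ invField ρ₁ = ℂ⟮w⟯ ∧ deg w = Nat.card T := by
  have hE := invField_ne_bot ρ₁ hρ
  refine ⟨RatFunc.Luroth.generator (invField ρ₁), fun c hc =>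
    RatFunc.Luroth.generator_ne_C hE ⟨c, hc⟩, RatFunc.Luroth.eq_adjoin_generator, ?_⟩
  rw [← finrank_invField ρ₁ hρ, ← finrank_adjoin, ← RatFunc.Luroth.eq_adjoin_generator]

theorem legendre_invField [Finite T] (hρ : Function.Injective ρ₁) (α β : invField ρ₁) :
    ∃ x y z : invField ρ₁, ¬ (x = 0 ∧ y = 0 ∧ z = 0) ∧ z ^ 2 = α * x ^ 2 + β * y ^ 2 := by
  let E : RatFunc ℂ ≃ₐ[ℂ] invField ρ₁ := RatFunc.Luroth.algEquiv (invField_ne_bot ρ₁ hρ)
  obtain ⟨x, y, z, hne, h⟩ := legendre_ratFunc (E.symm α) (E.symm β)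
  refine ⟨E x, E y, E z, ?_, ?_⟩
  · rintro ⟨h1, h2, h3⟩
    exact hne ⟨(map_eq_zero E).1 h1, (map_eq_zero E).1 h2, (map_eq_zero E).1 h3⟩
  · have := congrArg E h
    simpa using this

end

section twisted

variable {T : Type*} [Group T] (ρ₁ : T →* RatMapˣ) (B : T → GL (Fin 2) ℂ)

/-- The constant matrix `B t` over `ℂ(z)`. -/
noncomputable def BK (t : T) : GL (Fin 2) (RatFunc ℂ) :=
  Matrix.GeneralLinearGroup.map RatFunc.C (B t)

theorem BK_map (t s : T) : (BK B t).val.map (sub ρ₁ s) = (BK B t).val := by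
  ext i j
  rw [Matrix.map_apply]
  show sub ρ₁ s (RatFunc.C (B t i j)) = RatFunc.C (B t i j)
  rw [sub_C]

theorem BK_inv_map (t s : T) : (BK B t)⁻¹.val.map (sub ρ₁ s) = (BK B t)⁻¹.val := by
  have h : (BK B t)⁻¹ = Matrix.GeneralLinearGroup.map RatFunc.C (B t)⁻¹ := by
    rw [BK, ← map_inv]
  rw [h]
  ext i j
  rw [Matrix.map_apply]
  show sub ρ₁ s (RatFunc.C ((B t)⁻¹ i j)) = RatFunc.C ((B t)⁻¹ i j)
  rw [sub_C]

/-- The twisted action on matrices. -/
noncomputable def ac (t : T) (N : Matrix (Fin 2) (Fin 2) (RatFunc ℂ)) :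
    Matrix (Fin 2) (Fin 2) (RatFunc ℂ) :=
  (BK B t)⁻¹.val * N.map (sub ρ₁ t) * (BK B t).val

theorem ac_add (t : T) (N N' : Matrix (Fin 2) (Fin 2) (RatFunc ℂ)) :
    ac ρ₁ B t (N + N') = ac ρ₁ B t N + ac ρ₁ B t N' := by
  rw [ac, ac, ac, Matrix.map_add _ (map_add _), mul_add, add_mul]

theorem ac_smul (t : T) (x : RatFunc ℂ) (N : Matrix (Fin 2) (Fin 2) (RatFunc ℂ)) :
    ac ρ₁ B t (x • N) = sub ρ₁ t x • ac ρ₁ B t N := by
  rw [ac, ac, Matrix.map_smul' _ _ _ (map_mul _), Matrix.mul_smul, Matrix.smul_mul]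

theorem ac_sum (t : T) {ι : Type*} (s : Finset ι) (N : ι → Matrix (Fin 2) (Fin 2) (RatFunc ℂ)) :
    ac ρ₁ B t (∑ i ∈ s, N i) = ∑ i ∈ s, ac ρ₁ B t (N i) := by
  classical
  induction s using Finset.induction_on with
  | empty => simp [ac]
  | insert i s hi ih => rw [Finset.sum_insert hi, Finset.sum_insert hi, ac_add, ih]

/-- The matrices `B` represent a homomorphism to `PGL₂`. -/
def Proj : Prop := ∀ t s, ∃ u : ℂˣ, B t * B s * Matrix.GeneralLinearGroup.scalar (Fin 2) u = B (t * s)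

variable {B}

theorem conj_scalar {K : Type*} [Field K] (g g' : GL (Fin 2) K) (u : Kˣ)
    (h : g * Matrix.GeneralLinearGroup.scalar (Fin 2) u = g') (N : Matrix (Fin 2) (Fin 2) K) :
    g'⁻¹.val * N * g'.val = g⁻¹.val * N * g.val := by
  have hc : ∀ M : Matrix (Fin 2) (Fin 2) K,
      (Matrix.GeneralLinearGroup.scalar (Fin 2) u).val * M =
        M * (Matrix.GeneralLinearGroup.scalar (Fin 2) u).val := by
    intro M
    have : (Matrix.GeneralLinearGroup.scalar (Fin 2) u).val = Matrix.scalar (Fin 2) (u : K) := rfl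
    rw [this]
    exact (Matrix.scalar_commute (u : K) (fun r => Commute.all _ _) M).eq
  set S := Matrix.GeneralLinearGroup.scalar (Fin 2) u with hS
  have hSS : S⁻¹.val * S.val = 1 := by rw [← Units.val_mul, inv_mul_cancel]; rfl
  rw [← h, _root_.mul_inv_rev, Units.val_mul, Units.val_mul]
  calc S⁻¹.val * g⁻¹.val * N * (g.val * S.val) = S⁻¹.val * (g⁻¹.val * N * g.val * S.val) := by
        simp only [mul_assoc]
    _ = S⁻¹.val * (S.val * (g⁻¹.val * N * g.val)) := by rw [← hc]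
    _ = g⁻¹.val * N * g.val := by rw [← mul_assoc, hSS, one_mul]

theorem BK_proj (hB : Proj B) (t s : T) : ∃ u : (RatFunc ℂ)ˣ,
    BK B t * BK B s * Matrix.GeneralLinearGroup.scalar (Fin 2) u = BK B (t * s) := by
  obtain ⟨u, hu⟩ := hB t s
  refine ⟨Units.map (RatFunc.C : ℂ →+* RatFunc ℂ).toMonoidHom u, ?_⟩
  rw [BK, BK, BK, ← hu, map_mul, map_mul]
  congr 1
  ext i j
  fin_cases i <;> fin_cases j <;> simp [Matrix.GeneralLinearGroup.scalar]

theorem ac_mul (hB : Proj B) (t s : T) (N : Matrix (Fin 2) (Fin 2) (RatFunc ℂ)) :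
    ac ρ₁ B (t * s) N = ac ρ₁ B s (ac ρ₁ B t N) := by
  obtain ⟨u, hu⟩ := BK_proj hB t s
  rw [ac, conj_scalar _ _ u hu, ac, ac]
  have h1 : ((BK B t)⁻¹.val * N.map (sub ρ₁ t) * (BK B t).val).map (sub ρ₁ s)
      = (BK B t)⁻¹.val * N.map (sub ρ₁ (t * s)) * (BK B t).val := by
    rw [Matrix.map_mul, Matrix.map_mul, BK_map, BK_inv_map]
    congr 2
    ext i j
    rw [Matrix.map_apply, Matrix.map_apply, Matrix.map_apply, sub_mul]
  rw [h1, _root_.mul_inv_rev, Units.val_mul, Units.val_mul]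
  simp only [mul_assoc]

theorem ac_one (hB : Proj B) (N : Matrix (Fin 2) (Fin 2) (RatFunc ℂ)) : ac ρ₁ B 1 N = N := by
  have h1 := ac_mul ρ₁ hB 1 1 N
  rw [mul_one] at h1
  -- `ac 1` is injective
  have hinj : ∀ M M' : Matrix (Fin 2) (Fin 2) (RatFunc ℂ), ac ρ₁ B 1 M = ac ρ₁ B 1 M' → M = M' := by
    intro M M' h
    rw [ac, ac] at h
    have h2 : ((BK B 1).val * ((BK B 1)⁻¹.val * M.map (sub ρ₁ 1) * (BK B 1).val)) * (BK B 1)⁻¹.val =
      ((BK B 1).val * ((BK B 1)⁻¹.val * M'.map (sub ρ₁ 1) * (BK B 1).val)) * (BK B 1)⁻¹.val := by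
      rw [h]
    have e : ∀ M : Matrix (Fin 2) (Fin 2) (RatFunc ℂ),
        ((BK B 1).val * ((BK B 1)⁻¹.val * M * (BK B 1).val)) * (BK B 1)⁻¹.val = M := by
      intro M
      have a1 : (BK B 1).val * (BK B 1)⁻¹.val = 1 := by rw [← Units.val_mul, mul_inv_cancel]; rfl
      calc _ = ((BK B 1).val * (BK B 1)⁻¹.val) * M * ((BK B 1).val * (BK B 1)⁻¹.val) := by
            simp only [mul_assoc]
        _ = M := by rw [a1, one_mul, mul_one]
    rw [e, e] at h2
    ext i j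
    have h3 := congrFun (congrFun h2 i) j
    rw [Matrix.map_apply, Matrix.map_apply, sub_one, sub_one] at h3
    exact h3
  exact (hinj _ _ h1).symm

/-- The invariants of the twisted action. -/
def IsInv (ρ₁ : T →* RatMapˣ) (B : T → GL (Fin 2) ℂ) (N : Matrix (Fin 2) (Fin 2) (RatFunc ℂ)) :
    Prop := ∀ t, ac ρ₁ B t N = N

theorem isInv_avg [Fintype T] (hB : Proj B) (N : Matrix (Fin 2) (Fin 2) (RatFunc ℂ)) :
    IsInv ρ₁ B (∑ t : T, ac ρ₁ B t N) := by
  intro s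
  rw [ac_sum]
  have : ∀ t, ac ρ₁ B s (ac ρ₁ B t N) = ac ρ₁ B (t * s) N := fun t => (ac_mul ρ₁ hB t s N).symm
  simp only [this]
  exact Fintype.sum_equiv (Equiv.mulRight s) _ _ (fun t => rfl)

theorem IsInv.add {N N' : Matrix (Fin 2) (Fin 2) (RatFunc ℂ)} (h : IsInv ρ₁ B N)
    (h' : IsInv ρ₁ B N') : IsInv ρ₁ B (N + N') := fun t => by rw [ac_add, h t, h' t]

theorem IsInv.smul {N : Matrix (Fin 2) (Fin 2) (RatFunc ℂ)} (h : IsInv ρ₁ B N) {x : RatFunc ℂ}
    (hx : x ∈ invField ρ₁) : IsInv ρ₁ B (x • N) := fun t => by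
  rw [ac_smul, h t, (mem_invField ρ₁ x).1 hx t]

theorem IsInv.det {N : Matrix (Fin 2) (Fin 2) (RatFunc ℂ)} (h : IsInv ρ₁ B N) :
    N.det ∈ invField ρ₁ := by
  rw [mem_invField]
  intro t
  have h1 := congrArg Matrix.det (h t)
  rw [ac, Matrix.det_mul, Matrix.det_mul] at h1
  have h2 : ((BK B t)⁻¹.val).det * ((BK B t).val).det = 1 := by
    rw [← Matrix.det_mul, ← Units.val_mul, inv_mul_cancel, Units.val_one, Matrix.det_one]
  have h3 : (N.map (sub ρ₁ t)).det = sub ρ₁ t N.det := by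
    rw [Matrix.det_fin_two, Matrix.det_fin_two, map_sub, map_mul, map_mul]
    rfl
  rw [h3] at h1
  linear_combination h1 - (sub ρ₁ t N.det) * h2

/-- The invariants span the space of all matrices. -/
theorem span_inv [Finite T] (hρ : Function.Injective ρ₁) (hB : Proj B) :
    Submodule.span (RatFunc ℂ) {N | IsInv ρ₁ B N} = ⊤ := by
  classical
  have := Fintype.ofFinite T
  by_contra hne
  obtain ⟨l, hl0, hl⟩ := Submodule.exists_le_ker_of_lt_top _ (lt_top_iff_ne_top.2 hne)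
  apply hl0
  ext1 N
  -- Dedekind independence
  let χ : T → (RatFunc ℂ →* RatFunc ℂ) := fun t => ((sub ρ₁ t : RatFunc ℂ →ₐ[ℂ] RatFunc ℂ) :
    RatFunc ℂ →* RatFunc ℂ)
  have hχ : Function.Injective χ := by
    intro t s h
    apply sub_injective ρ₁ hρ
    intro f
    exact congrArg (fun F : RatFunc ℂ →* RatFunc ℂ => F f) h
  have hli := (linearIndependent_monoidHom (RatFunc ℂ) (RatFunc ℂ)).comp χ hχ
  rw [Fintype.linearIndependent_iff] at hli
  have hz := hli (fun t => l (ac ρ₁ B t N)) (by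
    funext x
    have h1 : l (∑ t : T, ac ρ₁ B t (x • N)) = 0 :=
      hl (Submodule.subset_span (isInv_avg ρ₁ hB (x • N)))
    rw [map_sum] at h1
    simp only [Finset.sum_apply, Pi.smul_apply, Pi.zero_apply, smul_eq_mul, Function.comp]
    rw [← h1]
    apply Finset.sum_congr rfl
    intro t _
    rw [ac_smul, map_smul, smul_eq_mul, mul_comm]
    rfl) 1
  simp only [ac_one ρ₁ hB] at hz
  simpa using hz

/-- There is a nonzero invariant matrix of determinant zero. -/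
theorem exists_isotropic [Finite T] (hρ : Function.Injective ρ₁) (hB : Proj B) :
    ∃ M : Matrix (Fin 2) (Fin 2) (RatFunc ℂ), IsInv ρ₁ B M ∧ M ≠ 0 ∧ M.det = 0 := by
  classical
  obtain ⟨f, hf, -, hli⟩ := Submodule.exists_fun_fin_finrank_span_eq (RatFunc ℂ)
    {N | IsInv ρ₁ B N}
  have hrank : Module.finrank (RatFunc ℂ) (Submodule.span (RatFunc ℂ) {N | IsInv ρ₁ B N}) = 4 := by
    rw [span_inv ρ₁ hρ hB, finrank_top, Module.finrank_matrix]
    simp
  set i0 : Fin (Module.finrank (RatFunc ℂ) (Submodule.span (RatFunc ℂ) {N | IsInv ρ₁ B N})) :=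
    ⟨0, by omega⟩ with hi0
  set i1 : Fin (Module.finrank (RatFunc ℂ) (Submodule.span (RatFunc ℂ) {N | IsInv ρ₁ B N})) :=
    ⟨1, by omega⟩ with hi1
  set i2 : Fin (Module.finrank (RatFunc ℂ) (Submodule.span (RatFunc ℂ) {N | IsInv ρ₁ B N})) :=
    ⟨2, by omega⟩ with hi2
  have h01 : i0 ≠ i1 := by rw [hi0, hi1]; simp [Fin.ext_iff]
  have h02 : i0 ≠ i2 := by rw [hi0, hi2]; simp [Fin.ext_iff]
  have h12 : i1 ≠ i2 := by rw [hi1, hi2]; simp [Fin.ext_iff]
  have hinv : ∀ i, IsInv ρ₁ B (f i) := hf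
  let mk : ∀ N, IsInv ρ₁ B N → invField ρ₁ := fun N h => ⟨N.det, h.det⟩
  have k := ternary_isotropic (k := invField ρ₁) (legendre_invField ρ₁ hρ)
    (mk _ (hinv i0)) (mk _ (hinv i1)) (mk _ (hinv i2))
    (mk _ ((hinv i0).add ρ₁ (hinv i1)) - mk _ (hinv i0) - mk _ (hinv i1))
    (mk _ ((hinv i0).add ρ₁ (hinv i2)) - mk _ (hinv i0) - mk _ (hinv i2))
    (mk _ ((hinv i1).add ρ₁ (hinv i2)) - mk _ (hinv i1) - mk _ (hinv i2))
  obtain ⟨x, y, z, hne, h⟩ := k
  refine ⟨(x : RatFunc ℂ) • f i0 + (y : RatFunc ℂ) • f i1 + (z : RatFunc ℂ) • f i2,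
    (((hinv i0).smul ρ₁ x.2).add ρ₁ ((hinv i1).smul ρ₁ y.2)).add ρ₁ ((hinv i2).smul ρ₁ z.2),
    ?_, ?_⟩
  · intro h0
    apply hne
    rw [linearIndependent_iff'] at hli
    have hsum := hli {i0, i1, i2} (fun i => if i = i0 then (x : RatFunc ℂ) else
      if i = i1 then (y : RatFunc ℂ) else (z : RatFunc ℂ)) (by
      rw [Finset.sum_insert (by simp [h01, h02]), Finset.sum_insert (by simp [h12]),
        Finset.sum_singleton]
      simp only [if_true, h01.symm, h02.symm, h12.symm, if_false]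
      rw [← add_assoc]
      exact h0)
    have e0 := hsum i0 (by simp)
    have e1 := hsum i1 (by simp)
    have e2 := hsum i2 (by simp)
    simp only [if_true, h01.symm, h02.symm, h12.symm, if_false] at e0 e1 e2
    exact ⟨Subtype.ext e0, Subtype.ext e1, Subtype.ext e2⟩
  · have h' := congrArg (fun w : invField ρ₁ => (w : RatFunc ℂ)) h
    simp only [mk] at h'
    push_cast at h'
    rw [Matrix.det_fin_two] at h' ⊢
    simp only [Matrix.det_fin_two, Matrix.add_apply, Matrix.smul_apply, smul_eq_mul] at h' ⊢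
    linear_combination h'

/-- A `2 × 2` matrix of determinant zero has rank one. -/
theorem rank_one {K : Type*} [Field K] {M : Matrix (Fin 2) (Fin 2) K} (hdet : M.det = 0)
    (j : Fin 2) (hj : (fun i => M i j) ≠ 0) (u : Fin 2 → K) :
    ∃ κ : K, M.mulVec u = κ • (fun i => M i j) := by
  rw [Matrix.det_fin_two] at hdet
  have hj' : M 0 j ≠ 0 ∨ M 1 j ≠ 0 := by
    by_contra hcon
    push Not at hcon
    apply hj
    funext i
    fin_cases i
    · exact hcon.1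
    · exact hcon.2
  have hd : ∀ i i' j j' : Fin 2, M i j * M i' j' = M i j' * M i' j := by
    simp only [Fin.forall_fin_two]
    refine ⟨⟨⟨⟨?_, ?_⟩, ?_, ?_⟩, ⟨?_, ?_⟩, ?_, ?_⟩, ⟨⟨?_, ?_⟩, ?_, ?_⟩, ⟨?_, ?_⟩, ?_, ?_⟩ <;>
      first | trivial | linear_combination (0 : K) * hdet | linear_combination hdet |
        linear_combination -hdet
  have hcol : ∀ j', ∃ κ : K, ∀ i, M i j' = κ * M i j := by
    intro j'
    rcases hj' with h | h
    · refine ⟨M 0 j' / M 0 j, fun i => ?_⟩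
      rw [div_mul_eq_mul_div, eq_div_iff h]
      rw [mul_comm (M 0 j')]
      exact hd _ _ _ _
    · refine ⟨M 1 j' / M 1 j, fun i => ?_⟩
      rw [div_mul_eq_mul_div, eq_div_iff h]
      rw [mul_comm (M 1 j')]
      exact hd _ _ _ _
  obtain ⟨κ₀, h0⟩ := hcol 0
  obtain ⟨κ₁, h1⟩ := hcol 1
  refine ⟨κ₀ * u 0 + κ₁ * u 1, ?_⟩
  funext i
  rw [Matrix.mulVec, dotProduct, Fin.sum_univ_two, h0 i, h1 i, Pi.smul_apply, smul_eq_mul]
  ring

/-- **Equivariant vectors.** -/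
theorem exists_equivariant [Finite T] (hρ : Function.Injective ρ₁) (hB : Proj B) :
    ∃ v₀ v₁ : Fin 2 → RatFunc ℂ, v₀ 0 * v₁ 1 - v₀ 1 * v₁ 0 ≠ 0 ∧
      ∀ t, ∃ μ : RatFunc ℂ, μ ≠ 0 ∧
        (∀ i, sub ρ₁ t (v₀ i) = μ * ((BK B t).val.mulVec v₀) i) ∧
        (∀ i, sub ρ₁ t (v₁ i) = μ * ((BK B t).val.mulVec v₁) i) := by
  obtain ⟨M, hM, hM0, hdet⟩ := exists_isotropic ρ₁ hρ hB
  obtain ⟨j, hj⟩ : ∃ j, (fun i => M i j) ≠ 0 := by
    by_contra hcon
    push Not at hcon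
    apply hM0
    ext i j
    exact congrFun (hcon j) i
  set v₀ : Fin 2 → RatFunc ℂ := fun i => M i j with hv₀
  -- an invariant matrix moving `v₀`
  obtain ⟨N, hN, hNv⟩ : ∃ N, IsInv ρ₁ B N ∧
      v₀ 0 * (N.mulVec v₀) 1 - v₀ 1 * (N.mulVec v₀) 0 ≠ 0 := by
    by_contra hcon
    push Not at hcon
    let l : Matrix (Fin 2) (Fin 2) (RatFunc ℂ) →ₗ[RatFunc ℂ] RatFunc ℂ :=
      { toFun := fun N => v₀ 0 * (N.mulVec v₀) 1 - v₀ 1 * (N.mulVec v₀) 0
        map_add' := by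
          intro N N'
          rw [Matrix.add_mulVec]
          simp only [Pi.add_apply]; ring
        map_smul' := by
          intro c N
          rw [Matrix.smul_mulVec]
          simp only [Pi.smul_apply, smul_eq_mul, RingHom.id_apply]; ring }
    have hker : Submodule.span (RatFunc ℂ) {N | IsInv ρ₁ B N} ≤ LinearMap.ker l := by
      rw [Submodule.span_le]
      intro N hN
      exact hcon N hN
    rw [span_inv ρ₁ hρ hB] at hker
    have h1 : ∀ N : Matrix (Fin 2) (Fin 2) (RatFunc ℂ),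
        v₀ 0 * (N.mulVec v₀) 1 - v₀ 1 * (N.mulVec v₀) 0 = 0 := fun N => hker (Submodule.mem_top)
    apply hj
    have e1 := h1 !![0, 0; 1, 0]
    have e2 := h1 !![0, 1; 0, 0]
    simp [Matrix.mulVec, dotProduct, Fin.sum_univ_two] at e1 e2
    funext i
    fin_cases i
    · exact e1
    · exact e2
  refine ⟨v₀, N.mulVec v₀, hNv, ?_⟩
  intro t
  have hMt : M.map (sub ρ₁ t) = (BK B t).val * M * (BK B t)⁻¹.val := by
    have h1 := hM t
    rw [ac] at h1
    have a1 : (BK B t).val * (BK B t)⁻¹.val = 1 := by rw [← Units.val_mul, mul_inv_cancel]; rfl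
    calc M.map (sub ρ₁ t) = ((BK B t).val * (BK B t)⁻¹.val) * M.map (sub ρ₁ t) *
          ((BK B t).val * (BK B t)⁻¹.val) := by rw [a1, one_mul, mul_one]
      _ = (BK B t).val * ((BK B t)⁻¹.val * M.map (sub ρ₁ t) * (BK B t).val) * (BK B t)⁻¹.val := by
          simp only [mul_assoc]
      _ = _ := by rw [h1]
  have hNt : N.map (sub ρ₁ t) = (BK B t).val * N * (BK B t)⁻¹.val := by
    have h1 := hN t
    rw [ac] at h1
    have a1 : (BK B t).val * (BK B t)⁻¹.val = 1 := by rw [← Units.val_mul, mul_inv_cancel]; rfl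
    calc N.map (sub ρ₁ t) = ((BK B t).val * (BK B t)⁻¹.val) * N.map (sub ρ₁ t) *
          ((BK B t).val * (BK B t)⁻¹.val) := by rw [a1, one_mul, mul_one]
      _ = (BK B t).val * ((BK B t)⁻¹.val * N.map (sub ρ₁ t) * (BK B t).val) * (BK B t)⁻¹.val := by
          simp only [mul_assoc]
      _ = _ := by rw [h1]
  obtain ⟨μ, hμ⟩ := rank_one hdet j hj (fun i => (BK B t)⁻¹.val i j)
  have hv₀t : (fun i => sub ρ₁ t (v₀ i)) = μ • (BK B t).val.mulVec v₀ := by
    have h1 : (fun i => sub ρ₁ t (v₀ i)) = (M.map (sub ρ₁ t)).mulVec (Pi.single j 1) := by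
      rw [Matrix.mulVec_single_one]; rfl
    rw [h1, hMt, ← Matrix.mulVec_mulVec, ← Matrix.mulVec_mulVec, Matrix.mulVec_single_one]
    have h2 : M.mulVec ((BK B t)⁻¹.val.col j) = μ • v₀ := hμ
    rw [h2, Matrix.mulVec_smul]
  have hμ0 : μ ≠ 0 := by
    rintro rfl
    rw [zero_smul] at hv₀t
    apply hj
    funext i
    have h1 := congrFun hv₀t i
    exact (map_eq_zero (sub ρ₁ t)).1 h1
  refine ⟨μ, hμ0, fun i => congrFun hv₀t i, ?_⟩
  intro i
  have h1 : (fun i => sub ρ₁ t ((N.mulVec v₀) i)) =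
      (N.map (sub ρ₁ t)).mulVec (fun i => sub ρ₁ t (v₀ i)) := by
    funext i
    rw [Matrix.mulVec, Matrix.mulVec, dotProduct, dotProduct, map_sum]
    apply Finset.sum_congr rfl
    intro k _
    rw [map_mul, Matrix.map_apply]
  have h2 := congrFun h1 i
  rw [hNt, hv₀t] at h2
  rw [h2, Matrix.mulVec_smul, Matrix.mulVec_mulVec]
  have a1 : (BK B t)⁻¹.val * (BK B t).val = 1 := by rw [← Units.val_mul, inv_mul_cancel]; rfl
  rw [mul_assoc, a1, mul_one, ← Matrix.mulVec_mulVec]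
  rfl

end twisted

end Pool.Agent.Helper74_Centr
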