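import Pool.Agent.Helper74_Centr.EqData

/-!
# Existence of the equivariant rational function
-/

namespace Pool.Agent.Helper74_Centr

open Polynomial IntermediateField Matrix
open GenData (mv)

theorem three_points {M N : GL (Fin 2) ℂ} {c₁ c₂ c₃ : ℂ} (h12 : c₁ ≠ c₂) (h13 : c₁ ≠ c₃)
    (h23 : c₂ ≠ c₃)
    (h1 : (M 0 0 * c₁ + M 0 1) * (N 1 0 * c₁ + N 1 1) = (N 0 0 * c₁ + N 0 1) * (M 1 0 * c₁ + M 1 1))
    (h2 : (M 0 0 * c₂ + M 0 1) * (N 1 0 * c₂ + N 1 1) = (N 0 0 * c₂ + N 0 1) * (M 1 0 * c₂ + M 1 1))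
    (h3 : (M 0 0 * c₃ + M 0 1) * (N 1 0 * c₃ + N 1 1) = (N 0 0 * c₃ + N 0 1) * (M 1 0 * c₃ + M 1 1)) :
    mobUnits M = mobUnits N := by
  obtain ⟨q1, q2, q3⟩ := quad_zero (A := M 0 1 * N 1 1 - N 0 1 * M 1 1)
    (B := M 0 0 * N 1 1 + M 0 1 * N 1 0 - N 0 0 * M 1 1 - N 0 1 * M 1 0)
    (C := M 0 0 * N 1 0 - N 0 0 * M 1 0) h12 h13 h23
    (by linear_combination h1) (by linear_combination h2) (by linear_combination h3)
  apply Units.ext
  apply RatMap.ext
  rw [mobUnits_val, mobUnits_val]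
  unfold mob
  have dM := det_ne_of_den_zero (Matrix.GeneralLinearGroup.det_ne_zero M)
  have dN := det_ne_of_den_zero (Matrix.GeneralLinearGroup.det_ne_zero N)
  rw [div_eq_div_iff dM dN]
  have e1 := congrArg (RatFunc.C : ℂ →+* RatFunc ℂ) q1
  have e2 := congrArg (RatFunc.C : ℂ →+* RatFunc ℂ) q2
  have e3 := congrArg (RatFunc.C : ℂ →+* RatFunc ℂ) q3
  simp only [map_sub, map_add, map_mul, map_zero] at e1 e2 e3
  linear_combination e1 + RatFunc.X * e2 + RatFunc.X ^ 2 * e3

namespace EqData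

variable {T : Type*} [Group T] {n : ℕ} {G : EqData T n}

/-- **The symmetries of `R` are the expected ones.** -/
theorem symmetries [Finite T] (hn : 7 ≤ n) {M M' : GL (Fin 2) ℂ}
    (hcomm : comp G.R (mob M) = comp (mob M') G.R)
    (hcard : 2 * Nat.card T + 3 ≤ (G.Good M.val M'.val).card) : ∃ t, mobUnits M = G.ρ₁ t := by
  classical
  have := Fintype.ofFinite T
  have hM := Matrix.GeneralLinearGroup.det_ne_zero M
  have hM' := Matrix.GeneralLinearGroup.det_ne_zero M'
  have hw : ∀ c ∈ G.Good M.val M'.val, ∃ t, mv M.val c = mv (G.A t) c := by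
    intro c hc
    have h1 := GenData.wv_mv cv_injOn hM hM' hn hcomm (by rw [G.hdeg]; exact hcard) hc
    have h2 := (GenData.good_spec hM hM' hcomm hc).1
    exact fibre (GenData.mem_Crit.1 (GenData.mem_Good.1 hc).1).1 (GenData.mem_Crit.1 h2).1 h1.symm
  choose! τ hτ using hw
  obtain ⟨t, -, ht⟩ := Finset.exists_lt_card_fiber_of_mul_lt_card_of_maps_to (s := G.Good M.val M'.val)
    (t := (Finset.univ : Finset T)) (f := τ) (n := 2) (fun c _ => Finset.mem_univ _) (by
      rw [Finset.card_univ, ← Nat.card_eq_fintype_card]; omega)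
  refine ⟨t, ?_⟩
  obtain ⟨c₁, c₂, c₃, hc₁, hc₂, hc₃, h12, h13, h23⟩ := Finset.two_lt_card_iff.1 ht
  rw [Finset.mem_filter] at hc₁ hc₂ hc₃
  rw [← G.hA]
  have key : ∀ c, c ∈ G.Good M.val M'.val ∧ τ c = t →
      (M 0 0 * c + M 0 1) * (G.A t 1 0 * c + G.A t 1 1) =
        (G.A t 0 0 * c + G.A t 0 1) * (M 1 0 * c + M 1 1) := by
    rintro c ⟨hc, hct⟩
    have h1 := hτ c hc
    rw [hct] at h1
    have h2 := (GenData.mem_Good.1 hc).2.1
    have h3 := den_mv_ne (G := G) (M := G.A t) (fun j k i => G.lA t j k i)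
      (GenData.mem_Crit.1 (GenData.mem_Good.1 hc).1).1
    rw [mv, mv, div_eq_div_iff h2 h3] at h1
    exact h1
  exact three_points h12 h13 h23 (key _ hc₁) (key _ hc₂) (key _ hc₃)

end EqData

theorem proj_of_hom {T : Type*} [Group T] (ρ : T →* RatMapˣ) (B : T → GL (Fin 2) ℂ)
    (hB : ∀ t, mobUnits (B t) = ρ t) : Proj B := by
  intro t s
  have h1 : (B t * B s)⁻¹ * B (t * s) ∈ mobUnits.ker := by
    rw [MonoidHom.mem_ker, map_mul, map_inv, map_mul, hB, hB, hB, map_mul, inv_mul_cancel]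
  rw [mobUnits_ker, Matrix.GeneralLinearGroup.center_eq_range_scalar] at h1
  obtain ⟨u, hu⟩ := h1
  exact ⟨u, by rw [hu, mul_inv_cancel_left]⟩

theorem natDegree_F_le {n : ℕ} (G : GenData n) :
    (G.F G.τ).natDegree ≤ n * max G.wn.natDegree G.wd.natDegree := by
  rw [GenData.F]
  apply natDegree_sum_le_of_forall_le
  intro i _
  refine (natDegree_C_mul_le _ _).trans ?_
  refine natDegree_mul_le.trans ?_
  rw [natDegree_pow, natDegree_pow]
  have hi : (i : ℕ) ≤ n := by have := i.2; omega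
  calc (i : ℕ) * G.wn.natDegree + (n - i) * G.wd.natDegree
      ≤ i * max G.wn.natDegree G.wd.natDegree + (n - i) * max G.wn.natDegree G.wd.natDegree :=
        Nat.add_le_add (Nat.mul_le_mul_left _ (le_max_left _ _))
          (Nat.mul_le_mul_left _ (le_max_right _ _))
    _ = n * max G.wn.natDegree G.wd.natDegree := by
        rw [← add_mul]; congr 1; omega

/-- The finite set of critical values. -/
theorem finite_crit {R : RatFunc ℂ} (hR : Nonconst R) : {s | ∃ c, HasJet R c s 0}.Finite := by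
  classical
  choose! f hf using fun c (h : ∃ s, HasJet R c s 0) => h
  have h1 : {s | ∃ c, HasJet R c s 0} ⊆
      f '' ((wronskian R.num R.denom).roots.toFinset : Set ℂ) := by
    rintro s ⟨c, hc⟩
    refine ⟨c, ?_, ((hf c ⟨s, hc⟩).unique hc).1⟩
    rw [Finset.mem_coe, Multiset.mem_toFinset, mem_roots (wronskian_ne_zero hR)]
    exact hc.wronskian_eq_zero (num_denom_eq R)
  exact (((wronskian R.num R.denom).roots.toFinset.finite_toSet).image f).subset h1

/-- The critical fixed point. -/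
theorem hasJet_c₀ {n : ℕ} (G : GenData n) (hn : 2 ≤ n) {c₀ : ℂ} (hwd : G.wd.eval c₀ = 0)
    (hb : G.b₁.eval c₀ ≠ 0) (ha : G.a₁.eval c₀ = c₀ * G.b₁.eval c₀)
    (ha' : (derivative G.a₁).eval c₀ = c₀ * (derivative G.b₁).eval c₀) : HasJet G.R c₀ c₀ 0 := by
  have hwn : G.wn.eval c₀ ≠ 0 := by
    intro h0
    obtain ⟨u, v, huv⟩ := G.cop
    have := congrArg (Polynomial.eval c₀) huv
    rw [eval_add, eval_mul, eval_mul, h0, hwd] at this
    simp at this
  have hτ : G.τ (Fin.last n) ≠ 0 := by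
    intro h0
    have := G.dual (Fin.last n) (Fin.last n)
    rw [h0, map_zero, if_pos rfl] at this
    exact zero_ne_one this
  have hF : (G.F G.τ).eval c₀ = G.τ (Fin.last n) * (G.wn.eval c₀) ^ n := by
    rw [GenData.F, eval_finsetSum, Finset.sum_eq_single (Fin.last n)]
    · simp
    · intro i _ hi
      have hi' : (i : ℕ) < n := by
        have h1 := i.2
        have h2 : (i : ℕ) ≠ n := fun h => hi (Fin.ext h)
        omega
      rw [eval_mul, eval_mul, eval_pow, eval_pow, hwd, zero_pow (by omega), mul_zero, mul_zero]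
    · simp
  have hF0 : (G.F G.τ).eval c₀ ≠ 0 := by
    rw [hF]; exact mul_ne_zero hτ (pow_ne_zero _ hwn)
  have z1 : (G.wd ^ n).eval c₀ = 0 := by rw [eval_pow, hwd, zero_pow (by omega)]
  have z2 : (derivative (G.wd ^ n)).eval c₀ = 0 := by
    rw [derivative_pow]
    simp only [eval_mul, eval_pow, hwd]
    rw [zero_pow (by omega)]; ring
  refine ⟨G.p, G.q, ?_, GenData.R_mul, ?_, ?_⟩
  · rw [GenData.q, eval_add, eval_mul, eval_mul, z1, mul_zero, zero_add]
    exact mul_ne_zero hb hF0
  · rw [GenData.p, GenData.q]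
    simp only [eval_add, eval_mul, z1, ha]; ring
  · rw [GenData.p, GenData.q]
    simp only [derivative_add, derivative_mul, eval_add, eval_mul, z1, z2, ha, ha']
    ring

/-- **Existence of the equivariant rational function.** -/
theorem exists_R {T : Type*} [Group T] [Finite T] (ρ₁ ρ₂ : T →* RatMapˣ)
    (h₁ : Function.Injective ρ₁) (h₂ : Function.Injective ρ₂) :
    ∃ R : RatMap, 2 ≤ R.degree ∧ (∀ t, R * (ρ₁ t : RatMap) = (ρ₂ t : RatMap) * R) ∧
      (∀ u v : RatMap, R * u = v * R → (∀ u', u ≠ u' * R) → u.degree = 1) ∧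
      (∀ ν v : RatMapˣ, R * (ν : RatMap) = (v : RatMap) * R → ∃ t, ν = ρ₁ t) ∧
      ∃ c₀ : ℂ, HasJet R.val c₀ c₀ 0 ∧ ∀ t, ∃ s d, HasJet (ρ₁ t : RatMap).val c₀ s d := by
  classical
  choose A hA using fun t => mobUnits_surjective (ρ₁ t)
  choose B hB using fun t => mobUnits_surjective (ρ₂ t)
  obtain ⟨c₀, a₀, b₀, a₁, b₁, wn, wd, hΔ, hA₂, hcop, hwne, hdeg, hw, hv, q1, q2, q3, q4, q5⟩ :=
    exists_base (ρ₁ := ρ₁) (B := B) h₁ (proj_of_hom ρ₂ B hB) A
  set K := a₀.natDegree + b₀.natDegree + a₁.natDegree + b₁.natDegree with hK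
  set m := (wronskian a₁ b₁).natDegree with hm
  set n := K + m + 20 with hn
  set S : Set ℂ := Set.range (fun k => a₀.coeff k) ∪ Set.range (fun k => b₀.coeff k) ∪
    Set.range (fun k => a₁.coeff k) ∪ Set.range (fun k => b₁.coeff k) ∪
    Set.range (fun k => wn.coeff k) ∪ Set.range (fun k => wd.coeff k) ∪
    Set.range (fun x : T × Fin 2 × Fin 2 => A x.1 x.2.1 x.2.2) ∪
    Set.range (fun x : T × Fin 2 × Fin 2 => B x.1 x.2.1 x.2.2) with hS
  have hScount : S.Countable := by
    rw [hS]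
    refine ((((((((Set.countable_range _).union (Set.countable_range _)).union
      (Set.countable_range _)).union (Set.countable_range _)).union (Set.countable_range _)).union
      (Set.countable_range _)).union (Set.countable_range _)).union (Set.countable_range _))
  obtain ⟨τ, D, hdual, hD⟩ := exists_generic S hScount (n + 1)
  have hpoly : ∀ p : ℂ[X], (∀ k, p.coeff k ∈ S) → ∀ i, mapD (D i) p = 0 := by
    intro p hp i
    ext k
    rw [mapD_coeff, hD i _ (hp k), coeff_zero]
  let G : EqData T n :=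
    { τ := τ, D := D, dual := hdual, a₀ := a₀, b₀ := b₀, a₁ := a₁, b₁ := b₁, wn := wn, wd := wd
      ha₀ := hpoly a₀ (fun k => by rw [hS]; simp)
      hb₀ := hpoly b₀ (fun k => by rw [hS]; simp)
      ha₁ := hpoly a₁ (fun k => by rw [hS]; simp)
      hb₁ := hpoly b₁ (fun k => by rw [hS]; simp)
      hwn := hpoly wn (fun k => by rw [hS]; simp)
      hwd := hpoly wd (fun k => by rw [hS]; simp)
      hn := by omega
      Δne := hΔ, A₂ne := hA₂, cop := hcop, wne := hwne
      ρ₁ := ρ₁, ρ₂ := ρ₂, inj₁ := h₁, inj₂ := h₂, A := A, B := B, hA := hA, hB := hB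
      lA := fun t j k i => hD i _ (by rw [hS]; exact Or.inl (Or.inr ⟨(t, j, k), rfl⟩))
      lB := fun t j k i => hD i _ (by rw [hS]; exact Or.inr ⟨(t, j, k), rfl⟩)
      hw := hw, hv := hv, hdeg := hdeg }
  have hTpos : 1 ≤ Nat.card T := Nat.card_pos
  have hinj := EqData.cv_injOn (G := G)
  -- degrees
  have hN : max G.wn.natDegree G.wd.natDegree = Nat.card T := hdeg
  have hcrit : 2 * n * Nat.card T ≤ G.Crit.card := by
    have := GenData.card_Crit (G := G.toGenData)
    rwa [hN] at this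
  have hFd : (G.F G.τ).natDegree ≤ n * Nat.card T := by
    have := natDegree_F_le G.toGenData
    rwa [hN] at this
  have hwdn : (G.wd ^ n).natDegree ≤ n * Nat.card T := by
    rw [natDegree_pow]
    exact Nat.mul_le_mul_left _ (by rw [← hN]; exact le_max_right _ _)
  have hpd : G.p.natDegree ≤ K + n * Nat.card T := by
    rw [GenData.p]
    refine (natDegree_add_le _ _).trans (max_le ?_ ?_)
    · refine natDegree_mul_le.trans ?_
      have : G.a₀.natDegree ≤ K := by show a₀.natDegree ≤ K; omega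
      omega
    · refine natDegree_mul_le.trans ?_
      have : G.a₁.natDegree ≤ K := by show a₁.natDegree ≤ K; omega
      omega
  have hqd : G.q.natDegree ≤ K + n * Nat.card T := by
    rw [GenData.q]
    refine (natDegree_add_le _ _).trans (max_le ?_ ?_)
    · refine natDegree_mul_le.trans ?_
      have : G.b₀.natDegree ≤ K := by show b₀.natDegree ≤ K; omega
      omega
    · refine natDegree_mul_le.trans ?_
      have : G.b₁.natDegree ≤ K := by show b₁.natDegree ≤ K; omega
      omega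
  have hRd : deg G.R ≤ K + n * Nat.card T :=
    (GenData.deg_R_le (G := G.toGenData)).trans (max_le hpd hqd)
  have hnT : n ≤ n * Nat.card T := Nat.le_mul_of_pos_right n hTpos
  have h2nT : 2 * n * Nat.card T = n * Nat.card T + n * Nat.card T := by ring
  have h20T : 20 * Nat.card T ≤ n * Nat.card T := Nat.mul_le_mul_right _ (by omega)
  have hcardlt : deg G.R + (wronskian G.a₁ G.b₁).natDegree < G.Crit.card := by
    show deg G.R + m < G.Crit.card
    omega
  have hgood : ∀ M M' : Matrix (Fin 2) (Fin 2) ℂ, M.det ≠ 0 → M'.det ≠ 0 →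
      2 * Nat.card T + 3 ≤ (G.Good M M').card := by
    intro M M' hM hM'
    have h1 := GenData.card_Good hinj hM hM'
    have h2 : (wronskian G.a₁ G.b₁).natDegree = m := rfl
    omega
  have hind := GenData.indecomposable hinj hcardlt
  -- the map
  let R : RatMap := ⟨G.R, GenData.R_nonconst⟩
  -- critical values
  obtain ⟨V, hV⟩ : ∃ V : Finset ℂ, ∀ s, s ∈ V ↔ ∃ c, HasJet G.R c s 0 := by
    refine ⟨(finite_crit (GenData.R_nonconst (G := G.toGenData))).toFinset, fun s => ?_⟩
    rw [Set.Finite.mem_toFinset]; rfl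
  have hVcard : 12 ≤ V.card := by
    have h1 : (G.Crit.image G.cv).card = G.Crit.card :=
      Finset.card_image_of_injOn (fun c hc c' hc' h => hinj c hc c' hc' h)
    have h2 : G.Crit.image G.cv ⊆ V := by
      intro s hs
      obtain ⟨c, hc, rfl⟩ := Finset.mem_image.1 hs
      exact (hV _).2 ⟨c, GenData.hasJet_Crit hc⟩
    have h3 := Finset.card_le_card h2
    omega
  refine ⟨R, ?_, ?_, ?_, ?_, c₀, ?_, ?_⟩
  · -- degree
    show 2 ≤ deg G.R
    have h1 : G.Crit ⊆ (wronskian G.R.num G.R.denom).roots.toFinset := by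
      intro c hc
      rw [Multiset.mem_toFinset, mem_roots (wronskian_ne_zero GenData.R_nonconst)]
      exact (GenData.hasJet_Crit hc).wronskian_eq_zero (num_denom_eq _)
    have h2 := (Finset.card_le_card h1).trans ((Multiset.toFinset_card_le _).trans (card_roots' _))
    have h3 := GenData.natDegree_wronskian_le (GenData.R_nonconst (G := G.toGenData))
    omega
  · intro t
    exact RatMap.ext (G.comp_R t)
  · intro u v huv hu
    refine key_lemma (R := G.R) GenData.R_nonconst u.nonconst v.nonconst hind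
      (congrArg RatMap.val huv) ?_ V hV hVcard
    intro hmem
    rw [mem_adjoin_iff GenData.R_nonconst] at hmem
    obtain ⟨w, hw⟩ := hmem
    have hwn : Nonconst w := by
      intro a ha
      rw [ha, comp_C] at hw
      exact u.nonconst a hw
    exact hu ⟨w, hwn⟩ (RatMap.ext hw)
  · intro ν v hνv
    obtain ⟨M, rfl⟩ := mobUnits_surjective ν
    obtain ⟨M', rfl⟩ := mobUnits_surjective v
    exact EqData.symmetries (G := G) (by omega) (congrArg RatMap.val hνv)
      (hgood _ _ (Matrix.GeneralLinearGroup.det_ne_zero M) (Matrix.GeneralLinearGroup.det_ne_zero M'))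
  · exact hasJet_c₀ G.toGenData (by omega) q1 q2 q3 q4
  · intro t
    rw [← hA t]
    exact ⟨_, _, hasJet_mob (q5 t)⟩

end Pool.Agent.Helper74_Centr
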