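import Pool.Agent.Helper74_Centr.Jet

/-!
# The fibre product lemma
-/

namespace Pool.Agent.Helper74_Centr

open Polynomial IntermediateField

/-- Pseudo-division of polynomials. -/
theorem pseudo_div {A : Type*} [CommRing A] [IsDomain A] (F : A[X]) (hF : 0 < F.natDegree) :
    ∀ (n : ℕ) (H : A[X]), H.natDegree ≤ n →
    ∃ (m : ℕ) (G Rm : A[X]), C (F.leadingCoeff ^ m) * H = F * G + Rm ∧ Rm.natDegree < F.natDegree := by
  intro n
  induction n with
  | zero =>
    intro H hH
    refine ⟨0, 0, H, by simp, lt_of_le_of_lt hH hF⟩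
  | succ n ih =>
    intro H hH
    by_cases hlt : H.natDegree < F.natDegree
    · exact ⟨0, 0, H, by simp, hlt⟩
    · push Not at hlt
      have hF0 : F ≠ 0 := by rintro rfl; simp at hF
      have hH0 : H ≠ 0 := by rintro rfl; simp at hlt; omega
      set k := H.natDegree - F.natDegree with hk
      set p := C F.leadingCoeff * H with hp
      set q := C H.leadingCoeff * X ^ k * F with hq
      have hpd : p.natDegree = H.natDegree := natDegree_C_mul (leadingCoeff_ne_zero.2 hF0)
      have hqd : q.natDegree = H.natDegree := by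
        rw [hq, mul_assoc, natDegree_C_mul (leadingCoeff_ne_zero.2 hH0), natDegree_X_pow_mul _ hF0]
        omega
      have hple : p.leadingCoeff = F.leadingCoeff * H.leadingCoeff := by
        rw [hp, leadingCoeff_mul, leadingCoeff_C]
      have hqle : q.leadingCoeff = F.leadingCoeff * H.leadingCoeff := by
        rw [hq, leadingCoeff_mul, leadingCoeff_mul, leadingCoeff_C, leadingCoeff_X_pow]; ring
      have hpq : (p - q).natDegree ≤ n := by
        have h1 : (p - q).natDegree ≤ H.natDegree := by
          refine (natDegree_sub_le _ _).trans ?_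
          rw [hpd, hqd, max_self]
        have h2 : (p - q).coeff H.natDegree = 0 := by
          rw [coeff_sub]
          nth_rewrite 1 [← hpd]
          nth_rewrite 1 [← hqd]
          rw [coeff_natDegree, coeff_natDegree, hple, hqle, sub_self]
        by_contra hcon
        push Not at hcon
        have h3 : (p - q).natDegree = H.natDegree := by omega
        have h4 : p - q = 0 := by
          rw [← leadingCoeff_eq_zero, leadingCoeff, h3, h2]
        rw [h4] at hcon; simp at hcon
      obtain ⟨m, G, Rm, hG, hR⟩ := ih (p - q) hpq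
      refine ⟨m + 1, G + C (F.leadingCoeff ^ m) * (C H.leadingCoeff * X ^ k), Rm, ?_, hR⟩
      calc C (F.leadingCoeff ^ (m + 1)) * H = C (F.leadingCoeff ^ m) * p := by
            rw [hp, pow_succ, C_mul]; ring
        _ = C (F.leadingCoeff ^ m) * (p - q) + C (F.leadingCoeff ^ m) * q := by ring
        _ = _ := by rw [hG, hq]; ring

section place

variable (B : ValuationSubring (RatFunc ℂ))

theorem val_C (hC : ∀ a : ℂ, RatFunc.C a ∈ B) {a : ℂ} (ha : a ≠ 0) :
    B.valuation (RatFunc.C a) = 1 := by
  have h1 := (B.valuation_le_one_iff _).2 (hC a)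
  have h2 := (B.valuation_le_one_iff _).2 (hC a⁻¹)
  have h3 : B.valuation (RatFunc.C a) * B.valuation (RatFunc.C a⁻¹) = 1 := by
    rw [← map_mul, ← map_mul, mul_inv_cancel₀ ha, map_one, map_one]
  apply le_antisymm h1
  calc 1 = B.valuation (RatFunc.C a) * B.valuation (RatFunc.C a⁻¹) := h3.symm
    _ ≤ B.valuation (RatFunc.C a) * 1 := mul_le_mul_right h2 _
    _ = _ := mul_one _

/-- The places of `ℂ(z)`. -/
theorem place (hC : ∀ a : ℂ, RatFunc.C a ∈ B) {f₀ : RatFunc ℂ} (hf₀ : f₀ ≠ 0)
    (hv : B.valuation f₀ < 1) :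
    (∃ z₀ : ℂ, ∀ g : ℂ[X], B.valuation (algebraMap ℂ[X] (RatFunc ℂ) g) ≤ 1 ∧
      (B.valuation (algebraMap ℂ[X] (RatFunc ℂ) g) < 1 ↔ g.eval z₀ = 0)) ∨
    (1 < B.valuation RatFunc.X ∧ ∀ g : ℂ[X], g ≠ 0 →
      B.valuation (algebraMap ℂ[X] (RatFunc ℂ) g) = (B.valuation RatFunc.X) ^ g.natDegree) := by
  by_cases hX : B.valuation RatFunc.X ≤ 1
  · left
    have hpoly : ∀ g : ℂ[X], B.valuation (algebraMap ℂ[X] (RatFunc ℂ) g) ≤ 1 := by
      intro g
      rw [B.valuation_le_one_iff] at hX ⊢
      induction g using Polynomial.induction_on' with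
      | add p q hp hq => rw [map_add]; exact add_mem hp hq
      | monomial n a =>
        rw [RatFunc.algebraMap_monomial]; exact mul_mem (hC a) (pow_mem hX n)
    have hnum : B.valuation (algebraMap ℂ[X] (RatFunc ℂ) f₀.num) < 1 := by
      rw [← num_denom_eq, map_mul]
      calc _ ≤ B.valuation f₀ * 1 := mul_le_mul_right (hpoly _) _
        _ < 1 := by rw [mul_one]; exact hv
    have hnum0 : f₀.num ≠ 0 := RatFunc.num_ne_zero hf₀
    obtain ⟨z₀, hz₀⟩ : ∃ z₀ : ℂ, B.valuation (algebraMap ℂ[X] (RatFunc ℂ) (X - C z₀)) < 1 := by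
      by_contra hcon
      push Not at hcon
      have hone : ∀ z : ℂ, B.valuation (algebraMap ℂ[X] (RatFunc ℂ) (X - C z)) = 1 :=
        fun z => le_antisymm (hpoly _) (hcon z)
      have hsplit := (IsAlgClosed.splits f₀.num).eq_prod_roots
      rw [hsplit, map_mul, map_mul, RatFunc.algebraMap_C,
        val_C B hC (leadingCoeff_ne_zero.2 hnum0), one_mul, map_multiset_prod,
        map_multiset_prod, Multiset.map_map, Multiset.map_map] at hnum
      have : (Multiset.map ((B.valuation ∘ (algebraMap ℂ[X] (RatFunc ℂ))) ∘ fun a => X - C a)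
          f₀.num.roots) = Multiset.map (fun _ => 1) f₀.num.roots := by
        apply Multiset.map_congr rfl
        intro a _
        exact hone a
      rw [this] at hnum
      simp at hnum
    refine ⟨z₀, fun g => ⟨hpoly g, ?_⟩⟩
    have hdec : g = C (g.eval z₀) + (X - C z₀) * (g /ₘ (X - C z₀)) := by
      conv_lhs => rw [← modByMonic_add_div g (X - C z₀), modByMonic_X_sub_C_eq_C_eval]
    have hsmall : B.valuation (algebraMap ℂ[X] (RatFunc ℂ) ((X - C z₀) * (g /ₘ (X - C z₀)))) < 1 := by
      rw [map_mul, map_mul]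
      calc _ ≤ B.valuation (algebraMap ℂ[X] (RatFunc ℂ) (X - C z₀)) * 1 :=
            mul_le_mul_right (hpoly _) _
        _ < 1 := by rw [mul_one]; exact hz₀
    constructor
    · intro h
      by_contra hne
      have h1 : B.valuation (RatFunc.C (g.eval z₀)) < 1 := by
        have : RatFunc.C (g.eval z₀) = algebraMap ℂ[X] (RatFunc ℂ) g -
            algebraMap ℂ[X] (RatFunc ℂ) ((X - C z₀) * (g /ₘ (X - C z₀))) := by
          conv_rhs => enter [1]; rw [hdec]
          rw [map_add, RatFunc.algebraMap_C]; ring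
        rw [this]
        exact lt_of_le_of_lt (Valuation.map_sub _ _ _) (max_lt h hsmall)
      rw [val_C B hC hne] at h1
      exact lt_irrefl _ h1
    · intro h
      rw [hdec, h, map_zero, zero_add]
      exact hsmall
  · right
    push Not at hX
    refine ⟨hX, ?_⟩
    have key : ∀ (n : ℕ) (g : ℂ[X]), g ≠ 0 → g.natDegree ≤ n →
        B.valuation (algebraMap ℂ[X] (RatFunc ℂ) g) = (B.valuation RatFunc.X) ^ g.natDegree := by
      intro n
      induction n with
      | zero =>
        intro g hg hn
        have hn0 : g.natDegree = 0 := Nat.le_zero.1 hn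
        rw [hn0, pow_zero]
        obtain ⟨a, rfl⟩ := natDegree_eq_zero.1 hn0
        rw [RatFunc.algebraMap_C]
        apply val_C B hC
        rintro rfl; simp at hg
      | succ n ih =>
        intro g hg hn
        by_cases hn' : g.natDegree ≤ n
        · exact ih g hg hn'
        · have hdeg : g.natDegree = n + 1 := by omega
          have hlead : B.valuation (algebraMap ℂ[X] (RatFunc ℂ)
              (monomial g.natDegree g.leadingCoeff)) = (B.valuation RatFunc.X) ^ g.natDegree := by
            rw [RatFunc.algebraMap_monomial, map_mul, map_pow,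
              val_C B hC (leadingCoeff_ne_zero.2 hg), one_mul]
          have hpos : (0 : ℕ) < g.natDegree := by omega
          have herase : B.valuation (algebraMap ℂ[X] (RatFunc ℂ) g.eraseLead) <
              (B.valuation RatFunc.X) ^ g.natDegree := by
            by_cases he : g.eraseLead = 0
            · rw [he, map_zero, map_zero]
              exact pow_pos (lt_trans zero_lt_one hX) _
            · have hed : g.eraseLead.natDegree ≤ n := by
                have := eraseLead_natDegree_le g
                omega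
              rw [ih _ he hed]
              exact pow_lt_pow_right₀ hX (by omega)
          have hsum : g = g.eraseLead + monomial g.natDegree g.leadingCoeff :=
            (eraseLead_add_monomial_natDegree_leadingCoeff g).symm
          conv_lhs => rw [hsum]
          rw [map_add, Valuation.map_add_eq_of_lt_right _ (by rw [hlead]; exact herase), hlead]
    intro g hg
    exact key _ g hg le_rfl

end place

/-- Evaluation of a bivariate polynomial `H(X, Y)` (an element of `ℂ[Y][X]`) at `X = u`,
`Y = R`. -/
noncomputable def evalK (R u : RatFunc ℂ) : ℂ[X][X] →+* RatFunc ℂ :=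
  eval₂RingHom (aeval R : ℂ[X] →ₐ[ℂ] RatFunc ℂ).toRingHom u

/-- Evaluation of a bivariate polynomial `H(X, Y)` at the point `X = c`, `Y = y` of `ℂ²`. -/
noncomputable def evalC (c y : ℂ) : ℂ[X][X] →+* ℂ :=
  eval₂RingHom (evalRingHom y) c

theorem evalK_map_C (R u : RatFunc ℂ) (p : ℂ[X]) : evalK R u (p.map C) = aeval u p := by
  simp only [evalK, coe_eval₂RingHom, eval₂_map]
  rw [aeval_def]
  congr 1
  ext a
  simp

theorem evalK_C (R u : RatFunc ℂ) (p : ℂ[X]) : evalK R u (C p) = aeval R p := by
  simp [evalK]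

theorem evalK_X (R u : RatFunc ℂ) : evalK R u X = u := by
  simp [evalK]

theorem evalC_map_C (c y : ℂ) (p : ℂ[X]) : evalC c y (p.map C) = p.eval c := by
  simp only [evalC, coe_eval₂RingHom, eval₂_map]
  rw [eval, eval₂_eq_eval_map, eval₂_eq_eval_map]
  congr 2
  ext a
  simp

theorem evalC_C (c y : ℂ) (p : ℂ[X]) : evalC c y (C p) = p.eval y := by
  simp [evalC]

theorem evalC_X (c y : ℂ) : evalC c y X = c := by
  simp [evalC]

/-- A bivariate polynomial of low degree in `X` vanishing at `(u, R)` is zero. -/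
theorem low_degree {R u : RatFunc ℂ} (hR : Nonconst R)
    (hgen : IntermediateField.adjoin ℂ⟮R⟯ {u} = ⊤) (Rm : ℂ[X][X])
    (hdeg : Rm.natDegree < deg R) (h0 : evalK R u Rm = 0) : Rm = 0 := by
  by_contra hne
  let ι : ℂ[X] →+* ℂ⟮R⟯ := (aeval (AdjoinSimple.gen ℂ R) : ℂ[X] →ₐ[ℂ] ℂ⟮R⟯).toRingHom
  have hι : ∀ p, ((ι p : ℂ⟮R⟯) : RatFunc ℂ) = aeval R p := by
    intro p
    show ((aeval (AdjoinSimple.gen ℂ R) p : ℂ⟮R⟯) : RatFunc ℂ) = aeval R p
    rw [← IntermediateField.coe_val, ← aeval_algHom_apply]
    rfl
  have hιinj : Function.Injective ι := by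
    rw [injective_iff_map_eq_zero]
    intro p hp
    by_contra hp0
    have := hι p
    rw [hp] at this
    exact aeval_ne_zero hR hp0 this.symm
  have hmap : Rm.map ι ≠ 0 := (Polynomial.map_ne_zero_iff hιinj).2 hne
  have hval : aeval u (Rm.map ι) = 0 := by
    rw [aeval_def, eval₂_map]
    rw [← h0, evalK, coe_eval₂RingHom]
    congr 1
    ext p
    exact hι _
    exact hι _
  have : FiniteDimensional ℂ⟮R⟯ (RatFunc ℂ) := by
    apply Module.finite_of_finrank_pos
    rw [finrank_adjoin]
    exact deg_pos_iff.2 hR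
  have hint : IsIntegral ℂ⟮R⟯ u := IsIntegral.of_finite _ _
  have h1 : (minpoly ℂ⟮R⟯ u).natDegree = deg R := by
    rw [← IntermediateField.adjoin.finrank hint, hgen, IntermediateField.finrank_top',
      finrank_adjoin]
  have h2 : (minpoly ℂ⟮R⟯ u).natDegree ≤ (Rm.map ι).natDegree :=
    natDegree_le_of_dvd (minpoly.dvd _ _ hval) hmap
  rw [h1, natDegree_map_eq_of_injective hιinj] at h2
  omega

/-- The defining polynomial of the fibre product. -/
noncomputable def fibPoly (R v : RatFunc ℂ) : ℂ[X][X] :=
  (R.num.map C) * C v.denom - (R.denom.map C) * C v.num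

theorem evalK_fibPoly {R u v : RatFunc ℂ} (hR : Nonconst R) (hu : Nonconst u)
    (h : comp R u = comp v R) : evalK R u (fibPoly R v) = 0 := by
  have h1 : comp R u = aeval u R.num / aeval u R.denom := by
    conv_lhs => rw [← RatFunc.num_div_denom R]
    rw [comp_div hu, comp_algebraMap hu, comp_algebraMap hu]
  have h2 : comp v R = aeval R v.num / aeval R v.denom := by
    conv_lhs => rw [← RatFunc.num_div_denom v]
    rw [comp_div hR, comp_algebraMap hR, comp_algebraMap hR]
  rw [h1, h2, div_eq_div_iff (aeval_ne_zero hu R.denom_ne_zero)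
    (aeval_ne_zero hR v.denom_ne_zero)] at h
  rw [fibPoly, map_sub, map_mul, map_mul, evalK_map_C, evalK_map_C, evalK_C, evalK_C, h]
  ring

theorem evalC_fibPoly (R v : RatFunc ℂ) (c y : ℂ) :
    evalC c y (fibPoly R v) = R.num.eval c * v.denom.eval y - R.denom.eval c * v.num.eval y := by
  rw [fibPoly, map_sub, map_mul, map_mul, evalC_map_C, evalC_map_C, evalC_C, evalC_C]

theorem coeff_fibPoly (R v : RatFunc ℂ) (n : ℕ) :
    (fibPoly R v).coeff n = C (R.num.coeff n) * v.denom - C (R.denom.coeff n) * v.num := by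
  rw [fibPoly, coeff_sub, coeff_mul_C, coeff_mul_C, coeff_map, coeff_map]

/-- Every polynomial relation between `u` and `R` holds at the points of the fibre product. -/
theorem vanish {R u v : RatFunc ℂ} (hR : Nonconst R) (hu : Nonconst u)
    (hgen : IntermediateField.adjoin ℂ⟮R⟯ {u} = ⊤)
    (hcomm : comp R u = comp v R) {c y : ℂ}
    (hpt : R.num.eval c * v.denom.eval y = R.denom.eval c * v.num.eval y)
    (hlc : R.num.coeff (deg R) * v.denom.eval y - R.denom.coeff (deg R) * v.num.eval y ≠ 0)
    {H : ℂ[X][X]} (hH : evalK R u H = 0) : evalC c y H = 0 := by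
  set F := fibPoly R v with hF
  have hFle : F.natDegree ≤ deg R := by
    rw [natDegree_le_iff_coeff_eq_zero]
    intro N hN
    rw [hF, coeff_fibPoly, coeff_eq_zero_of_natDegree_lt (lt_of_le_of_lt (le_max_left _ _) hN),
      coeff_eq_zero_of_natDegree_lt (lt_of_le_of_lt (le_max_right _ _) hN)]
    simp
  have hcoef : (F.coeff (deg R)).eval y ≠ 0 := by
    rw [hF, coeff_fibPoly]
    simpa using hlc
  have hFd : F.natDegree = deg R := by
    apply le_antisymm hFle
    apply le_natDegree_of_ne_zero
    intro h0; rw [h0] at hcoef; simp at hcoef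
  have hFpos : 0 < F.natDegree := by rw [hFd]; exact deg_pos_iff.2 hR
  obtain ⟨m, G, Rm, h1, h2⟩ := pseudo_div F hFpos _ H le_rfl
  have h3 : evalK R u Rm = 0 := by
    have := congrArg (evalK R u) h1
    rw [map_mul, map_add, map_mul, hH, mul_zero, hF, evalK_fibPoly hR hu hcomm, zero_mul,
      zero_add] at this
    exact this.symm
  have h4 : Rm = 0 := low_degree hR hgen Rm (by rw [← hFd]; exact h2) h3
  rw [h4, add_zero] at h1
  have h5 := congrArg (evalC c y) h1
  rw [map_mul, map_mul, evalC_C, eval_pow, hF, evalC_fibPoly, hpt, sub_self, zero_mul,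
    mul_eq_zero] at h5
  rcases h5 with h5 | h5
  · exfalso
    have h7 : eval y (fibPoly R v).leadingCoeff ≠ 0 := by
      rw [leadingCoeff, ← hF, hFd]; exact hcoef
    exact (pow_ne_zero m h7) h5
  · exact h5

/-- **Surjectivity onto the fibre product.** -/
theorem exists_point {R u v : RatFunc ℂ} (hR : Nonconst R) (hu : Nonconst u)
    (hgen : IntermediateField.adjoin ℂ⟮R⟯ {u} = ⊤)
    (hcomm : comp R u = comp v R) {c y : ℂ}
    (hpt : R.num.eval c * v.denom.eval y = R.denom.eval c * v.num.eval y)
    (hlc : R.num.coeff (deg R) * v.denom.eval y - R.denom.coeff (deg R) * v.num.eval y ≠ 0)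
    (hy : (R.num - C y * R.denom).natDegree = deg R) :
    ∃ z₀ : ℂ, (∃ d, HasJet u z₀ c d) ∧ (∃ d, HasJet R z₀ y d) := by
  -- the subring generated by `u` and `R`
  let A : Subring (RatFunc ℂ) := (evalK R u).range
  let Φ : ℂ[X][X] →+* A := (evalK R u).rangeRestrict
  have hΦ : Function.Surjective Φ := RingHom.rangeRestrict_surjective _
  let I : Ideal A := (RingHom.ker (evalC c y)).map Φ
  have hI : I ≠ ⊤ := by
    rw [Ideal.ne_top_iff_one]
    intro h1
    rw [Ideal.mem_map_iff_of_surjective Φ hΦ] at h1
    obtain ⟨H, hH, hH1⟩ := h1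
    have h2 : evalK R u (H - 1) = 0 := by
      rw [map_sub, map_one, sub_eq_zero]
      exact congrArg Subtype.val hH1
    have h3 := vanish hR hu hgen hcomm hpt hlc h2
    rw [map_sub, map_one, sub_eq_zero] at h3
    rw [RingHom.mem_ker] at hH
    rw [hH] at h3
    exact zero_ne_one h3
  obtain ⟨B, hAB, hIB⟩ := Ideal.image_subset_nonunits_valuationSubring I hI
  have hmemA : ∀ H : ℂ[X][X], evalK R u H ∈ A := fun H => ⟨H, rfl⟩
  have hC : ∀ a : ℂ, RatFunc.C a ∈ B := by
    intro a
    apply hAB
    have := hmemA (C (C a))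
    rw [evalK_C, aeval_C, RatFunc.algebraMap_eq_C] at this
    exact this
  have hsmall : ∀ H : ℂ[X][X], evalC c y H = 0 → B.valuation (evalK R u H) < 1 := by
    intro H hH
    rw [← ValuationSubring.mem_nonunits_iff]
    apply hIB
    exact ⟨Φ H, Ideal.mem_map_of_mem _ hH, rfl⟩
  have hle : ∀ H : ℂ[X][X], B.valuation (evalK R u H) ≤ 1 := by
    intro H
    rw [B.valuation_le_one_iff]
    exact hAB (hmemA H)
  have huc : B.valuation (u - RatFunc.C c) < 1 := by
    have := hsmall (X - C (C c)) (by rw [map_sub, evalC_X, evalC_C, eval_C, sub_self])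
    rwa [map_sub, evalK_X, evalK_C, aeval_C, RatFunc.algebraMap_eq_C] at this
  have hRy : B.valuation (R - RatFunc.C y) < 1 := by
    have := hsmall (C (X - C y)) (by rw [evalC_C]; simp)
    rwa [evalK_C, map_sub, aeval_X, aeval_C, RatFunc.algebraMap_eq_C] at this
  have huB : B.valuation u ≤ 1 := by
    have := hle X
    rwa [evalK_X] at this
  have hRB : B.valuation R ≤ 1 := by
    have := hle (C X)
    rwa [evalK_C, aeval_X] at this
  have hu0 : u - RatFunc.C c ≠ 0 := sub_ne_zero.2 (hu c)
  rcases place B hC hu0 huc with ⟨z₀, hz₀⟩ | ⟨hX, hinf⟩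
  · refine ⟨z₀, ?_, ?_⟩
    · have h1 : (u.num - C c * u.denom).eval z₀ = 0 := by
        rw [← (hz₀ _).2, map_sub, map_mul, RatFunc.algebraMap_C, ← num_denom_eq, ← sub_mul,
          map_mul]
        calc _ ≤ B.valuation (u - RatFunc.C c) * 1 := mul_le_mul_right (hz₀ _).1 _
          _ < 1 := by rw [mul_one]; exact huc
      have h2 : u.denom.eval z₀ ≠ 0 := by
        intro h0
        have h3 : u.num.eval z₀ = 0 := by
          rw [eval_sub, eval_mul, h0, mul_zero, sub_zero] at h1; exact h1
        obtain ⟨a, b, hab⟩ := u.isCoprime_num_denom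
        have := congrArg (Polynomial.eval z₀) hab
        rw [eval_add, eval_mul, eval_mul, h0, h3] at this
        simp at this
      refine ⟨_, (hasJet_of_eq (num_denom_eq u) h2).congr ?_ rfl⟩
      rw [eval_sub, eval_mul, eval_C, sub_eq_zero] at h1
      rw [h1]; field_simp
    · have h1 : (R.num - C y * R.denom).eval z₀ = 0 := by
        rw [← (hz₀ _).2, map_sub, map_mul, RatFunc.algebraMap_C, ← num_denom_eq, ← sub_mul,
          map_mul]
        calc _ ≤ B.valuation (R - RatFunc.C y) * 1 := mul_le_mul_right (hz₀ _).1 _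
          _ < 1 := by rw [mul_one]; exact hRy
      have h2 : R.denom.eval z₀ ≠ 0 := by
        intro h0
        have h3 : R.num.eval z₀ = 0 := by
          rw [eval_sub, eval_mul, h0, mul_zero, sub_zero] at h1; exact h1
        obtain ⟨a, b, hab⟩ := R.isCoprime_num_denom
        have := congrArg (Polynomial.eval z₀) hab
        rw [eval_add, eval_mul, eval_mul, h0, h3] at this
        simp at this
      refine ⟨_, (hasJet_of_eq (num_denom_eq R) h2).congr ?_ rfl⟩
      rw [eval_sub, eval_mul, eval_C, sub_eq_zero] at h1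
      rw [h1]; field_simp
  · exfalso
    have h1 : R.num - C y * R.denom ≠ 0 := by
      intro h0
      have := deg_pos_iff.2 hR
      rw [h0, natDegree_zero] at hy
      omega
    have h2 := hinf _ h1
    have h3 := hinf _ R.denom_ne_zero
    rw [map_sub, map_mul, RatFunc.algebraMap_C, ← num_denom_eq, ← sub_mul, map_mul, h3, hy] at h2
    have h4 : B.valuation RatFunc.X ^ deg R < B.valuation RatFunc.X ^ R.denom.natDegree := by
      rw [← h2]
      calc _ < 1 * B.valuation RatFunc.X ^ R.denom.natDegree :=
            mul_lt_mul_of_pos_right hRy (pow_pos (lt_trans zero_lt_one hX) _)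
        _ = _ := one_mul _
    have h5 := (pow_lt_pow_iff_right₀ hX).1 h4
    have h6 : R.denom.natDegree ≤ deg R := le_max_right _ _
    omega

end Pool.Agent.Helper74_Centr
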