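import Pool.Agent.Helper74_Centr.Defs
import Pool.Agent.Helper74_Centr.Key

/-!
# A criterion for a rational function not to be a Lattès map
-/

namespace Pool.Agent.Helper74_Centr

open Polynomial Topology Filter

theorem meromorphicAt_polyEval (p : ℂ[X]) {Θ : ℂ → ℂ} {z : ℂ} (h : MeromorphicAt Θ z) :
    MeromorphicAt (fun x => p.eval (Θ x)) z := by
  induction p using Polynomial.induction_on' with
  | add p q hp hq =>
    simp only [eval_add]
    exact hp.add hq
  | monomial n a =>
    simp only [eval_monomial]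
    exact (MeromorphicAt.const a z).mul (h.pow n)

/-- The order of contact with a critical point is increased by `Q`. -/
theorem order_step {Q : RatFunc ℂ} (hQ : Nonconst Q) {c c' : ℂ} (hj : HasJet Q c c' 0)
    {Θ : ℂ → ℂ} {z : ℂ} (hΘ : MeromorphicAt Θ z) {k : ℤ} (hk : 0 < k)
    (hord : meromorphicOrderAt (fun x => Θ x - c) z = k) :
    ∃ m : ℤ, k < m ∧
      meromorphicOrderAt (fun x => RatFunc.eval (RingHom.id ℂ) (Θ x) Q - c') z = m := by
  have hden := hj.denom_ne_zero
  obtain ⟨e1, e2⟩ := hj.eval_eq (num_denom_eq Q)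
  set P := Q.num - C c' * Q.denom with hP
  have hP0 : P ≠ 0 := fibP_ne_zero hQ c'
  have hPc : P.eval c = 0 := by rw [hP, eval_sub, eval_mul, eval_C, e1, sub_self]
  have hPc' : (derivative P).eval c = 0 := by
    rw [hP, derivative_sub, derivative_C_mul, eval_sub, eval_mul, eval_C, e2]; ring
  set j := P.rootMultiplicity c with hj'
  have hj2 : 1 < j := (one_lt_rootMultiplicity_iff_isRoot hP0).2 ⟨hPc, hPc'⟩
  obtain ⟨S, hPS, hS⟩ := exists_eq_pow_rootMultiplicity_mul_and_not_dvd P hP0 c
  rw [← hj'] at hPS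
  have hSc : S.eval c ≠ 0 := fun h => hS (dvd_iff_isRoot.2 h)
  have htend : Tendsto Θ (𝓝[≠] z) (𝓝 c) := by
    have h1 : Tendsto (fun x => Θ x - c) (𝓝[≠] z) (𝓝 0) := by
      apply tendsto_zero_of_meromorphicOrderAt_pos
      rw [hord]; exact_mod_cast hk
    have h2 := h1.add_const c
    simpa using h2
  have htp : ∀ p : ℂ[X], Tendsto (fun x => p.eval (Θ x)) (𝓝[≠] z) (𝓝 (p.eval c)) := fun p =>
    (p.continuous.tendsto c).comp htend
  set u : ℂ → ℂ := fun x => S.eval (Θ x) / Q.denom.eval (Θ x) with hu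
  have hum : MeromorphicAt u z := (meromorphicAt_polyEval S hΘ).div (meromorphicAt_polyEval _ hΘ)
  have hu0 : meromorphicOrderAt u z = 0 := by
    rw [← tendsto_ne_zero_iff_meromorphicOrderAt_eq_zero hum]
    exact ⟨S.eval c / Q.denom.eval c, div_ne_zero hSc hden, (htp S).div (htp _) hden⟩
  have hev : ∀ᶠ x in 𝓝[≠] z, Q.denom.eval (Θ x) ≠ 0 := (htp Q.denom).eventually_ne hden
  have heq : (fun x => RatFunc.eval (RingHom.id ℂ) (Θ x) Q - c') =ᶠ[𝓝[≠] z]
      (fun x => (Θ x - c) ^ j * u x) := by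
    filter_upwards [hev] with x hx
    have h1 : P.eval (Θ x) = (Θ x - c) ^ j * S.eval (Θ x) := by
      rw [hPS, eval_mul, eval_pow, eval_sub, eval_X, eval_C]
    rw [hP, eval_sub, eval_mul, eval_C] at h1
    show eval₂ (RingHom.id ℂ) (Θ x) Q.num / eval₂ (RingHom.id ℂ) (Θ x) Q.denom - c' = _
    rw [eval₂_id, eval₂_id, hu]
    field_simp
    linear_combination h1
  refine ⟨j * k, ?_, ?_⟩
  · have : (1 : ℤ) < j := by exact_mod_cast hj2
    nlinarith
  · rw [meromorphicOrderAt_congr heq]
    have hm : MeromorphicAt (fun x => Θ x - c) z := hΘ.sub (MeromorphicAt.const c z)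
    have h1 := meromorphicOrderAt_mul (hm.pow j) hum
    rw [hu0, add_zero, meromorphicOrderAt_pow hm, hord] at h1
    have h2 : ((fun x => Θ x - c) ^ j * u : ℂ → ℂ) = fun x => (Θ x - c) ^ j * u x := rfl
    rw [← h2, h1]
    push_cast
    rfl

theorem codiscrete_iff {p : ℂ → Prop} :
    (∀ᶠ x in codiscrete ℂ, p x) ↔ ∀ z, ∀ᶠ x in 𝓝[≠] z, p x := by
  rw [Filter.Eventually, mem_codiscrete]
  refine forall_congr' (fun z => ?_)
  rw [disjoint_principal_right, compl_compl]
  rfl

/-- Every point of the plane is congruent modulo the lattice to a point of a bounded set. -/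
theorem exists_reduction {ω₁ ω₂ : ℂ} (hli : LinearIndependent ℝ ![ω₁, ω₂]) :
    ∃ r : ℝ, ∀ z : ℂ, ∃ v ∈ Submodule.span ℤ {ω₁, ω₂}, ∃ y : ℂ, ‖y‖ ≤ r ∧ z = y + v := by
  let b := basisOfLinearIndependentOfCardEqFinrank hli
    (by rw [Complex.finrank_real_complex, Fintype.card_fin])
  have hb : Set.range b = {ω₁, ω₂} := by
    rw [coe_basisOfLinearIndependentOfCardEqFinrank]
    simp [Set.pair_comm]
  obtain ⟨r, hr⟩ := (ZSpan.fundamentalDomain_isBounded b).exists_norm_le
  refine ⟨r, fun z => ⟨ZSpan.floor b z, ?_, ZSpan.fract b z, hr _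
    (ZSpan.fract_mem_fundamentalDomain b z), ?_⟩⟩
  · rw [← hb]; exact (ZSpan.floor b z).2
  · rw [ZSpan.fract_apply]; ring

section elliptic

variable {ω₁ ω₂ : ℂ} {Θ : ℂ → ℂ}

theorem periodic_span (h1 : ∀ z, Θ (z + ω₁) = Θ z) (h2 : ∀ z, Θ (z + ω₂) = Θ z) {v : ℂ}
    (hv : v ∈ Submodule.span ℤ {ω₁, ω₂}) : ∀ z, Θ (z + v) = Θ z := by
  induction hv using Submodule.span_induction with
  | mem x hx =>
    rcases hx with rfl | hx
    · exact h1
    · rw [Set.mem_singleton_iff] at hx
      subst hx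
      exact h2
  | zero => intro z; rw [add_zero]
  | add x y _ _ hx hy => intro z; rw [← add_assoc, hy, hx]
  | smul n x _ hx =>
    have hneg : ∀ z, Θ (z - x) = Θ z := by
      intro z
      have := hx (z - x)
      rw [sub_add_cancel] at this
      exact this.symm
    induction n using Int.induction_on with
    | zero => intro z; rw [zero_smul, add_zero]
    | succ n ih =>
      intro z
      rw [add_smul, one_smul, ← add_assoc, hx, ih]
    | pred n ih =>
      intro z
      rw [sub_smul, one_smul, ← add_sub_assoc, hneg, ih]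

variable (hli : LinearIndependent ℝ ![ω₁, ω₂]) (hmer : ∀ z, MeromorphicAt Θ z)
  (h1 : ∀ z, Θ (z + ω₁) = Θ z) (h2 : ∀ z, Θ (z + ω₂) = Θ z)
  (hnc : ¬ ∃ k : ℂ, Θ =ᶠ[Filter.codiscrete ℂ] fun _ => k)

include hmer hnc in
/-- A nonconstant meromorphic function has finite order at all points. -/
theorem order_ne_top (c z : ℂ) : meromorphicOrderAt (fun x => Θ x - c) z ≠ ⊤ := by
  have hm : MeromorphicOn (fun x => Θ x - c) Set.univ := fun x _ =>
    (hmer x).sub (MeromorphicAt.const c x)
  intro htop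
  have hall : ∀ y, meromorphicOrderAt (fun x => Θ x - c) y = ⊤ := by
    intro y
    by_contra hy
    exact hm.meromorphicOrderAt_ne_top_of_isPreconnected isPreconnected_univ (Set.mem_univ y)
      (Set.mem_univ z) hy htop
  apply hnc
  refine ⟨c, codiscrete_iff.2 (fun y => ?_)⟩
  filter_upwards [meromorphicOrderAt_eq_top_iff.1 (hall y)] with x hx
  exact sub_eq_zero.1 hx

include hmer hnc hli h1 h2 in
/-- The orders of vanishing are bounded. -/
theorem order_bounded (c : ℂ) : ∃ N : ℤ, ∀ z, meromorphicOrderAt (fun x => Θ x - c) z ≤ N := by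
  obtain ⟨r, hr⟩ := exists_reduction hli
  obtain ⟨N, hN⟩ : ∃ N : ℤ, ∀ z ∈ Metric.closedBall (0 : ℂ) r,
      meromorphicOrderAt (fun x => Θ x - c) z ≤ N := by
    refine (isCompact_closedBall (0 : ℂ) r).induction_on
      (p := fun s => ∃ N : ℤ, ∀ z ∈ s, meromorphicOrderAt (fun x => Θ x - c) z ≤ N) ?_ ?_ ?_ ?_
    · exact ⟨0, fun z hz => absurd hz (Set.notMem_empty z)⟩
    · rintro s t hst ⟨N, hN⟩
      exact ⟨N, fun z hz => hN z (hst hz)⟩
    · rintro s t ⟨N, hN⟩ ⟨N', hN'⟩
      refine ⟨max N N', fun z hz => ?_⟩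
      rcases hz with hz | hz
      · exact (hN z hz).trans (by exact_mod_cast le_max_left _ _)
      · exact (hN' z hz).trans (by exact_mod_cast le_max_right _ _)
    · intro z _
      have hm : MeromorphicAt (fun x => Θ x - c) z := (hmer z).sub (MeromorphicAt.const c z)
      have hfin := order_ne_top hmer hnc c z
      have he : ∀ᶠ x in 𝓝[≠] z, meromorphicOrderAt (fun x => Θ x - c) x = 0 := by
        filter_upwards [hm.eventually_analyticAt,
          (meromorphicOrderAt_ne_top_iff_eventually_ne_zero hm).1 hfin] with x hx hx0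
        rw [hx.meromorphicOrderAt_eq, hx.analyticOrderAt_eq_zero.2 hx0]
        rfl
      obtain ⟨k, hk⟩ := WithTop.ne_top_iff_exists.1 hfin
      rw [eventually_nhdsWithin_iff] at he
      refine ⟨{x | meromorphicOrderAt (fun x => Θ x - c) x ≤ (max k 0 : ℤ)}, ?_, max k 0,
        fun x hx => hx⟩
      apply mem_nhdsWithin_of_mem_nhds
      filter_upwards [he] with x hx
      by_cases hxz : x = z
      · subst hxz
        show meromorphicOrderAt (fun x => Θ x - c) x ≤ (max k 0 : ℤ)
        rw [← hk]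
        exact_mod_cast le_max_left _ _
      · show meromorphicOrderAt (fun x => Θ x - c) x ≤ (max k 0 : ℤ)
        rw [hx hxz]
        exact_mod_cast le_max_right _ _
  refine ⟨N, fun z => ?_⟩
  obtain ⟨v, hv, y, hy, rfl⟩ := hr z
  have hper := periodic_span h1 h2 hv
  have e : meromorphicOrderAt (fun x => Θ x - c) (y + v) =
      meromorphicOrderAt (fun x => Θ x - c) y := by
    rw [← meromorphicOrderAt_comp_add_const_eq_meromorphicOrderAt]
    congr 1
    funext x
    simp only [Function.comp]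
    rw [hper]
  rw [e]
  exact hN y (by rw [Metric.mem_closedBall, dist_zero_right]; exact hy)

include hmer hnc hli h1 h2 in
/-- A nonconstant elliptic function takes every value. -/
theorem exists_order_pos (c : ℂ) : ∃ z, 0 < meromorphicOrderAt (fun x => Θ x - c) z := by
  by_contra hcon
  push Not at hcon
  set g : ℂ → ℂ := (fun x => Θ x - c)⁻¹ with hg
  have hgm : MeromorphicOn g Set.univ := fun x _ =>
    ((hmer x).sub (MeromorphicAt.const c x)).inv
  have hgo : ∀ z, 0 ≤ meromorphicOrderAt g z := by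
    intro z
    rw [hg, meromorphicOrderAt_inv]
    obtain ⟨k, hk⟩ := WithTop.ne_top_iff_exists.1 (order_ne_top hmer hnc c z)
    have := hcon z
    rw [← hk] at this ⊢
    have h3 : k ≤ 0 := by exact_mod_cast this
    have h4 : (0 : ℤ) ≤ -k := by omega
    exact_mod_cast h4
  set H := toMeromorphicNFOn g Set.univ with hH
  have hHg : ∀ z, H =ᶠ[𝓝[≠] z] g := fun z => hgm.toMeromorphicNFOn_eq_self_on_nhdsNE (Set.mem_univ z)
  have hHan : ∀ z, AnalyticAt ℂ H z := by
    intro z
    rw [← (meromorphicNFOn_toMeromorphicNFOn g Set.univ (Set.mem_univ z)).meromorphicOrderAt_nonneg_iff_analyticAt]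
    rw [meromorphicOrderAt_congr (hHg z)]
    exact hgo z
  have hHc : Continuous H := continuous_iff_continuousAt.2 (fun z => (hHan z).continuousAt)
  -- periodicity
  obtain ⟨r, hr⟩ := exists_reduction hli
  have hHp : ∀ v ∈ Submodule.span ℤ {ω₁, ω₂}, ∀ z, H (z + v) = H z := by
    intro v hv z
    have hper := periodic_span h1 h2 hv
    have e1 : ∀ᶠ x in 𝓝[≠] z, H (x + v) = H x := by
      have hshift : Tendsto (fun x => x + v) (𝓝[≠] z) (𝓝[≠] (z + v)) := by
        apply tendsto_nhdsWithin_of_tendsto_nhds_of_eventually_within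
        · exact ((continuous_id.add continuous_const).tendsto z).mono_left nhdsWithin_le_nhds
        · filter_upwards [self_mem_nhdsWithin] with x hx
          intro h
          exact hx (add_right_cancel h)
      filter_upwards [hshift.eventually (hHg (z + v)), hHg z] with x hx1 hx2
      rw [hx1, hx2, hg]
      simp only [Pi.inv_apply, hper]
    have t1 : Tendsto (fun x => H (x + v)) (𝓝[≠] z) (𝓝 (H (z + v))) :=
      ((hHc.comp (continuous_id.add continuous_const)).tendsto z).mono_left nhdsWithin_le_nhds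
    have t2 : Tendsto H (𝓝[≠] z) (𝓝 (H z)) := (hHc.tendsto z).mono_left nhdsWithin_le_nhds
    exact tendsto_nhds_unique (t1.congr' e1) t2
  have hbdd : Bornology.IsBounded (Set.range H) := by
    obtain ⟨M, hM⟩ := (isCompact_closedBall (0 : ℂ) r).exists_bound_of_continuousOn hHc.continuousOn
    rw [isBounded_iff_forall_norm_le]
    refine ⟨M, ?_⟩
    rintro _ ⟨z, rfl⟩
    obtain ⟨v, hv, y, hy, rfl⟩ := hr z
    rw [hHp v hv]
    exact hM y (by rw [Metric.mem_closedBall, dist_zero_right]; exact hy)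
  have hdiff : Differentiable ℂ H := fun z => (hHan z).differentiableAt
  obtain ⟨k, hk⟩ := hdiff.exists_const_forall_eq_of_bounded hbdd
  apply hnc
  refine ⟨c + k⁻¹, codiscrete_iff.2 (fun z => ?_)⟩
  filter_upwards [hHg z] with x hx
  rw [hk, hg] at hx
  simp only [Pi.inv_apply] at hx
  rw [hx, inv_inv]; ring

end elliptic

/-- **A rational function with a periodic critical point is not a Lattès map.** Here `C` is a finite
nonempty set of critical points mapped to itself. -/
theorem not_lattes {Q : RatFunc ℂ} (hQ : Nonconst Q) (C : Set ℂ) (hfin : C.Finite)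
    (hne : C.Nonempty) (hC : ∀ c ∈ C, ∃ c' ∈ C, HasJet Q c c' 0) : ¬ IsLattes Q := by
  rintro ⟨ω₁, ω₂, a, b, Θ, hli, -, -, hmer, h1, h2, hnc, hsemi⟩
  have hsemi' := codiscrete_iff.1 hsemi
  choose N hN using fun c => order_bounded hli hmer h1 h2 hnc c
  obtain ⟨B, hB⟩ : ∃ B : ℤ, ∀ c ∈ C, N c ≤ B := by
    obtain ⟨B, hB⟩ := (hfin.image N).bddAbove
    exact ⟨B, fun c hc => hB ⟨c, hc, rfl⟩⟩
  let Z : ℤ → Prop := fun m => 0 < m ∧ ∃ c ∈ C, ∃ z, meromorphicOrderAt (fun x => Θ x - c) z = m
  obtain ⟨m₀, hm₀, hmax⟩ : ∃ ub : ℤ, Z ub ∧ ∀ z : ℤ, Z z → z ≤ ub := by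
    apply Int.exists_greatest_of_bdd
    · refine ⟨B, ?_⟩
      rintro m ⟨-, c, hc, z, hz⟩
      have := hN c z
      rw [hz] at this
      have h3 : m ≤ N c := by exact_mod_cast this
      exact h3.trans (hB c hc)
    · obtain ⟨c, hc⟩ := hne
      obtain ⟨z, hz⟩ := exists_order_pos hli hmer h1 h2 hnc c
      obtain ⟨k, hk⟩ := WithTop.ne_top_iff_exists.1 (order_ne_top hmer hnc c z)
      refine ⟨k, ?_, c, hc, z, hk.symm⟩
      rw [← hk] at hz
      exact_mod_cast hz
  obtain ⟨hpos, c, hc, z, hz⟩ := hm₀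
  obtain ⟨c', hc', hj⟩ := hC c hc
  obtain ⟨m, hm, ho⟩ := order_step hQ hj (hmer z) hpos hz
  have hcongr : (fun x => RatFunc.eval (RingHom.id ℂ) (Θ x) Q - c') =ᶠ[𝓝[≠] z]
      (fun x => Θ (a * x + b) - c') := by
    filter_upwards [hsemi' z] with x hx
    rw [hx]
  rw [meromorphicOrderAt_congr hcongr] at ho
  by_cases ha : a = 0
  · subst ha
    simp only [zero_mul, zero_add] at ho
    classical
    rw [meromorphicOrderAt_const] at ho
    split_ifs at ho with h
    · exact WithTop.top_ne_coe ho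
    · have h3 : (0 : ℤ) = m := by exact_mod_cast ho
      omega
  · have hg : AnalyticAt ℂ (fun x : ℂ => a * x + b) z := by fun_prop
    have hg' : deriv (fun x : ℂ => a * x + b) z ≠ 0 := by
      simp [ha]
    have h3 := meromorphicOrderAt_comp_of_deriv_ne_zero (f := fun x => Θ x - c') hg hg'
    have h4 : ((fun x => Θ x - c') ∘ fun x : ℂ => a * x + b) = fun x => Θ (a * x + b) - c' := rfl
    rw [h4, ho] at h3
    have := hmax m ⟨by omega, c', hc', _, h3.symm⟩
    omega

end Pool.Agent.Helper74_Centr
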