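import Pool.Agent.Helper74_Centr.Comp

/-!
# Möbius transformations as invertible rational functions, and `PGL₂(ℂ)`
-/

namespace Pool.Agent.Helper74_Centr

open Polynomial IntermediateField Matrix

/-- The fractional linear function `(a z + b) / (c z + d)` of a matrix. -/
noncomputable def mob (M : Matrix (Fin 2) (Fin 2) ℂ) : RatFunc ℂ :=
  (RatFunc.C (M 0 0) * RatFunc.X + RatFunc.C (M 0 1)) /
    (RatFunc.C (M 1 0) * RatFunc.X + RatFunc.C (M 1 1))

theorem lin_eq_zero {a b : ℂ} (h : RatFunc.C a * RatFunc.X + RatFunc.C b = (0 : RatFunc ℂ)) :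
    a = 0 ∧ b = 0 := by
  have h1 : algebraMap ℂ[X] (RatFunc ℂ) (Polynomial.C a * Polynomial.X + Polynomial.C b) = 0 := by
    rw [map_add, map_mul, RatFunc.algebraMap_C, RatFunc.algebraMap_C, RatFunc.algebraMap_X]
    exact h
  have h2 : Polynomial.C a * Polynomial.X + Polynomial.C b = 0 := by
    apply RatFunc.algebraMap_injective ℂ
    rw [h1, map_zero]
  constructor
  · have := congrArg (fun p => Polynomial.coeff p 1) h2
    simpa using this
  · have := congrArg (fun p => Polynomial.coeff p 0) h2
    simpa using this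

theorem det_ne_of_den_zero {M : Matrix (Fin 2) (Fin 2) ℂ} (hM : M.det ≠ 0) :
    RatFunc.C (M 1 0) * RatFunc.X + RatFunc.C (M 1 1) ≠ (0 : RatFunc ℂ) := by
  intro h
  obtain ⟨h1, h2⟩ := lin_eq_zero h
  apply hM
  rw [Matrix.det_fin_two, h1, h2]; ring

theorem nonconst_mob {M : Matrix (Fin 2) (Fin 2) ℂ} (hM : M.det ≠ 0) : Nonconst (mob M) := by
  intro k hk
  unfold mob at hk
  rw [div_eq_iff (det_ne_of_den_zero hM)] at hk
  have h0 : RatFunc.C (M 0 0 - k * M 1 0) * RatFunc.X + RatFunc.C (M 0 1 - k * M 1 1)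
      = (0 : RatFunc ℂ) := by
    rw [map_sub, map_sub, map_mul, map_mul]
    linear_combination hk
  obtain ⟨h1, h2⟩ := lin_eq_zero h0
  apply hM
  rw [Matrix.det_fin_two]
  linear_combination (M 1 1) * h1 - (M 1 0) * h2

theorem comp_mob (M : Matrix (Fin 2) (Fin 2) ℂ) {g : RatFunc ℂ} (hg : Nonconst g) :
    comp (mob M) g = (RatFunc.C (M 0 0) * g + RatFunc.C (M 0 1)) /
      (RatFunc.C (M 1 0) * g + RatFunc.C (M 1 1)) := by
  simp only [mob, comp_div hg, comp_add hg, comp_mul hg, comp_X, comp_C]

theorem frac_lin_comp {F : Type*} [Field F] (a b c d a' b' c' d' x : F) (h1 : c' * x + d' ≠ 0) :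
    ((a * a' + b * c') * x + (a * b' + b * d')) / ((c * a' + d * c') * x + (c * b' + d * d')) =
    (a * ((a' * x + b') / (c' * x + d')) + b) / (c * ((a' * x + b') / (c' * x + d')) + d) := by
  have e1 : a * ((a' * x + b') / (c' * x + d')) + b
      = ((a * a' + b * c') * x + (a * b' + b * d')) / (c' * x + d') := by
    rw [eq_div_iff h1, add_mul, mul_assoc, div_mul_cancel₀ _ h1]; ring
  have e2 : c * ((a' * x + b') / (c' * x + d')) + d
      = ((c * a' + d * c') * x + (c * b' + d * d')) / (c' * x + d') := by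
    rw [eq_div_iff h1, add_mul, mul_assoc, div_mul_cancel₀ _ h1]; ring
  rw [e1, e2, div_div_div_cancel_right₀ h1]

theorem mob_mul {M N : Matrix (Fin 2) (Fin 2) ℂ} (hN : N.det ≠ 0) :
    mob (M * N) = comp (mob M) (mob N) := by
  have e1 := det_ne_of_den_zero hN
  rw [comp_mob M (nonconst_mob hN)]
  unfold mob
  have a00 : (M * N) 0 0 = M 0 0 * N 0 0 + M 0 1 * N 1 0 := by
    simp [Matrix.mul_apply, Fin.sum_univ_two]
  have a01 : (M * N) 0 1 = M 0 0 * N 0 1 + M 0 1 * N 1 1 := by
    simp [Matrix.mul_apply, Fin.sum_univ_two]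
  have a10 : (M * N) 1 0 = M 1 0 * N 0 0 + M 1 1 * N 1 0 := by
    simp [Matrix.mul_apply, Fin.sum_univ_two]
  have a11 : (M * N) 1 1 = M 1 0 * N 0 1 + M 1 1 * N 1 1 := by
    simp [Matrix.mul_apply, Fin.sum_univ_two]
  rw [a00, a01, a10, a11]
  simp only [map_add, map_mul]
  exact frac_lin_comp _ _ _ _ _ _ _ _ _ e1

theorem mob_one : mob 1 = RatFunc.X := by
  simp [mob]

theorem mob_scalar {M : Matrix (Fin 2) (Fin 2) ℂ} (h : mob M = RatFunc.X) (hM : M.det ≠ 0) :
    M 0 1 = 0 ∧ M 1 0 = 0 ∧ M 0 0 = M 1 1 := by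
  unfold mob at h
  rw [div_eq_iff (det_ne_of_den_zero hM)] at h
  have h1 : algebraMap ℂ[X] (RatFunc ℂ) (Polynomial.C (M 0 0) * Polynomial.X + Polynomial.C (M 0 1))
      = algebraMap ℂ[X] (RatFunc ℂ)
        (Polynomial.X * (Polynomial.C (M 1 0) * Polynomial.X + Polynomial.C (M 1 1))) := by
    simp only [map_add, map_mul, RatFunc.algebraMap_C, RatFunc.algebraMap_X]
    exact h
  have h2 := RatFunc.algebraMap_injective ℂ h1
  refine ⟨?_, ?_, ?_⟩
  · have := congrArg (fun p => Polynomial.coeff p 0) h2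
    simpa using this
  · have := congrArg (fun p => Polynomial.coeff p 2) h2
    have e : (Polynomial.X * (Polynomial.C (M 1 0) * Polynomial.X + Polynomial.C (M 1 1))).coeff 2
        = M 1 0 := by
      rw [Polynomial.coeff_X_mul]; simp
    have e' : (Polynomial.C (M 0 0) * Polynomial.X + Polynomial.C (M 0 1)).coeff 2 = 0 := by
      rw [Polynomial.coeff_add, Polynomial.coeff_C_mul, Polynomial.coeff_X, Polynomial.coeff_C]
      simp
    have := e'.symm.trans (this.trans e)
    exact this.symm
  · have := congrArg (fun p => Polynomial.coeff p 1) h2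
    have e : (Polynomial.X * (Polynomial.C (M 1 0) * Polynomial.X + Polynomial.C (M 1 1))).coeff 1
        = M 1 1 := by
      rw [Polynomial.coeff_X_mul]; simp
    have e' : (Polynomial.C (M 0 0) * Polynomial.X + Polynomial.C (M 0 1)).coeff 1 = M 0 0 := by
      simp
    exact e'.symm.trans (this.trans e)

/-- The Möbius transformation of an invertible matrix, as a nonconstant rational function. -/
noncomputable def mobHom : GL (Fin 2) ℂ →* RatMap where
  toFun M := ⟨mob M, nonconst_mob (Matrix.GeneralLinearGroup.det_ne_zero M)⟩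
  map_one' := RatMap.ext mob_one
  map_mul' M N := RatMap.ext (by
    have := mob_mul (M := M.1) (Matrix.GeneralLinearGroup.det_ne_zero N)
    rw [← Units.val_mul] at this
    exact this)

theorem mobHom_val (M : GL (Fin 2) ℂ) : (mobHom M).val = mob M := rfl

/-- Möbius transformations as units of the monoid of rational maps. -/
noncomputable def mobUnits : GL (Fin 2) ℂ →* RatMapˣ := mobHom.toHomUnits

theorem mobUnits_val (M : GL (Fin 2) ℂ) : ((mobUnits M : RatMapˣ) : RatMap).val = mob M := rfl

theorem mobUnits_ker : mobUnits.ker = Subgroup.center (GL (Fin 2) ℂ) := by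
  ext M
  rw [MonoidHom.mem_ker, Matrix.GeneralLinearGroup.mem_center_iff_val_mem_range_scalar]
  constructor
  · intro h
    have h1 : mob M = RatFunc.X := congrArg (fun u : RatMapˣ => (u : RatMap).val) h
    obtain ⟨h2, h3, h4⟩ := mob_scalar h1 (Matrix.GeneralLinearGroup.det_ne_zero M)
    refine ⟨M 0 0, ?_⟩
    ext i j
    fin_cases i <;> fin_cases j <;> simp [h2, h3, h4]
  · rintro ⟨a, ha⟩
    apply Units.ext
    apply RatMap.ext
    show mob M = RatFunc.X
    have hdet := Matrix.GeneralLinearGroup.det_ne_zero M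
    have h00 : M 0 0 = a := by rw [← ha]; simp
    have h01 : M 0 1 = 0 := by rw [← ha]; simp
    have h10 : M 1 0 = 0 := by rw [← ha]; simp
    have h11 : M 1 1 = a := by rw [← ha]; simp
    have ha0 : a ≠ 0 := by
      intro h0
      apply hdet
      rw [Matrix.det_fin_two, h00, h01, h10, h11, h0]; ring
    unfold mob
    rw [h00, h01, h10, h11]
    have : (RatFunc.C a : RatFunc ℂ) ≠ 0 := by
      rw [Ne, map_eq_zero]; exact ha0
    simp only [map_zero, zero_mul, add_zero, zero_add]
    field_simp

/-- A rational function of degree one is a fractional linear function. -/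
theorem exists_mob_of_deg_one {f : RatFunc ℂ} (hf : deg f = 1) :
    ∃ M : GL (Fin 2) ℂ, mob M = f := by
  have hn : f.num.natDegree ≤ 1 := by rw [← hf]; exact le_max_left _ _
  have hd : f.denom.natDegree ≤ 1 := by rw [← hf]; exact le_max_right _ _
  obtain ⟨a, b, hab⟩ := Polynomial.exists_eq_X_add_C_of_natDegree_le_one hn
  obtain ⟨c, d, hcd⟩ := Polynomial.exists_eq_X_add_C_of_natDegree_le_one hd
  have hf1 : f = mob !![a, b; c, d] := by
    conv_lhs => rw [← RatFunc.num_div_denom f, hab, hcd]
    simp only [map_add, map_mul, RatFunc.algebraMap_C, RatFunc.algebraMap_X, mob]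
    simp
  have hdet : (!![a, b; c, d] : Matrix (Fin 2) (Fin 2) ℂ).det ≠ 0 := by
    intro h0
    rw [Matrix.det_fin_two_of] at h0
    have hcop := f.isCoprime_num_denom
    obtain ⟨u, v, huv⟩ := hcop
    rw [hab, hcd] at huv
    have hdenom := f.denom_ne_zero
    rw [hcd] at hdenom
    by_cases hc : c = 0
    · subst hc
      have hd0 : d ≠ 0 := by
        intro h; subst h; simp at hdenom
      have ha0 : a = 0 := by
        have : a * d = 0 := by linear_combination h0
        rcases mul_eq_zero.1 this with h | h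
        · exact h
        · exact absurd h hd0
      rw [deg, hab, hcd, ha0] at hf
      simp at hf
    · -- root of denominator is a root of numerator
      have he := congrArg (Polynomial.eval (-d / c)) huv
      simp only [eval_add, eval_mul, eval_C, eval_X, eval_one] at he
      have e1 : c * (-d / c) + d = 0 := by field_simp; ring
      have e2 : a * (-d / c) + b = 0 := by
        field_simp; linear_combination -h0
      rw [e1, e2] at he
      simp at he
  exact ⟨Matrix.GeneralLinearGroup.mkOfDetNeZero _ hdet, hf1.symm⟩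

theorem deg_mob (M : GL (Fin 2) ℂ) : deg (mob M) = 1 := by
  have h1 : (mobHom M * mobHom M⁻¹).degree = 1 := by
    rw [← map_mul, mul_inv_cancel, map_one]; exact RatMap.degree_one
  rw [RatMap.degree_mul] at h1
  exact Nat.eq_one_of_mul_eq_one_right h1

theorem RatMap.isUnit_iff (f : RatMap) : IsUnit f ↔ f.degree = 1 := by
  constructor
  · rintro ⟨u, rfl⟩
    have h1 : ((u : RatMap) * (↑u⁻¹ : RatMap)).degree = 1 := by
      rw [Units.mul_inv]; exact RatMap.degree_one
    rw [RatMap.degree_mul] at h1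
    exact Nat.eq_one_of_mul_eq_one_right h1
  · intro h
    obtain ⟨M, hM⟩ := exists_mob_of_deg_one h
    have : f = mobUnits M := RatMap.ext hM.symm
    rw [this]
    exact Units.isUnit _

theorem mobUnits_surjective : Function.Surjective mobUnits := by
  intro u
  have h1 : (u : RatMap).degree = 1 := (RatMap.isUnit_iff _).1 u.isUnit
  obtain ⟨M, hM⟩ := exists_mob_of_deg_one h1
  exact ⟨M, Units.ext (RatMap.ext hM)⟩

/-- Auxiliary form of `mobIso`. -/
noncomputable def mobIso₀ : GL (Fin 2) ℂ ⧸ Subgroup.center (GL (Fin 2) ℂ) ≃* RatMapˣ :=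
  MulEquiv.ofBijective
    (QuotientGroup.lift (Subgroup.center (GL (Fin 2) ℂ)) mobUnits
      (by intro x hx; rw [← mobUnits_ker] at hx; exact hx)) (by
      constructor
      · rw [← MonoidHom.ker_eq_bot_iff, eq_bot_iff]
        intro x hx
        obtain ⟨M, rfl⟩ := QuotientGroup.mk_surjective x
        rw [MonoidHom.mem_ker, QuotientGroup.lift_mk] at hx
        rw [Subgroup.mem_bot, QuotientGroup.eq_one_iff, ← mobUnits_ker]
        exact hx
      · intro u
        obtain ⟨M, hM⟩ := mobUnits_surjective u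
        exact ⟨(M : GL (Fin 2) ℂ ⧸ Subgroup.center (GL (Fin 2) ℂ)), by
          rw [QuotientGroup.lift_mk]; exact hM⟩)

/-- The isomorphism of `PGL₂(ℂ)` with the group of units (the degree one elements) of the monoid
of nonconstant rational functions. -/
noncomputable def mobIso : Matrix.ProjGenLinGroup (Fin 2) ℂ ≃* RatMapˣ := mobIso₀

theorem mobIso_mk (M : GL (Fin 2) ℂ) : mobIso (Matrix.ProjGenLinGroup.mk M) = mobUnits M := rfl

end Pool.Agent.Helper74_Centr
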