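import Pool.Agent.Helper74_Centr.Defs
import Pool.Agent.Helper74_Centr.Mobius

/-!
# Necessary conditions on the group `G_P`
-/

namespace Pool.Agent.Helper74_Centr

open Polynomial IntermediateField

section basic

variable {P : RatMap}

theorem GP_mk_eq_iff (Q₁ Q₂ : Submonoid.centralizer ({P} : Set RatMap)) :
    ((Q₁ : GP P) = (Q₂ : GP P)) ↔ ∃ l₁ l₂ : ℕ, (Q₁ : RatMap) * P ^ l₁ = (Q₂ : RatMap) * P ^ l₂ :=
  (simCon P).eq

/-- Related elements of the same degree are equal. -/
theorem eq_of_degree_eq (hP : 2 ≤ P.degree) {Q₁ Q₂ : Submonoid.centralizer ({P} : Set RatMap)}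
    (h : (Q₁ : GP P) = (Q₂ : GP P)) (hd : (Q₁ : RatMap).degree = (Q₂ : RatMap).degree) :
    Q₁ = Q₂ := by
  obtain ⟨a, b, hab⟩ := (GP_mk_eq_iff _ _).1 h
  have h1 := congrArg RatMap.degree hab
  rw [RatMap.degree_mul, RatMap.degree_mul, RatMap.degree_pow, RatMap.degree_pow, hd] at h1
  have h2 := Nat.eq_of_mul_eq_mul_left (RatMap.degree_pos _) h1
  have h3 := Nat.pow_right_injective hP h2
  subst h3
  exact Subtype.ext (RatMap.mul_right_cancel' hab)

/-- `P` itself as an element of its centralizer. -/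
def selfMem (P : RatMap) : Submonoid.centralizer ({P} : Set RatMap) :=
  ⟨P, Submonoid.mem_centralizer_iff.2 (by rintro m rfl; rfl)⟩

theorem coe_selfMem_pow (P : RatMap) (n : ℕ) :
    ((selfMem P ^ n : Submonoid.centralizer ({P} : Set RatMap)) : RatMap) = P ^ n := by
  rw [SubmonoidClass.coe_pow]; rfl

theorem mk_mul_selfMem_pow (Q : Submonoid.centralizer ({P} : Set RatMap)) (n : ℕ) :
    ((Q * selfMem P ^ n : Submonoid.centralizer ({P} : Set RatMap)) : GP P) = (Q : GP P) := by
  rw [GP_mk_eq_iff]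
  refine ⟨0, n, ?_⟩
  rw [pow_zero, mul_one, Submonoid.coe_mul, coe_selfMem_pow]

/-- The character `X ↦ exp (2 π i log (deg X) / log (deg P))`. -/
noncomputable def preChar (P : RatMap) : Submonoid.centralizer ({P} : Set RatMap) →* ℂ where
  toFun Q := Complex.exp (2 * Real.pi * Complex.I *
    ((Real.log ((Q : RatMap).degree) / Real.log (P.degree) : ℝ) : ℂ))
  map_one' := by
    simp [RatMap.degree_one]
  map_mul' Q₁ Q₂ := by
    rw [← Complex.exp_add, ← mul_add, ← Complex.ofReal_add, ← add_div, ← Real.log_mul]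
    · rw [Submonoid.coe_mul, RatMap.degree_mul, Nat.cast_mul]
    · exact Nat.cast_ne_zero.2 (RatMap.degree_pos _).ne'
    · exact Nat.cast_ne_zero.2 (RatMap.degree_pos _).ne'

theorem preChar_apply (Q : Submonoid.centralizer ({P} : Set RatMap)) :
    preChar P Q = Complex.exp (2 * Real.pi * Complex.I *
    ((Real.log ((Q : RatMap).degree) / Real.log (P.degree) : ℝ) : ℂ)) := rfl

theorem log_degree_pos (hP : 2 ≤ P.degree) : 0 < Real.log P.degree :=
  Real.log_pos (by exact_mod_cast hP)

theorem preChar_selfMem (hP : 2 ≤ P.degree) : preChar P (selfMem P) = 1 := by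
  rw [preChar_apply]
  have : (Real.log (((selfMem P : Submonoid.centralizer ({P} : Set RatMap)) : RatMap).degree) /
    Real.log (P.degree) : ℝ) = 1 := div_self (log_degree_pos hP).ne'
  rw [this]
  simp [Complex.exp_two_pi_mul_I]

theorem preChar_eq_one_iff (hP : 2 ≤ P.degree) (Q : Submonoid.centralizer ({P} : Set RatMap)) :
    preChar P Q = 1 ↔ ∃ k : ℕ, (Q : RatMap).degree = P.degree ^ k := by
  have hl := log_degree_pos hP
  rw [preChar_apply, Complex.exp_eq_one_iff]
  constructor
  · rintro ⟨n, hn⟩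
    have h2 : ((Real.log ((Q : RatMap).degree) / Real.log (P.degree) : ℝ) : ℂ) = (n : ℂ) := by
      have h2pi : (2 * Real.pi * Complex.I : ℂ) ≠ 0 := Complex.two_pi_I_ne_zero
      apply mul_left_cancel₀ h2pi
      rw [hn]; ring
    have h3 : Real.log ((Q : RatMap).degree) / Real.log (P.degree) = n := by
      exact_mod_cast h2
    rw [div_eq_iff hl.ne'] at h3
    have hq : (1 : ℝ) ≤ (Q : RatMap).degree := by exact_mod_cast RatMap.degree_pos (Q : RatMap)
    have hn0 : 0 ≤ n := by
      by_contra hneg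
      have : (n : ℝ) < 0 := by exact_mod_cast not_le.1 hneg
      have h4 : Real.log ((Q : RatMap).degree) < 0 := by
        rw [h3]; exact mul_neg_of_neg_of_pos this hl
      exact absurd (Real.log_nonneg hq) (not_le.2 h4)
    obtain ⟨k, rfl⟩ := Int.eq_ofNat_of_zero_le hn0
    refine ⟨k, ?_⟩
    have h5 : Real.log ((Q : RatMap).degree) = Real.log ((P.degree ^ k : ℕ) : ℝ) := by
      rw [h3]; push_cast; rw [Real.log_pow]
    have h6 := Real.log_injOn_pos (Set.mem_Ioi.2 (by linarith))
      (Set.mem_Ioi.2 (by positivity)) h5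
    exact_mod_cast h6
  · rintro ⟨k, hk⟩
    refine ⟨k, ?_⟩
    have : (Real.log ((Q : RatMap).degree) / Real.log (P.degree) : ℝ) = k := by
      rw [hk, div_eq_iff hl.ne']; push_cast; rw [Real.log_pow]
    rw [this]; push_cast; ring

/-- The induced character of `G_P`. -/
noncomputable def charGP (P : RatMap) (hP : 2 ≤ P.degree) : GP P →* ℂ :=
  (simCon P).lift (preChar P) (by
    rintro Q₁ Q₂ ⟨a, b, hab⟩
    have h1 : Q₁ * selfMem P ^ a = Q₂ * selfMem P ^ b := by
      apply Subtype.ext
      rw [Submonoid.coe_mul, Submonoid.coe_mul, coe_selfMem_pow, coe_selfMem_pow]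
      exact hab
    have h2 := congrArg (preChar P) h1
    rw [map_mul, map_mul, map_pow, map_pow, preChar_selfMem hP, one_pow, one_pow, mul_one,
      mul_one] at h2
    exact h2)

theorem charGP_mk (hP : 2 ≤ P.degree) (Q : Submonoid.centralizer ({P} : Set RatMap)) :
    charGP P hP (Q : GP P) = preChar P Q := rfl

end basic

/-- An automorphism of `ℂ(z)` gives a nonconstant rational function. -/
noncomputable def autToRatMap : (RatFunc ℂ ≃ₐ[ℂ] RatFunc ℂ) →* RatMap where
  toFun α := ⟨α.symm RatFunc.X, by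
    intro c hc
    have : RatFunc.X = α (RatFunc.C c) := by rw [← hc]; simp
    rw [← RatFunc.algebraMap_eq_C, AlgEquiv.commutes, RatFunc.algebraMap_eq_C] at this
    exact nonconst_X c this⟩
  map_one' := RatMap.ext rfl
  map_mul' α β := by
    apply RatMap.ext
    show β.symm (α.symm RatFunc.X) = comp (α.symm RatFunc.X) (β.symm RatFunc.X)
    have hβ : Nonconst (β.symm RatFunc.X) := by
      intro c hc
      have : RatFunc.X = β (RatFunc.C c) := by rw [← hc]; simp
      rw [← RatFunc.algebraMap_eq_C, AlgEquiv.commutes, RatFunc.algebraMap_eq_C] at this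
      exact nonconst_X c this
    rw [← compHom_apply _ _ hβ]
    have : (β.symm : RatFunc ℂ →ₐ[ℂ] RatFunc ℂ) = compHom (β.symm RatFunc.X) hβ := by
      apply algHom_ext
      rw [compHom_X]; rfl
    exact congrArg (fun F : RatFunc ℂ →ₐ[ℂ] RatFunc ℂ => F (α.symm RatFunc.X)) this

theorem autToRatMap_injective : Function.Injective autToRatMap := by
  intro α β h
  have h1 : α.symm RatFunc.X = β.symm RatFunc.X := congrArg RatMap.val h
  have h2 : (α.symm : RatFunc ℂ →ₐ[ℂ] RatFunc ℂ) = (β.symm : RatFunc ℂ →ₐ[ℂ] RatFunc ℂ) :=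
    algHom_ext h1
  have h3 : α.symm = β.symm := by
    ext x
    exact congrArg (fun F : RatFunc ℂ →ₐ[ℂ] RatFunc ℂ => F x) h2
  rw [← AlgEquiv.symm_symm α, h3, AlgEquiv.symm_symm]

/-- A group acting faithfully by automorphisms on a subfield of `ℂ(z)` strictly containing `ℂ`
embeds into `PGL₂(ℂ)`. -/
theorem exists_embedding {T : Type*} [Group T] (L : IntermediateField ℂ (RatFunc ℂ)) (hL : L ≠ ⊥)
    (θ : T →* (L ≃ₐ[ℂ] L)) (hθ : Function.Injective θ) :
    ∃ f : T →* Matrix.ProjGenLinGroup (Fin 2) ℂ, Function.Injective f := by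
  let E : RatFunc ℂ ≃ₐ[ℂ] L := RatFunc.Luroth.algEquiv hL
  let θ' : T →* (RatFunc ℂ ≃ₐ[ℂ] RatFunc ℂ) := (AlgEquiv.autCongr E.symm).toMonoidHom.comp θ
  have hθ' : Function.Injective θ' := (AlgEquiv.autCongr E.symm).injective.comp hθ
  let ψ : T →* RatMapˣ := (autToRatMap.comp θ').toHomUnits
  have hψ : Function.Injective ψ := by
    intro s t h
    have : autToRatMap (θ' s) = autToRatMap (θ' t) := congrArg (fun u : RatMapˣ => (u : RatMap)) h
    exact hθ' (autToRatMap_injective this)
  exact ⟨mobIso.symm.toMonoidHom.comp ψ, mobIso.symm.injective.comp hψ⟩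

/-- The embedding part: a finite group `T` with a system `Y` of rational functions commuting with
`F` and satisfying `Y s ∘ Y t = Y (s t) ∘ F` embeds in `PGL₂(ℂ)`. -/
theorem embed_of_system {T : Type*} [Group T] (Y : T → RatMap) (F : RatMap)
    (hY : ∀ s t, Y s * Y t = Y (s * t) * F) (hinj : Function.Injective Y) :
    ∃ f : T →* Matrix.ProjGenLinGroup (Fin 2) ℂ, Function.Injective f := by
  set L : IntermediateField ℂ (RatFunc ℂ) :=
    IntermediateField.adjoin ℂ (Set.range (fun t => (Y t).val)) with hLdef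
  have hmem : ∀ t, (Y t).val ∈ L := fun t =>
    IntermediateField.subset_adjoin _ _ ⟨t, rfl⟩
  have hL : L ≠ ⊥ := by
    intro h
    have h1 := hmem 1
    rw [h, IntermediateField.mem_bot] at h1
    obtain ⟨c, hc⟩ := h1
    exact (Y 1).nonconst c (by rw [← hc, RatFunc.algebraMap_eq_C])
  have hmap : ∀ s, L.map (compHom (Y s).val (Y s).nonconst) = L.map (compHom F.val F.nonconst) := by
    intro s
    rw [hLdef, IntermediateField.adjoin_map, IntermediateField.adjoin_map]
    congr 1
    rw [← Set.range_comp, ← Set.range_comp]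
    ext x
    constructor
    · rintro ⟨t, rfl⟩
      refine ⟨t * s, ?_⟩
      simp only [Function.comp, compHom_apply]
      exact (congrArg RatMap.val (hY t s)).symm
    · rintro ⟨t, rfl⟩
      refine ⟨t * s⁻¹, ?_⟩
      simp only [Function.comp, compHom_apply]
      have := congrArg RatMap.val (hY (t * s⁻¹) s)
      rw [inv_mul_cancel_right] at this
      exact this
  -- the automorphisms
  let θ₀ : T → (L ≃ₐ[ℂ] L) := fun s =>
    ((L.equivMap (compHom (Y s).val (Y s).nonconst)).trans (IntermediateField.equivOfEq (hmap s))).trans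
      (L.equivMap (compHom F.val F.nonconst)).symm
  have hθ₀ : ∀ s t, θ₀ s ⟨(Y t).val, hmem t⟩ = ⟨(Y (t * s)).val, hmem (t * s)⟩ := by
    intro s t
    show (L.equivMap (compHom F.val F.nonconst)).symm _ = _
    rw [AlgEquiv.symm_apply_eq]
    apply Subtype.ext
    show compHom (Y s).val (Y s).nonconst (Y t).val = compHom F.val F.nonconst (Y (t * s)).val
    rw [compHom_apply, compHom_apply]
    exact congrArg RatMap.val (hY t s)
  have hext : ∀ α β : L ≃ₐ[ℂ] L, (∀ t, α ⟨(Y t).val, hmem t⟩ = β ⟨(Y t).val, hmem t⟩) → α = β := by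
    intro α β h
    have h1 : (α : L →ₐ[ℂ] L) = (β : L →ₐ[ℂ] L) := by
      apply IntermediateField.algHom_ext_of_eq_adjoin ℂ hLdef
      rintro x ⟨t, rfl⟩
      exact h t
    ext x
    exact congrArg (fun F : L →ₐ[ℂ] L => ((F x : L) : RatFunc ℂ)) h1
  let θ : T →* (L ≃ₐ[ℂ] L) :=
    { toFun := fun s => θ₀ s⁻¹
      map_one' := by
        apply hext
        intro t
        rw [hθ₀]
        simp
      map_mul' := by
        intro s t
        apply hext
        intro u
        rw [hθ₀, AlgEquiv.mul_apply, hθ₀, hθ₀]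
        simp [mul_assoc] }
  have hθ : Function.Injective θ := by
    intro s t h
    have h1 : θ s ⟨(Y 1).val, hmem 1⟩ = θ t ⟨(Y 1).val, hmem 1⟩ := by rw [h]
    have h2 : θ₀ s⁻¹ ⟨(Y 1).val, hmem 1⟩ = θ₀ t⁻¹ ⟨(Y 1).val, hmem 1⟩ := h1
    rw [hθ₀, hθ₀, one_mul, one_mul] at h2
    have h3 : Y s⁻¹ = Y t⁻¹ := RatMap.ext (congrArg (fun x : L => (x : RatFunc ℂ)) h2)
    exact inv_injective (hinj h3)
  exact exists_embedding L hL θ hθ

/-- **Necessity.** -/
theorem necessity {G : Type*} [Group G] [Finite G] (P : RatMap) (hP : 2 ≤ P.degree)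
    (e : G ≃* GP P) :
    ∃ (T : Subgroup G) (_ : T.Normal), IsCyclic (G ⧸ T) ∧
      ∃ f : T →* Matrix.ProjGenLinGroup (Fin 2) ℂ, Function.Injective f := by
  classical
  let χ : G →* ℂˣ := ((charGP P hP).comp e.toMonoidHom).toHomUnits
  have hχ : ∀ g, ((χ g : ℂˣ) : ℂ) = charGP P hP (e g) := fun g => rfl
  refine ⟨χ.ker, inferInstance, ?_, ?_⟩
  · exact isCyclic_of_injective_ringHom ((Units.coeHom ℂ).comp (QuotientGroup.kerLift χ))
      (Units.val_injective.comp (QuotientGroup.kerLift_injective χ))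
  · -- representatives
    have hrep : ∀ g : G, ∃ Q : Submonoid.centralizer ({P} : Set RatMap), (Q : GP P) = e g := by
      intro g
      obtain ⟨Q, hQ⟩ := Con.mk'_surjective (e g)
      exact ⟨Q, hQ⟩
    choose X hX using hrep
    have hdeg : ∀ t : χ.ker, ∃ k : ℕ, ((X t : Submonoid.centralizer ({P} : Set RatMap)) : RatMap).degree
        = P.degree ^ k := by
      intro t
      rw [← preChar_eq_one_iff hP, ← charGP_mk hP, hX, ← hχ]
      have : χ t = 1 := t.2
      rw [this]; rfl
    choose k hk using hdeg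
    obtain ⟨K, hK⟩ : ∃ K, ∀ t : χ.ker, k t ≤ K := by
      cases nonempty_fintype (χ.ker)
      exact ⟨Finset.univ.sup k, fun t => Finset.le_sup (Finset.mem_univ t)⟩
    obtain ⟨Y, hYd, hYc⟩ : ∃ Y : χ.ker → Submonoid.centralizer ({P} : Set RatMap),
        (∀ t, ((Y t : Submonoid.centralizer ({P} : Set RatMap)) : RatMap).degree
          = P.degree ^ K) ∧ ∀ t, (Y t : GP P) = e t := by
      refine ⟨fun t => X t * selfMem P ^ (K - k t), ?_, ?_⟩
      · intro t
        show ((X t * selfMem P ^ (K - k t) :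
          Submonoid.centralizer ({P} : Set RatMap)) : RatMap).degree = _
        rw [Submonoid.coe_mul, coe_selfMem_pow, RatMap.degree_mul, RatMap.degree_pow, hk,
          ← pow_add, Nat.add_sub_cancel' (hK t)]
      · intro t
        show ((X t * selfMem P ^ (K - k t) : Submonoid.centralizer ({P} : Set RatMap)) : GP P) = _
        rw [mk_mul_selfMem_pow, hX]
    apply embed_of_system (fun t => ((Y t : Submonoid.centralizer ({P} : Set RatMap)) : RatMap))
      (P ^ K)
    · intro s t
      have : Y s * Y t = Y (s * t) * selfMem P ^ K := by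
        apply eq_of_degree_eq hP
        · rw [mk_mul_selfMem_pow, Con.coe_mul, hYc, hYc, hYc, ← map_mul]; rfl
        · rw [Submonoid.coe_mul, Submonoid.coe_mul, RatMap.degree_mul,
            RatMap.degree_mul, hYd, hYd, hYd, coe_selfMem_pow, RatMap.degree_pow]
      have h2 := congrArg (fun Q : Submonoid.centralizer ({P} : Set RatMap) => (Q : RatMap)) this
      simp only [Submonoid.coe_mul, coe_selfMem_pow] at h2
      exact h2
    · intro s t h
      have h1 : Y s = Y t := Subtype.ext h
      have h2 : (e (s : G)) = e (t : G) := by rw [← hYc, ← hYc, h1]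
      exact Subtype.ext (e.injective h2)

end Pool.Agent.Helper74_Centr
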