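import Pool.Agent.Helper74_Centr.ExistsR
import Pool.Agent.Helper74_Centr.Lattes
import Pool.Agent.Helper74_Centr.Necessity

/-!
# Realisation of all the groups
-/

namespace Pool.Agent.Helper74_Centr

open Polynomial

theorem deg_algebraMap (p : ℂ[X]) : deg (algebraMap ℂ[X] (RatFunc ℂ) p) = p.natDegree := by
  rw [deg, RatFunc.num_algebraMap, RatFunc.denom_algebraMap]
  simp

theorem nonconst_algebraMap {p : ℂ[X]} (hp : 0 < p.natDegree) :
    Nonconst (algebraMap ℂ[X] (RatFunc ℂ) p) := by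
  rw [← deg_pos_iff, deg_algebraMap]; exact hp

/-- A nonconstant polynomial as a rational map. -/
noncomputable def polyMap (p : ℂ[X]) (hp : 0 < p.natDegree) : RatMap :=
  ⟨algebraMap ℂ[X] (RatFunc ℂ) p, nonconst_algebraMap hp⟩

theorem comp_algebraMap_algebraMap (p : ℂ[X]) {q : ℂ[X]} (hq : 0 < q.natDegree) :
    comp (algebraMap ℂ[X] (RatFunc ℂ) p) (algebraMap ℂ[X] (RatFunc ℂ) q) =
      algebraMap ℂ[X] (RatFunc ℂ) (p.comp q) := by
  rw [comp_algebraMap (nonconst_algebraMap hq), Polynomial.comp_eq_aeval]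
  exact Polynomial.aeval_algebraMap_apply (RatFunc ℂ) q p

theorem comp_neg {g : RatFunc ℂ} (hg : Nonconst g) (a : RatFunc ℂ) :
    comp (-a) g = -comp a g := by
  simp only [← compHom_apply _ _ hg, map_neg]

theorem X_pow_nonconst {k : ℕ} (hk : 0 < k) : Nonconst (RatFunc.X ^ k : RatFunc ℂ) := by
  have := nonconst_algebraMap (p := (X : ℂ[X]) ^ k) (by rw [natDegree_X_pow]; exact hk)
  rwa [map_pow, RatFunc.algebraMap_X] at this

theorem comp_X_pow (f : RatFunc ℂ) (hf : Nonconst f) (k : ℕ) : comp (RatFunc.X ^ k) f = f ^ k := by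
  rw [comp_pow hf, comp_X]

theorem T_comp_neg {k : ℤ} (hk : Odd k) (q : ℂ[X]) :
    (Chebyshev.T ℂ k).comp (-q) = -(Chebyshev.T ℂ k).comp q := by
  have h : (Chebyshev.T ℂ k).comp (-X) = -Chebyshev.T ℂ k := by
    apply Polynomial.funext
    intro x
    rw [eval_comp, eval_neg, eval_neg, eval_X, Chebyshev.T_eval_neg, Int.negOnePow_odd k hk]
    simp
  have h2 : (-q) = (-X : ℂ[X]).comp q := by simp
  rw [h2, ← Polynomial.comp_assoc, h, neg_comp]

theorem degree_unit (μ : RatMapˣ) : (μ : RatMap).degree = 1 := (RatMap.isUnit_iff _).1 μ.isUnit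

/-- A rational function all of whose commuting functions have degrees that are powers of `r` is not
conjugate to a power or a Chebyshev polynomial. -/
theorem not_special_conj {P : RatMap} {r : ℕ} (hr : 2 ≤ r)
    (hC : ∀ W : RatMap, W * P = P * W → ∃ j, W.degree = r ^ j) (μ : RatMapˣ) (n : ℕ) (hn : 2 ≤ n) :
    ¬ (((μ : RatMap) * P * (↑μ⁻¹ : RatMap)).val = RatFunc.X ^ n ∨
      ((μ : RatMap) * P * (↑μ⁻¹ : RatMap)).val = (RatFunc.X ^ n)⁻¹ ∨
      ((μ : RatMap) * P * (↑μ⁻¹ : RatMap)).val =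
        algebraMap ℂ[X] (RatFunc ℂ) (Chebyshev.T ℂ n) ∨
      ((μ : RatMap) * P * (↑μ⁻¹ : RatMap)).val =
        -algebraMap ℂ[X] (RatFunc ℂ) (Chebyshev.T ℂ n)) := by
  set P' := (μ : RatMap) * P * (↑μ⁻¹ : RatMap) with hP'
  have key : ∀ W : RatMap, W * P' = P' * W → ∃ j, W.degree = r ^ j := by
    intro W hW
    obtain ⟨j, hj⟩ := hC ((↑μ⁻¹ : RatMap) * W * (μ : RatMap)) (by
      have h1 : (↑μ⁻¹ : RatMap) * (W * P') * (μ : RatMap) =
          (↑μ⁻¹ : RatMap) * (P' * W) * (μ : RatMap) := by rw [hW]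
      have h2 : (↑μ⁻¹ : RatMap) * (W * P') * (μ : RatMap) =
          (↑μ⁻¹ : RatMap) * W * (μ : RatMap) * P := by
        rw [hP']
        calc (↑μ⁻¹ : RatMap) * (W * ((μ : RatMap) * P * (↑μ⁻¹ : RatMap))) * (μ : RatMap)
            = (↑μ⁻¹ : RatMap) * W * (μ : RatMap) * P * ((↑μ⁻¹ : RatMap) * (μ : RatMap)) := by
              simp only [mul_assoc]
          _ = _ := by rw [Units.inv_mul, mul_one]
      have h3 : (↑μ⁻¹ : RatMap) * (P' * W) * (μ : RatMap) =
          P * ((↑μ⁻¹ : RatMap) * W * (μ : RatMap)) := by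
        rw [hP']
        calc (↑μ⁻¹ : RatMap) * ((μ : RatMap) * P * (↑μ⁻¹ : RatMap) * W) * (μ : RatMap)
            = ((↑μ⁻¹ : RatMap) * (μ : RatMap)) * P * (↑μ⁻¹ : RatMap) * W * (μ : RatMap) := by
              simp only [mul_assoc]
          _ = _ := by rw [Units.inv_mul, one_mul]; simp only [mul_assoc]
      rw [← h2, ← h3, h1])
    refine ⟨j, ?_⟩
    rw [← hj, RatMap.degree_mul, RatMap.degree_mul, degree_unit, degree_unit, one_mul, mul_one]
  have fin : ∀ W₁ W₂ : RatMap, W₁ * P' = P' * W₁ → W₂ * P' = P' * W₂ →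
      Nat.Coprime W₁.degree W₂.degree → W₁.degree ≠ 1 → W₂.degree ≠ 1 → False := by
    intro W₁ W₂ h1 h2 hc hn1 hn2
    obtain ⟨i, hi⟩ := key W₁ h1
    obtain ⟨j, hj⟩ := key W₂ h2
    have hi0 : i ≠ 0 := by rintro rfl; apply hn1; rw [hi, pow_zero]
    have hj0 : j ≠ 0 := by rintro rfl; apply hn2; rw [hj, pow_zero]
    have d1 : r ∣ W₁.degree := by rw [hi]; exact dvd_pow_self r hi0
    have d2 : r ∣ W₂.degree := by rw [hj]; exact dvd_pow_self r hj0
    have := Nat.dvd_gcd d1 d2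
    rw [Nat.Coprime] at hc
    rw [hc, Nat.dvd_one] at this
    omega
  have hPn := P'.nonconst
  rintro (h | h | h | h)
  · -- powers
    have hd : ∀ k : ℕ, (hk : 0 < k) → (⟨RatFunc.X ^ k, X_pow_nonconst hk⟩ : RatMap) * P' =
        P' * ⟨RatFunc.X ^ k, X_pow_nonconst hk⟩ := by
      intro k hk
      apply RatMap.ext
      show comp (RatFunc.X ^ k) P'.val = comp P'.val (RatFunc.X ^ k)
      rw [comp_X_pow _ hPn, h, comp_X_pow _ (X_pow_nonconst hk), ← pow_mul, ← pow_mul, mul_comm]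
    have hdeg : ∀ k : ℕ, (hk : 0 < k) →
        (⟨RatFunc.X ^ k, X_pow_nonconst hk⟩ : RatMap).degree = k := by
      intro k hk
      show deg (RatFunc.X ^ k) = k
      rw [← RatFunc.algebraMap_X, ← map_pow, deg_algebraMap, natDegree_X_pow]
    refine fin _ _ (hd 2 two_pos) (hd 3 three_pos) ?_ ?_ ?_
    · rw [hdeg, hdeg] <;> norm_num
    · rw [hdeg] <;> norm_num
    · rw [hdeg] <;> norm_num
  · -- inverse powers
    have hd : ∀ k : ℕ, (hk : 0 < k) → (⟨RatFunc.X ^ k, X_pow_nonconst hk⟩ : RatMap) * P' =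
        P' * ⟨RatFunc.X ^ k, X_pow_nonconst hk⟩ := by
      intro k hk
      apply RatMap.ext
      show comp (RatFunc.X ^ k) P'.val = comp P'.val (RatFunc.X ^ k)
      rw [comp_X_pow _ hPn, h, comp_inv (X_pow_nonconst hk), comp_X_pow _ (X_pow_nonconst hk),
        inv_pow, ← pow_mul, ← pow_mul, mul_comm]
    have hdeg : ∀ k : ℕ, (hk : 0 < k) →
        (⟨RatFunc.X ^ k, X_pow_nonconst hk⟩ : RatMap).degree = k := by
      intro k hk
      show deg (RatFunc.X ^ k) = k
      rw [← RatFunc.algebraMap_X, ← map_pow, deg_algebraMap, natDegree_X_pow]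
    refine fin _ _ (hd 2 two_pos) (hd 3 three_pos) ?_ ?_ ?_
    · rw [hdeg, hdeg] <;> norm_num
    · rw [hdeg] <;> norm_num
    · rw [hdeg] <;> norm_num
  · -- Chebyshev
    have hT : ∀ k : ℤ, (hk : 0 < k) → 0 < (Chebyshev.T ℂ k).natDegree := by
      intro k hk
      rw [Chebyshev.natDegree_T]; omega
    have hd : ∀ k : ℤ, (hk : 0 < k) → polyMap (Chebyshev.T ℂ k) (hT k hk) * P' =
        P' * polyMap (Chebyshev.T ℂ k) (hT k hk) := by
      intro k hk
      apply RatMap.ext
      show comp (algebraMap ℂ[X] (RatFunc ℂ) (Chebyshev.T ℂ k)) P'.val =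
        comp P'.val (algebraMap ℂ[X] (RatFunc ℂ) (Chebyshev.T ℂ k))
      rw [h, comp_algebraMap_algebraMap _ (hT n (by omega)), comp_algebraMap_algebraMap _ (hT k hk),
        ← Chebyshev.T_mul, ← Chebyshev.T_mul, mul_comm]
    have hdeg : ∀ k : ℤ, (hk : 0 < k) → (polyMap (Chebyshev.T ℂ k) (hT k hk)).degree = k.natAbs := by
      intro k hk
      show deg (algebraMap ℂ[X] (RatFunc ℂ) (Chebyshev.T ℂ k)) = k.natAbs
      rw [deg_algebraMap, Chebyshev.natDegree_T]
    refine fin _ _ (hd 2 two_pos) (hd 3 three_pos) ?_ ?_ ?_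
    · rw [hdeg, hdeg] <;> norm_num
    · rw [hdeg] <;> norm_num
    · rw [hdeg] <;> norm_num
  · -- minus Chebyshev
    have hT : ∀ k : ℤ, (hk : 0 < k) → 0 < (Chebyshev.T ℂ k).natDegree := by
      intro k hk
      rw [Chebyshev.natDegree_T]; omega
    have hd : ∀ k : ℤ, (hk : 0 < k) → Odd k → polyMap (Chebyshev.T ℂ k) (hT k hk) * P' =
        P' * polyMap (Chebyshev.T ℂ k) (hT k hk) := by
      intro k hk hodd
      apply RatMap.ext
      show comp (algebraMap ℂ[X] (RatFunc ℂ) (Chebyshev.T ℂ k)) P'.val =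
        comp P'.val (algebraMap ℂ[X] (RatFunc ℂ) (Chebyshev.T ℂ k))
      rw [h, comp_neg (nonconst_algebraMap (hT k hk)), comp_algebraMap_algebraMap _ (hT k hk),
        ← map_neg, comp_algebraMap_algebraMap _ (by rw [natDegree_neg]; exact hT n (by omega)),
        T_comp_neg hodd, map_neg, ← Chebyshev.T_mul, ← Chebyshev.T_mul, mul_comm]
    have hdeg : ∀ k : ℤ, (hk : 0 < k) → (polyMap (Chebyshev.T ℂ k) (hT k hk)).degree = k.natAbs := by
      intro k hk
      show deg (algebraMap ℂ[X] (RatFunc ℂ) (Chebyshev.T ℂ k)) = k.natAbs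
      rw [deg_algebraMap, Chebyshev.natDegree_T]
    refine fin _ _ (hd 3 three_pos ⟨1, rfl⟩) (hd 5 (by norm_num) ⟨2, rfl⟩) ?_ ?_ ?_
    · rw [hdeg, hdeg] <;> norm_num
    · rw [hdeg] <;> norm_num
    · rw [hdeg] <;> norm_num

section assembly

variable {G : Type*} [Group G] {T : Subgroup G} [T.Normal] (ρ : T →* RatMapˣ) (g : G) (R : RatMap)

/-- Conjugation by `x` on the normal subgroup `T`. -/
noncomputable def cj (x : G) (t : T) : T := MulAut.conjNormal x t

theorem coe_cj (x : G) (t : T) : (cj x t : G) = x * t * x⁻¹ := MulAut.conjNormal_apply x t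

theorem cj_mul (x y : G) (t : T) : cj (x * y) t = cj x (cj y t) := by
  apply Subtype.ext
  rw [coe_cj, coe_cj, coe_cj]; group

variable {ρ g R}

theorem pow_comm (heq : ∀ t, R * (ρ t : RatMap) = (ρ (cj g t) : RatMap) * R) (j : ℕ) (t : T) :
    R ^ j * (ρ t : RatMap) = (ρ (cj (g ^ j) t) : RatMap) * R ^ j := by
  induction j generalizing t with
  | zero =>
    have : cj (g ^ 0) t = t := by apply Subtype.ext; rw [coe_cj]; simp
    rw [this]; simp
  | succ j ih =>
    rw [pow_succ, mul_assoc, heq, ← mul_assoc, ih, pow_succ g, cj_mul, mul_assoc]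

theorem std_mul (heq : ∀ t, R * (ρ t : RatMap) = (ρ (cj g t) : RatMap) * R) (i j : ℕ) (t s : T) :
    ((ρ t : RatMap) * R ^ i) * ((ρ s : RatMap) * R ^ j) =
      (ρ (t * cj (g ^ i) s) : RatMap) * R ^ (i + j) := by
  calc ((ρ t : RatMap) * R ^ i) * ((ρ s : RatMap) * R ^ j)
      = (ρ t : RatMap) * (R ^ i * (ρ s : RatMap)) * R ^ j := by simp only [mul_assoc]
    _ = (ρ t : RatMap) * ((ρ (cj (g ^ i) s) : RatMap) * R ^ i) * R ^ j := by rw [pow_comm heq]
    _ = ((ρ t : RatMap) * (ρ (cj (g ^ i) s) : RatMap)) * (R ^ i * R ^ j) := by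
        simp only [mul_assoc]
    _ = _ := by rw [← Units.val_mul, ← map_mul, pow_add]

omit [T.Normal] in
theorem std_degree (i : ℕ) (t : T) : ((ρ t : RatMap) * R ^ i).degree = R.degree ^ i := by
  rw [RatMap.degree_mul, degree_unit, one_mul, RatMap.degree_pow]

omit [T.Normal] in
theorem std_unique (hρ : Function.Injective ρ) (hR : 2 ≤ R.degree) {i j : ℕ} {t s : T}
    (h : (ρ t : RatMap) * R ^ i = (ρ s : RatMap) * R ^ j) : t = s ∧ i = j := by
  have h1 := congrArg RatMap.degree h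
  rw [std_degree, std_degree] at h1
  have h2 := Nat.pow_right_injective hR h1
  subst h2
  exact ⟨hρ (Units.ext (RatMap.mul_right_cancel' h)), rfl⟩

omit [T.Normal] in
/-- The centralizer of `Q = ρ(t₀)⁻¹ R^m`. -/
theorem centralizer_eq (hR : 2 ≤ R.degree)
    (hkey : ∀ u v : RatMap, R * u = v * R → (∀ u', u ≠ u' * R) → u.degree = 1)
    (hsym : ∀ ν v : RatMapˣ, R * (ν : RatMap) = (v : RatMap) * R → ∃ t, ν = ρ t)
    {m : ℕ} (hm : 1 ≤ m) (t₀ : T) (hcomm : R * ((ρ t₀⁻¹ : RatMap) * R ^ m) =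
      ((ρ t₀⁻¹ : RatMap) * R ^ m) * R) :
    ∀ (k : ℕ) (X : RatMap), X.degree ≤ k →
      X * ((ρ t₀⁻¹ : RatMap) * R ^ m) = ((ρ t₀⁻¹ : RatMap) * R ^ m) * X →
      ∃ t j, X = (ρ t : RatMap) * R ^ j := by
  set Q := (ρ t₀⁻¹ : RatMap) * R ^ m with hQ
  intro k
  induction k with
  | zero =>
    intro X hX _
    have := X.degree_pos
    omega
  | succ k ih =>
    intro X hX hXQ
    by_cases hex : ∃ X', X = X' * R
    · obtain ⟨X', rfl⟩ := hex
      have h1 : X' * Q = Q * X' := by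
        apply RatMap.mul_right_cancel' (g := R)
        rw [mul_assoc X' Q R, ← hcomm, ← mul_assoc X' R Q, hXQ]
        exact (mul_assoc _ _ _).symm
      have h2 : X'.degree ≤ k := by
        rw [RatMap.degree_mul] at hX
        have := X'.degree_pos
        nlinarith
      obtain ⟨t, j, h3⟩ := ih X' h2 h1
      exact ⟨t, j + 1, by rw [h3, pow_succ, mul_assoc]⟩
    · push Not at hex
      have hpow : ∃ i, ∃ X', R ^ i * X = X' * R := by
        refine ⟨m, (ρ t₀ : RatMap) * X * (ρ t₀⁻¹ : RatMap) * R ^ (m - 1), ?_⟩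
        have e1 : R ^ m = (ρ t₀ : RatMap) * Q := by
          rw [hQ, ← mul_assoc, ← Units.val_mul, ← map_mul, mul_inv_cancel, map_one, Units.val_one,
            one_mul]
        have e2 : R ^ (m - 1) * R = R ^ m := by rw [← pow_succ]; congr 1; omega
        rw [mul_assoc, e2]
        nth_rewrite 1 [e1]
        rw [mul_assoc, ← hXQ, hQ]
        simp only [mul_assoc]
      classical
      obtain ⟨X', hX'⟩ := Nat.find_spec hpow
      have hmin := fun i (hi : i < Nat.find hpow) => Nat.find_min hpow hi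
      set i := Nat.find hpow with hi
      have hi0 : i ≠ 0 := by
        intro h0
        rw [h0, pow_zero, one_mul] at hX'
        exact hex X' hX'
      obtain ⟨i', hi'⟩ := Nat.exists_eq_succ_of_ne_zero hi0
      have hu : ∀ u', R ^ i' * X ≠ u' * R := by
        intro u' h
        exact hmin i' (by omega) ⟨u', h⟩
      have h1 : R * (R ^ i' * X) = X' * R := by
        rw [← hX', hi', ← mul_assoc, Nat.succ_eq_add_one, pow_succ']
      have h2 := hkey _ _ h1 hu
      rw [RatMap.degree_mul, RatMap.degree_pow] at h2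
      have h3 : R.degree ^ i' = 1 := Nat.eq_one_of_mul_eq_one_right h2
      have h4 : X.degree = 1 := Nat.eq_one_of_mul_eq_one_left h2
      have h5 : i' = 0 := by
        by_contra h5
        have := Nat.one_lt_pow h5 (by omega : 1 < R.degree)
        omega
      rw [h5, pow_zero, one_mul] at h1
      obtain ⟨ν, rfl⟩ := (RatMap.isUnit_iff X).2 h4
      have h6 := congrArg RatMap.degree h1
      rw [RatMap.degree_mul, RatMap.degree_mul, degree_unit, mul_one] at h6
      have h7 : X'.degree = 1 := by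
        have := R.degree_pos
        have h8 : 1 * R.degree = X'.degree * R.degree := by rw [one_mul]; exact h6
        exact (Nat.eq_of_mul_eq_mul_right this h8).symm
      obtain ⟨v, rfl⟩ := (RatMap.isUnit_iff X').2 h7
      obtain ⟨t, ht⟩ := hsym ν v h1
      exact ⟨t, 0, by rw [ht, pow_zero, mul_one]⟩

end assembly

/-- A finite invariant set of critical points. -/
theorem lattes_set {T : Type*} [Group T] [Finite T] (ρ : T →* RatMapˣ) (φ : T → T) (R : RatMap)
    (heq : ∀ t, R * (ρ t : RatMap) = (ρ (φ t) : RatMap) * R) {c₀ : ℂ} (hc₀ : HasJet R.val c₀ c₀ 0)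
    (hreg : ∀ t, ∃ s d, HasJet (ρ t : RatMap).val c₀ s d) {m : ℕ} (hm : 1 ≤ m) (u : T) :
    ¬ IsLattes ((ρ u : RatMap) * R ^ m).val := by
  choose s d hsd using hreg
  -- the transformations permute the orbit
  have hmove : ∀ t u, ∃ e, HasJet (ρ u : RatMap).val (s t) (s (u * t)) e ∧ d (u * t) = e * d t := by
    intro t u
    have h1 := hsd (u * t)
    rw [map_mul] at h1
    exact GenData.regular_of_comp (ρ t : RatMap).nonconst (hsd t) h1
  have hd : ∀ t, d t ≠ 0 := by
    intro t h0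
    obtain ⟨e, -, he⟩ := hmove t t⁻¹
    rw [h0, mul_zero, inv_mul_cancel] at he
    have h1 := hsd 1
    rw [map_one] at h1
    have h2 := (h1.unique (hasJet_X c₀)).2
    rw [he] at h2
    exact zero_ne_one h2
  have hRs : ∀ t, HasJet R.val (s t) (s (φ t)) 0 := by
    intro t
    have h1 : HasJet (comp (ρ (φ t) : RatMap).val R.val) c₀ (s (φ t)) (d (φ t) * 0) :=
      hc₀.comp R.nonconst (hsd (φ t))
    rw [mul_zero] at h1
    have h2 : comp (ρ (φ t) : RatMap).val R.val = comp R.val (ρ t : RatMap).val :=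
      (congrArg RatMap.val (heq t)).symm
    rw [h2] at h1
    obtain ⟨e, he, he0⟩ := GenData.regular_of_comp (ρ t : RatMap).nonconst (hsd t) h1
    rcases mul_eq_zero.1 he0.symm with h | h
    · rw [← h]; exact he
    · exact absurd h (hd t)
  have hpow : ∀ (j : ℕ) (t : T), ∃ t' e, HasJet (R ^ j).val (s t) (s t') e := by
    intro j
    induction j with
    | zero =>
      intro t
      exact ⟨t, 1, hasJet_X (s t)⟩
    | succ j ih =>
      intro t
      obtain ⟨t', e, he⟩ := ih (φ t)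
      refine ⟨t', e * 0, ?_⟩
      rw [pow_succ]
      exact (hRs t).comp R.nonconst he
  apply not_lattes ((ρ u : RatMap) * R ^ m).nonconst (Set.range s) (Set.finite_range s)
    (Set.range_nonempty s)
  rintro _ ⟨t, rfl⟩
  obtain ⟨m', rfl⟩ := Nat.exists_eq_add_of_le hm
  obtain ⟨t', e, he⟩ := hpow m' (φ t)
  obtain ⟨e', he', -⟩ := hmove t' u
  refine ⟨s (u * t'), ⟨_, rfl⟩, ?_⟩
  have h1 : HasJet (R ^ (1 + m')).val (s t) (s t') (e * 0) := by
    rw [add_comm, pow_succ]
    exact (hRs t).comp R.nonconst he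
  have h2 := h1.comp (R ^ (1 + m')).nonconst he'
  exact h2.congr rfl (by ring)

/-- **Sufficiency.** -/
theorem sufficiency {G : Type*} [Group G] [Finite G] (T : Subgroup G) [T.Normal]
    (hcyc : IsCyclic (G ⧸ T)) (f : T →* Matrix.ProjGenLinGroup (Fin 2) ℂ)
    (hf : Function.Injective f) :
    ∃ P : RatMap, 2 ≤ P.degree ∧ ¬ IsSpecial P ∧ Nonempty (G ≃* GP P) := by
  classical
  obtain ⟨γ, hγ⟩ := hcyc.exists_generator
  obtain ⟨g, rfl⟩ := QuotientGroup.mk_surjective γ
  set m := orderOf (g : G ⧸ T) with hm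
  have hmpos : 1 ≤ m := orderOf_pos _
  have hgm : g ^ m ∈ T := by
    rw [← QuotientGroup.eq_one_iff, QuotientGroup.mk_pow]; exact pow_orderOf_eq_one _
  let t₀ : T := ⟨g ^ m, hgm⟩
  let ρ : T →* RatMapˣ := mobIso.toMonoidHom.comp f
  have hρ : Function.Injective ρ := mobIso.injective.comp hf
  let ρ₂ : T →* RatMapˣ := ρ.comp (MulAut.conjNormal g : MulAut T).toMonoidHom
  have hρ₂ : Function.Injective ρ₂ := hρ.comp (MulAut.conjNormal g : MulAut T).injective
  obtain ⟨R, hR, heq', hkey, hsym, c₀, hc₀, hreg⟩ := exists_R ρ ρ₂ hρ hρ₂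
  have heq : ∀ t, R * (ρ t : RatMap) = (ρ (cj g t) : RatMap) * R := heq'
  set Q : RatMap := (ρ t₀⁻¹ : RatMap) * R ^ m with hQ
  have hR1 : R = (ρ 1 : RatMap) * R ^ 1 := by rw [map_one, Units.val_one, one_mul, pow_one]
  have hstd : ∀ (t : T) (j : ℕ), ((ρ t : RatMap) * R ^ j) * Q = Q * ((ρ t : RatMap) * R ^ j) := by
    intro t j
    have e1 : t * cj (g ^ j) t₀⁻¹ = t₀⁻¹ * cj (g ^ m) t := by
      apply Subtype.ext
      rw [Subgroup.coe_mul, Subgroup.coe_mul, coe_cj, coe_cj, Subgroup.coe_inv]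
      show (t : G) * (g ^ j * (g ^ m)⁻¹ * (g ^ j)⁻¹) = (g ^ m)⁻¹ * (g ^ m * t * (g ^ m)⁻¹)
      group
    rw [hQ, std_mul heq, std_mul heq, add_comm m j, e1]
  have hRQ : R * Q = Q * R := by
    have := hstd 1 1
    rwa [← hR1] at this
  have hcent : ∀ X : RatMap, X * Q = Q * X → ∃ t j, X = (ρ t : RatMap) * R ^ j := fun X hX =>
    centralizer_eq hR hkey hsym hmpos t₀ hRQ X.degree X le_rfl hX
  have hQdeg : 2 ≤ Q.degree := by
    rw [hQ, std_degree]
    calc 2 ≤ R.degree := hR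
      _ = R.degree ^ 1 := (pow_one _).symm
      _ ≤ R.degree ^ m := Nat.pow_le_pow_right (by omega) hmpos
  refine ⟨Q, hQdeg, ?_, ?_⟩
  · rintro (h | ⟨μ, n, hn, h⟩)
    · exact lattes_set ρ (cj g) R heq hc₀ hreg hmpos t₀⁻¹ h
    · refine not_special_conj hR ?_ μ n hn h
      intro W hW
      obtain ⟨t, j, rfl⟩ := hcent W hW
      exact ⟨j, std_degree j t⟩
  -- the isomorphism
  have hC : ∀ X : Submonoid.centralizer ({Q} : Set RatMap), ∃ t j,
      (X : RatMap) = (ρ t : RatMap) * R ^ j := fun X =>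
    hcent X ((Submonoid.mem_centralizer_iff.1 X.2) Q rfl).symm
  choose τ e hτe using hC
  have huniq : ∀ (X : Submonoid.centralizer ({Q} : Set RatMap)) (t : T) (j : ℕ),
      (X : RatMap) = (ρ t : RatMap) * R ^ j → τ X = t ∧ e X = j := by
    intro X t j h
    rw [hτe X] at h
    exact std_unique hρ hR h
  let Ψ : Submonoid.centralizer ({Q} : Set RatMap) →* G :=
    { toFun := fun X => (τ X : G) * g ^ (e X)
      map_one' := by
        obtain ⟨h1, h2⟩ := huniq 1 1 0 (by
          rw [map_one, Units.val_one, one_mul, pow_zero]; rfl)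
        rw [h1, h2, pow_zero, mul_one, Subgroup.coe_one]
      map_mul' := by
        intro X Y
        obtain ⟨h1, h2⟩ := huniq (X * Y) (τ X * cj (g ^ e X) (τ Y)) (e X + e Y) (by
          rw [← std_mul heq, ← hτe X, ← hτe Y]; rfl)
        rw [h1, h2, Subgroup.coe_mul, coe_cj, pow_add]
        group }
  have hΨ : ∀ X, Ψ X = (τ X : G) * g ^ (e X) := fun X => rfl
  have he_mul : ∀ X Y, e (X * Y) = e X + e Y := by
    intro X Y
    exact (huniq (X * Y) (τ X * cj (g ^ e X) (τ Y)) (e X + e Y) (by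
          rw [← std_mul heq, ← hτe X, ← hτe Y]; rfl)).2
  obtain ⟨hτQ, heQ⟩ := huniq (selfMem Q) t₀⁻¹ m rfl
  have hΨQ : Ψ (selfMem Q) = 1 := by
    rw [hΨ, hτQ, heQ, Subgroup.coe_inv]
    exact inv_mul_cancel _
  have he_pow : ∀ (X : Submonoid.centralizer ({Q} : Set RatMap)) (l : ℕ),
      e (X * selfMem Q ^ l) = e X + m * l := by
    intro X l
    induction l with
    | zero => rw [pow_zero, mul_one, mul_zero, add_zero]
    | succ l ih => rw [pow_succ, ← mul_assoc, he_mul, ih, heQ]; ring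
  have hsurj : Function.Surjective Ψ := by
    intro x
    obtain ⟨k, hk⟩ : ∃ k : ℕ, (g : G ⧸ T) ^ k = (x : G ⧸ T) := by
      have h1 := hγ (x : G ⧸ T)
      rw [← mem_powers_iff_mem_zpowers] at h1
      exact h1
    have hx : x * (g ^ k)⁻¹ ∈ T := by
      rw [← QuotientGroup.eq_one_iff, QuotientGroup.mk_mul, QuotientGroup.mk_inv,
        QuotientGroup.mk_pow, hk, mul_inv_cancel]
    refine ⟨⟨(ρ ⟨x * (g ^ k)⁻¹, hx⟩ : RatMap) * R ^ k, ?_⟩, ?_⟩
    · rw [Submonoid.mem_centralizer_iff]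
      rintro _ rfl
      exact (hstd _ _).symm
    · obtain ⟨h1, h2⟩ := huniq ⟨(ρ ⟨x * (g ^ k)⁻¹, hx⟩ : RatMap) * R ^ k, _⟩ _ _ rfl
      rw [hΨ, h1, h2]
      exact inv_mul_cancel_right x (g ^ k)
  have hker : simCon Q ≤ Con.ker Ψ := by
    intro X Y hXY
    obtain ⟨a, b, hab⟩ := hXY
    have h1 : X * selfMem Q ^ a = Y * selfMem Q ^ b := by
      apply Subtype.ext
      rw [Submonoid.coe_mul, Submonoid.coe_mul, coe_selfMem_pow, coe_selfMem_pow]
      exact hab
    have h2 := congrArg Ψ h1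
    rw [map_mul, map_mul, map_pow, map_pow, hΨQ, one_pow, one_pow, mul_one, mul_one] at h2
    exact h2
  have hinj : Function.Injective ((simCon Q).lift Ψ hker) := by
    intro x y
    induction x using Con.induction_on with
    | H X =>
      induction y using Con.induction_on with
      | H Y =>
        intro h
        rw [Con.lift_coe, Con.lift_coe] at h
        rw [GP_mk_eq_iff]
        have h1 : (g : G ⧸ T) ^ e X = (g : G ⧸ T) ^ e Y := by
          have h2 := congrArg (fun z : G => (z : G ⧸ T)) h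
          simp only [hΨ, QuotientGroup.mk_mul, QuotientGroup.mk_pow] at h2
          rwa [(QuotientGroup.eq_one_iff _).2 (τ X).2, (QuotientGroup.eq_one_iff _).2 (τ Y).2,
            one_mul, one_mul] at h2
        have h2 : e X % m = e Y % m := pow_eq_pow_iff_modEq.1 h1
        have h3 : e (X * selfMem Q ^ (e Y / m)) = e (Y * selfMem Q ^ (e X / m)) := by
          rw [he_pow, he_pow]
          have h4 := Nat.div_add_mod (e X) m
          have h5 := Nat.div_add_mod (e Y) m
          omega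
        have h4 : Ψ (X * selfMem Q ^ (e Y / m)) = Ψ (Y * selfMem Q ^ (e X / m)) := by
          rw [map_mul, map_mul, map_pow, map_pow, hΨQ, one_pow, one_pow, mul_one, mul_one, h]
        rw [hΨ, hΨ, h3] at h4
        have h5 : τ (X * selfMem Q ^ (e Y / m)) = τ (Y * selfMem Q ^ (e X / m)) :=
          Subtype.ext (mul_right_cancel h4)
        have h6 : ((X * selfMem Q ^ (e Y / m) : Submonoid.centralizer ({Q} : Set RatMap)) : RatMap)
            = ((Y * selfMem Q ^ (e X / m) : Submonoid.centralizer ({Q} : Set RatMap)) : RatMap) := by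
          rw [hτe, hτe (Y * selfMem Q ^ (e X / m)), h5, h3]
        rw [Submonoid.coe_mul, Submonoid.coe_mul, coe_selfMem_pow, coe_selfMem_pow] at h6
        exact ⟨_, _, h6⟩
  exact ⟨(MulEquiv.ofBijective ((simCon Q).lift Ψ hker)
    ⟨hinj, Con.lift_surjective_of_surjective hker hsurj⟩).symm⟩

end Pool.Agent.Helper74_Centr
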