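import Pool.Agent.Helper74_Centr.Deriv

/-!
# The generic family
-/

namespace Pool.Agent.Helper74_Centr

open Polynomial

/-- Coefficientwise extension of a derivation of `ℂ` to `ℂ[X]`. -/
noncomputable def mapD (D : Derivation ℤ ℂ ℂ) : Derivation ℤ ℂ[X] ℂ[X] :=
  @Differential.mapCoeffs ℂ _ ⟨D⟩

theorem mapD_coeff (D : Derivation ℤ ℂ ℂ) (p : ℂ[X]) (i : ℕ) :
    (mapD D p).coeff i = D (p.coeff i) :=
  @Differential.coeff_mapCoeffs ℂ _ ⟨D⟩ p i

theorem mapD_C (D : Derivation ℤ ℂ ℂ) (a : ℂ) : mapD D (C a) = C (D a) := by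
  ext i
  rw [mapD_coeff, coeff_C, coeff_C]
  split_ifs <;> simp

theorem mapD_X (D : Derivation ℤ ℂ ℂ) : mapD D (X : ℂ[X]) = 0 := by
  ext i
  rw [mapD_coeff, coeff_X]
  split_ifs <;> simp

theorem mapD_mul (D : Derivation ℤ ℂ ℂ) (p q : ℂ[X]) :
    mapD D (p * q) = p * mapD D q + q * mapD D p := by
  rw [Derivation.leibniz, smul_eq_mul, smul_eq_mul]

theorem mapD_derivative (D : Derivation ℤ ℂ ℂ) (p : ℂ[X]) :
    mapD D (derivative p) = derivative (mapD D p) := by
  ext i
  rw [mapD_coeff, coeff_derivative, coeff_derivative, mapD_coeff, Derivation.leibniz]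
  have : D ((i : ℂ) + 1) = 0 := by
    have := D.map_natCast (i + 1)
    push_cast at this
    exact this
  rw [this, smul_zero, zero_add, smul_eq_mul, mul_comm]

theorem mapD_natDegree_le (D : Derivation ℤ ℂ ℂ) (p : ℂ[X]) :
    (mapD D p).natDegree ≤ p.natDegree := by
  rw [natDegree_le_iff_coeff_eq_zero]
  intro N hN
  rw [mapD_coeff, coeff_eq_zero_of_natDegree_lt hN, map_zero]

theorem D_eval (D : Derivation ℤ ℂ ℂ) (p : ℂ[X]) (c : ℂ) :
    D (p.eval c) = (mapD D p).eval c + (derivative p).eval c * D c := by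
  induction p using Polynomial.induction_on' with
  | add p q hp hq => simp only [eval_add, map_add, hp, hq]; ring
  | monomial n a =>
    have h : mapD D (monomial n a) = monomial n (D a) := by
      ext i
      rw [mapD_coeff, coeff_monomial, coeff_monomial]
      split_ifs <;> simp
    rw [h, eval_monomial, eval_monomial, derivative_monomial, eval_monomial,
      Derivation.leibniz, Derivation.leibniz_pow]
    simp only [smul_eq_mul, nsmul_eq_mul]
    ring

/-- Linear combinations of derivations. -/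
theorem sum_smul_apply {m : ℕ} (D : Fin m → Derivation ℤ ℂ ℂ) (f : Fin m → ℂ) (x : ℂ) :
    (∑ i, f i • D i : Derivation ℤ ℂ ℂ) x = ∑ i, f i * D i x := by
  rw [← Derivation.coeFnAddMonoidHom_apply, map_sum, Finset.sum_apply]
  rfl

/-- The data defining the generic family. -/
structure GenData (n : ℕ) where
  /-- generic parameters -/
  τ : Fin (n + 1) → ℂ
  /-- dual derivations -/
  D : Fin (n + 1) → Derivation ℤ ℂ ℂ
  dual : ∀ i j, D i (τ j) = if j = i then 1 else 0
  /-- coefficients -/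
  a₀ : ℂ[X]
  b₀ : ℂ[X]
  a₁ : ℂ[X]
  b₁ : ℂ[X]
  wn : ℂ[X]
  wd : ℂ[X]
  ha₀ : ∀ i, mapD (D i) a₀ = 0
  hb₀ : ∀ i, mapD (D i) b₀ = 0
  ha₁ : ∀ i, mapD (D i) a₁ = 0
  hb₁ : ∀ i, mapD (D i) b₁ = 0
  hwn : ∀ i, mapD (D i) wn = 0
  hwd : ∀ i, mapD (D i) wd = 0
  hn : 1 ≤ n
  Δne : a₁ * b₀ - a₀ * b₁ ≠ 0
  A₂ne : wronskian a₁ b₁ ≠ 0
  cop : IsCoprime wn wd
  wne : wronskian wn wd ≠ 0

namespace GenData

variable {n : ℕ} (G : GenData n)

/-- membership in the field of constants -/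
def InL (x : ℂ) : Prop := ∀ i, G.D i x = 0

/-- polynomials with constant coefficients -/
def LPoly (p : ℂ[X]) : Prop := ∀ i, mapD (G.D i) p = 0

variable {G}

theorem InL.add {x y : ℂ} (hx : G.InL x) (hy : G.InL y) : G.InL (x + y) := fun i => by
  rw [map_add, hx i, hy i, add_zero]

theorem InL.neg {x : ℂ} (hx : G.InL x) : G.InL (-x) := fun i => by
  rw [map_neg, hx i, neg_zero]

theorem InL.sub {x y : ℂ} (hx : G.InL x) (hy : G.InL y) : G.InL (x - y) := fun i => by
  rw [map_sub, hx i, hy i, sub_zero]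

theorem InL.mul {x y : ℂ} (hx : G.InL x) (hy : G.InL y) : G.InL (x * y) := fun i => by
  rw [Derivation.leibniz, hx i, hy i, smul_zero, smul_zero, add_zero]

theorem LPoly.coeff {p : ℂ[X]} (hp : G.LPoly p) (k : ℕ) : G.InL (p.coeff k) := fun i => by
  rw [← mapD_coeff, hp i, coeff_zero]

theorem LPoly.mul {p q : ℂ[X]} (hp : G.LPoly p) (hq : G.LPoly q) : G.LPoly (p * q) := fun i => by
  rw [mapD_mul, hp i, hq i, mul_zero, mul_zero, add_zero]

theorem LPoly.add {p q : ℂ[X]} (hp : G.LPoly p) (hq : G.LPoly q) : G.LPoly (p + q) := fun i => by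
  rw [map_add, hp i, hq i, add_zero]

theorem LPoly.sub {p q : ℂ[X]} (hp : G.LPoly p) (hq : G.LPoly q) : G.LPoly (p - q) := fun i => by
  rw [map_sub, hp i, hq i, sub_zero]

theorem LPoly.pow {p : ℂ[X]} (hp : G.LPoly p) (k : ℕ) : G.LPoly (p ^ k) := by
  induction k with
  | zero => intro i; rw [pow_zero]; exact (mapD (G.D i)).map_one_eq_zero
  | succ k ih => rw [pow_succ]; exact ih.mul hp

theorem LPoly.deriv {p : ℂ[X]} (hp : G.LPoly p) : G.LPoly (derivative p) := fun i => by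
  rw [mapD_derivative, hp i, derivative_zero]

theorem LPoly.wronskian {p q : ℂ[X]} (hp : G.LPoly p) (hq : G.LPoly q) :
    G.LPoly (wronskian p q) := (hp.mul hq.deriv).sub (hp.deriv.mul hq)

theorem lpoly_C {a : ℂ} (ha : G.InL a) : G.LPoly (C a) := fun i => by
  rw [mapD_C, ha i, C_0]

theorem lpoly_X : G.LPoly X := fun i => mapD_X _

/-- `L` is algebraically closed in `ℂ`. -/
theorem inL_of_root : ∀ (k : ℕ) (p : ℂ[X]), p.natDegree ≤ k → G.LPoly p → p ≠ 0 →
    ∀ c, p.eval c = 0 → G.InL c := by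
  intro k
  induction k with
  | zero =>
    intro p hk _ hp0 c hc
    exfalso
    obtain ⟨a, rfl⟩ := natDegree_eq_zero.1 (Nat.le_zero.1 hk)
    rw [eval_C] at hc
    apply hp0
    rw [hc, C_0]
  | succ k ih =>
    intro p hk hp hp0 c hc
    by_contra hcL
    rw [InL] at hcL
    push Not at hcL
    obtain ⟨i, hi⟩ := hcL
    have h1 := D_eval (G.D i) p c
    rw [hc, map_zero, hp i, eval_zero, zero_add] at h1
    have h2 : (derivative p).eval c = 0 := (mul_eq_zero.1 h1.symm).resolve_right hi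
    have h3 : derivative p ≠ 0 := by
      intro h0
      rw [derivative_eq_zero] at h0
      obtain ⟨a, rfl⟩ := natDegree_eq_zero.1 h0
      rw [eval_C] at hc
      apply hp0
      rw [hc, C_0]
    have h4 : (derivative p).natDegree ≤ k := by
      have := natDegree_derivative_le p
      omega
    exact hi (ih _ h4 hp.deriv h3 c h2 i)

theorem eval_ne_zero {p : ℂ[X]} (hp : G.LPoly p) (hp0 : p ≠ 0) {c : ℂ} (hc : ¬ G.InL c) :
    p.eval c ≠ 0 := fun h => hc (inL_of_root _ p le_rfl hp hp0 c h)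

variable (G)

/-- The discriminant. -/
noncomputable def Δ : ℂ[X] := G.a₁ * G.b₀ - G.a₀ * G.b₁

/-- The polynomial `Σ f i · wn^i wd^(n-i)`. -/
noncomputable def F (f : Fin (n + 1) → ℂ) : ℂ[X] :=
  ∑ i : Fin (n + 1), C (f i) * (G.wn ^ (i : ℕ) * G.wd ^ (n - i))

/-- numerator -/
noncomputable def p : ℂ[X] := G.a₀ * G.wd ^ n + G.a₁ * G.F G.τ

/-- denominator -/
noncomputable def q : ℂ[X] := G.b₀ * G.wd ^ n + G.b₁ * G.F G.τ

/-- The derivation with `D τ_i = f_i`. -/
noncomputable def Df (f : Fin (n + 1) → ℂ) : Derivation ℤ ℂ ℂ := ∑ i, f i • G.D i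

variable {G}

theorem Df_apply (f : Fin (n + 1) → ℂ) (x : ℂ) : G.Df f x = ∑ i, f i * G.D i x :=
  sum_smul_apply _ _ _

theorem Df_τ (f : Fin (n + 1) → ℂ) (j : Fin (n + 1)) : G.Df f (G.τ j) = f j := by
  rw [Df_apply]
  simp [G.dual]

theorem Df_inL (f : Fin (n + 1) → ℂ) {x : ℂ} (hx : G.InL x) : G.Df f x = 0 := by
  rw [Df_apply]
  exact Finset.sum_eq_zero (fun i _ => by rw [hx i, mul_zero])

theorem mapDf_lpoly (f : Fin (n + 1) → ℂ) {p : ℂ[X]} (hp : G.LPoly p) : mapD (G.Df f) p = 0 := by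
  ext k
  rw [mapD_coeff, Df_inL f (hp.coeff k), coeff_zero]

theorem lp_a₀ : G.LPoly G.a₀ := G.ha₀
theorem lp_b₀ : G.LPoly G.b₀ := G.hb₀
theorem lp_a₁ : G.LPoly G.a₁ := G.ha₁
theorem lp_b₁ : G.LPoly G.b₁ := G.hb₁
theorem lp_wn : G.LPoly G.wn := G.hwn
theorem lp_wd : G.LPoly G.wd := G.hwd
theorem lp_Δ : G.LPoly G.Δ := (lp_a₁.mul lp_b₀).sub (lp_a₀.mul lp_b₁)

theorem mapDf_F (f g : Fin (n + 1) → ℂ) :
    mapD (G.Df f) (G.F g) = ∑ i : Fin (n + 1), C (G.Df f (g i)) * (G.wn ^ (i : ℕ) * G.wd ^ (n - i)) := by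
  rw [F, map_sum]
  apply Finset.sum_congr rfl
  intro i _
  rw [mapD_mul, mapDf_lpoly f ((lp_wn.pow _).mul (lp_wd.pow _)), mul_zero, zero_add, mapD_C, mul_comm]

theorem mapDf_Fτ (f : Fin (n + 1) → ℂ) : mapD (G.Df f) (G.F G.τ) = G.F f := by
  rw [mapDf_F, F]
  apply Finset.sum_congr rfl
  intro i _
  rw [Df_τ]

theorem mapDf_p (f : Fin (n + 1) → ℂ) : mapD (G.Df f) G.p = G.a₁ * G.F f := by
  rw [p, map_add, mapDf_lpoly f (lp_a₀.mul (lp_wd.pow _)), zero_add, mapD_mul,
    mapDf_lpoly f lp_a₁, mapDf_Fτ, mul_zero, add_zero]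

theorem mapDf_q (f : Fin (n + 1) → ℂ) : mapD (G.Df f) G.q = G.b₁ * G.F f := by
  rw [q, map_add, mapDf_lpoly f (lp_b₀.mul (lp_wd.pow _)), zero_add, mapD_mul,
    mapDf_lpoly f lp_b₁, mapDf_Fτ, mul_zero, add_zero]

theorem det_identity : G.a₁ * G.q - G.b₁ * G.p = G.Δ * G.wd ^ n := by
  rw [p, q, Δ]; ring

theorem wd_ne : G.wd ≠ 0 := fun h => G.wne (by rw [h, wronskian_zero_right])
theorem wn_ne : G.wn ≠ 0 := fun h => G.wne (by rw [h, wronskian_zero_left])
theorem b₁_ne : G.b₁ ≠ 0 := fun h => G.A₂ne (by rw [h, wronskian_zero_right])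

/-- The indicator vector of an index. -/
def e (i : Fin (n + 1)) : Fin (n + 1) → ℂ := Pi.single i 1

theorem F_e (i : Fin (n + 1)) : G.F (e i) = G.wn ^ (i : ℕ) * G.wd ^ (n - i) := by
  rw [F, Finset.sum_eq_single i]
  · simp [e]
  · intro j _ hj
    simp [e, hj]
  · simp

theorem F_e_zero : G.F (e 0) = G.wd ^ n := by
  rw [F_e]; simp

theorem F_e_last : G.F (e (Fin.last n)) = G.wn ^ n := by
  rw [F_e]; simp

/-- the index `1` -/
def one' (G : GenData n) : Fin (n + 1) := ⟨1, by have := G.hn; omega⟩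

theorem F_e_one : G.F (e G.one') = G.wn * G.wd ^ (n - 1) := by
  rw [F_e]; simp [one']

variable (G)

/-- The Wronskian of the family. -/
noncomputable def W : ℂ[X] := wronskian G.p G.q

variable {G}

theorem mapDf_W (f : Fin (n + 1) → ℂ) : mapD (G.Df f) G.W =
    G.F f * (G.a₁ * derivative G.q - derivative G.a₁ * G.q + G.p * derivative G.b₁ -
      derivative G.p * G.b₁) - derivative (G.F f) * (G.Δ * G.wd ^ n) := by
  rw [W, wronskian, map_sub, mapD_mul, mapD_mul, mapD_derivative, mapD_derivative, mapDf_p,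
    mapDf_q, ← det_identity, derivative_mul, derivative_mul]
  ring

theorem lp_F {f : Fin (n + 1) → ℂ} (hf : ∀ i, G.InL (f i)) : G.LPoly (G.F f) := by
  intro j
  rw [F, map_sum]
  apply Finset.sum_eq_zero
  intro i _
  exact ((lpoly_C (hf i)).mul ((lp_wn.pow _).mul (lp_wd.pow _))) j

theorem inL_e (i j : Fin (n + 1)) : G.InL (e i j) := by
  intro k
  by_cases h : j = i
  · subst h; simp [e]
  · simp [e, h]

theorem mapDf_mapDf_W {f : Fin (n + 1) → ℂ} (hf : ∀ i, G.InL (f i)) :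
    mapD (G.Df f) (mapD (G.Df f) G.W) = 2 * G.F f ^ 2 * wronskian G.a₁ G.b₁ := by
  have hF := lp_F hf
  have h1 : mapD (G.Df f) (G.F f) = 0 := mapDf_lpoly f hF
  have h2 : mapD (G.Df f) (derivative (G.F f) * (G.Δ * G.wd ^ n)) = 0 :=
    mapDf_lpoly f (hF.deriv.mul (lp_Δ.mul (lp_wd.pow n)))
  rw [mapDf_W, map_sub, h2, sub_zero, mapD_mul, h1, mul_zero, add_zero, map_sub, map_add, map_sub,
    mapD_mul, mapD_mul, mapD_mul, mapD_mul, mapD_derivative, mapD_derivative, mapD_derivative,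
    mapD_derivative, mapDf_lpoly f lp_a₁, mapDf_lpoly f lp_b₁, mapDf_p, mapDf_q, derivative_mul,
    derivative_mul, wronskian]
  simp only [derivative_zero]
  ring

/-- `W` has large degree. -/
theorem natDegree_W : (wronskian G.a₁ G.b₁).natDegree + 2 * n * max G.wn.natDegree G.wd.natDegree
    ≤ G.W.natDegree := by
  have key : ∀ i : Fin (n + 1), (2 * G.F (e i) ^ 2 * wronskian G.a₁ G.b₁).natDegree
      ≤ G.W.natDegree := by
    intro i
    rw [← mapDf_mapDf_W (fun j => inL_e i j)]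
    exact (mapD_natDegree_le _ _).trans (mapD_natDegree_le _ _)
  have hdeg : ∀ g : ℂ[X], g ≠ 0 → (2 * (g ^ n) ^ 2 * wronskian G.a₁ G.b₁).natDegree =
      2 * n * g.natDegree + (wronskian G.a₁ G.b₁).natDegree := by
    intro g hg
    have h2 : (2 : ℂ[X]) = C 2 := (map_ofNat C 2).symm
    rw [mul_assoc, h2, natDegree_C_mul two_ne_zero, natDegree_mul (pow_ne_zero _ (pow_ne_zero _ hg))
      G.A₂ne, natDegree_pow, natDegree_pow]
    ring
  have k0 := key 0
  have k1 := key (Fin.last n)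
  rw [F_e_zero, hdeg _ wd_ne] at k0
  rw [F_e_last, hdeg _ wn_ne] at k1
  rcases max_choice G.wn.natDegree G.wd.natDegree with h | h
  · rw [h]; omega
  · rw [h]; omega

theorem W_ne_zero_of (h : 0 < max G.wn.natDegree G.wd.natDegree) : G.W ≠ 0 := by
  intro h0
  have := natDegree_W (G := G)
  rw [h0, natDegree_zero] at this
  have hn := G.hn
  have : 2 * n * max G.wn.natDegree G.wd.natDegree = 0 := by omega
  rw [mul_eq_zero] at this
  omega

theorem Nw_pos : 0 < max G.wn.natDegree G.wd.natDegree := by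
  by_contra h
  push Not at h
  have h1 : G.wn.natDegree = 0 := by have := le_max_left G.wn.natDegree G.wd.natDegree; omega
  have h2 : G.wd.natDegree = 0 := by have := le_max_right G.wn.natDegree G.wd.natDegree; omega
  apply G.wne
  rw [G.cop.wronskian_eq_zero_iff, derivative_eq_zero, derivative_eq_zero]
  exact ⟨h1, h2⟩

theorem W_ne : G.W ≠ 0 := W_ne_zero_of Nw_pos

/-- Multiplicities of `W` at constants are bounded. -/
theorem mult_W {a : ℂ} (ha : G.InL a) :
    G.W.rootMultiplicity a ≤ (wronskian G.a₁ G.b₁).rootMultiplicity a := by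
  rw [le_rootMultiplicity_iff G.A₂ne]
  set m := G.W.rootMultiplicity a
  have hdvd : ∀ (f : Fin (n + 1) → ℂ) (g : ℂ[X]), (X - C a) ^ m ∣ g →
      (X - C a) ^ m ∣ mapD (G.Df f) g := by
    rintro f g ⟨h, rfl⟩
    rw [mapD_mul, mapDf_lpoly f ((lpoly_X.sub (lpoly_C ha)).pow m), mul_zero, add_zero]
    exact Dvd.intro _ rfl
  have h0 : (X - C a) ^ m ∣ G.W := pow_rootMultiplicity_dvd _ _
  have key : ∀ i, (X - C a) ^ m ∣ 2 * G.F (e i) ^ 2 * wronskian G.a₁ G.b₁ := by
    intro i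
    rw [← mapDf_mapDf_W (fun j => inL_e i j)]
    exact hdvd _ _ (hdvd _ _ h0)
  have fin : ∀ g : ℂ[X], g.eval a ≠ 0 → (X - C a) ^ m ∣ 2 * (g ^ n) ^ 2 * wronskian G.a₁ G.b₁ →
      (X - C a) ^ m ∣ wronskian G.a₁ G.b₁ := by
    intro g hg h
    have hcop : IsCoprime ((X - C a) ^ m) (2 * (g ^ n) ^ 2) := by
      apply IsCoprime.pow_left
      have h2 : (2 : ℂ[X]) = C 2 := (map_ofNat C 2).symm
      rw [(irreducible_X_sub_C a).coprime_iff_not_dvd, dvd_iff_isRoot, IsRoot.def, h2]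
      simp [hg]
    exact hcop.dvd_of_dvd_mul_left h
  by_cases hw : G.wd.eval a = 0
  · have hwn : G.wn.eval a ≠ 0 := by
      intro h
      obtain ⟨u, v, huv⟩ := G.cop
      have := congrArg (Polynomial.eval a) huv
      rw [eval_add, eval_mul, eval_mul, hw, h] at this
      simp at this
    have k1 := key (Fin.last n)
    rw [F_e_last] at k1
    exact fin _ hwn k1
  · have k0 := key 0
    rw [F_e_zero] at k0
    exact fin _ hw k0

/-- At a nonconstant critical point the denominator does not vanish. -/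
theorem q_ne {c : ℂ} (hc : ¬ G.InL c) (hW : G.W.eval c = 0) : G.q.eval c ≠ 0 := by
  intro hq
  rw [W, wronskian, eval_sub, eval_mul, eval_mul, hq, mul_zero, sub_zero, mul_eq_zero] at hW
  have hwdc := eval_ne_zero lp_wd wd_ne hc
  rcases hW with hp | hq'
  · have := congrArg (Polynomial.eval c) (det_identity (G := G))
    rw [eval_sub, eval_mul, eval_mul, hp, hq, mul_zero, mul_zero, sub_zero, eval_mul, eval_pow]
      at this
    have h1 := eval_ne_zero lp_Δ G.Δne hc
    exact mul_ne_zero h1 (pow_ne_zero n hwdc) this.symm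
  · have h1 := D_eval (G.Df (e 0)) G.q c
    rw [hq, hq', zero_mul, add_zero, map_zero, mapDf_q, F_e_zero, eval_mul, eval_pow] at h1
    exact mul_ne_zero (eval_ne_zero lp_b₁ b₁_ne hc) (pow_ne_zero n hwdc) h1.symm

/-- Nonconstant critical points are simple. -/
theorem simple {c : ℂ} (hc : ¬ G.InL c) (hW : G.W.eval c = 0) :
    (derivative G.W).eval c ≠ 0 := by
  intro hW'
  have key : ∀ f, (mapD (G.Df f) G.W).eval c = 0 := by
    intro f
    have h1 := D_eval (G.Df f) G.W c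
    rw [hW, hW', zero_mul, add_zero, map_zero] at h1
    exact h1.symm
  have k0 := key (e 0)
  have k1 := key (e G.one')
  rw [mapDf_W, eval_sub, eval_mul, eval_mul] at k0 k1
  have hw : wronskian (G.F (e G.one')) (G.F (e 0)) = (G.wd ^ (n - 1)) ^ 2 * wronskian G.wn G.wd := by
    have hn := G.hn
    obtain ⟨m, rfl⟩ := Nat.exists_eq_add_of_le hn
    rw [F_e_one, F_e_zero]
    have e1 : 1 + m - 1 = m := by omega
    rw [e1, pow_add, pow_one, wronskian, wronskian, derivative_mul, derivative_mul]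
    ring
  have h1 : (wronskian (G.F (e G.one')) (G.F (e 0))).eval c * (G.Δ * G.wd ^ n).eval c = 0 := by
    rw [wronskian, eval_sub, eval_mul, eval_mul]
    linear_combination (G.F (e 0)).eval c * k1 - (G.F (e G.one')).eval c * k0
  rw [hw, eval_mul, eval_pow, eval_pow, eval_mul, eval_pow] at h1
  have hwdc := eval_ne_zero lp_wd wd_ne hc
  exact mul_ne_zero (mul_ne_zero (pow_ne_zero _ (pow_ne_zero _ hwdc))
    (eval_ne_zero (lp_wn.wronskian lp_wd) G.wne hc))
    (mul_ne_zero (eval_ne_zero lp_Δ G.Δne hc) (pow_ne_zero _ hwdc)) h1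

open Classical in
/-- The nonconstant critical points. -/
noncomputable def Crit (G : GenData n) : Finset ℂ := G.W.roots.toFinset.filter (fun c => ¬ G.InL c)

open Classical in
/-- The constant roots of the Wronskian. -/
noncomputable def LRoots (G : GenData n) : Finset ℂ := G.W.roots.toFinset.filter (fun c => G.InL c)

open Classical in
theorem mem_Crit {c : ℂ} : c ∈ G.Crit ↔ ¬ G.InL c ∧ G.W.eval c = 0 := by
  rw [Crit, Finset.mem_filter, Multiset.mem_toFinset, mem_roots W_ne, and_comm]; rfl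

open Classical in
theorem mem_LRoots {c : ℂ} : c ∈ G.LRoots ↔ G.InL c ∧ G.W.eval c = 0 := by
  rw [LRoots, Finset.mem_filter, Multiset.mem_toFinset, mem_roots W_ne, and_comm]; rfl

theorem mult_Crit {c : ℂ} (hc : c ∈ G.Crit) : G.W.rootMultiplicity c = 1 := by
  rw [mem_Crit] at hc
  have h1 : 0 < G.W.rootMultiplicity c := (rootMultiplicity_pos W_ne).2 hc.2
  have h2 : ¬ 1 < G.W.rootMultiplicity c := by
    rw [one_lt_rootMultiplicity_iff_isRoot W_ne]
    rintro ⟨_, h⟩
    exact simple hc.1 hc.2 h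
  omega

theorem sum_LRoots : ∑ y ∈ G.LRoots, G.W.rootMultiplicity y ≤ (wronskian G.a₁ G.b₁).natDegree := by
  classical
  calc ∑ y ∈ G.LRoots, G.W.rootMultiplicity y
      ≤ ∑ y ∈ G.LRoots, (wronskian G.a₁ G.b₁).rootMultiplicity y :=
        Finset.sum_le_sum (fun y hy => mult_W (mem_LRoots.1 hy).1)
    _ ≤ ∑ y ∈ G.LRoots ∪ (wronskian G.a₁ G.b₁).roots.toFinset,
          (wronskian G.a₁ G.b₁).rootMultiplicity y :=
        Finset.sum_le_sum_of_subset Finset.subset_union_left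
    _ = ∑ y ∈ (wronskian G.a₁ G.b₁).roots.toFinset, (wronskian G.a₁ G.b₁).rootMultiplicity y := by
        symm
        apply Finset.sum_subset Finset.subset_union_right
        intro y _ hy
        rw [Multiset.mem_toFinset] at hy
        rw [← count_roots]
        exact Multiset.count_eq_zero_of_notMem hy
    _ = Multiset.card (wronskian G.a₁ G.b₁).roots := by
        rw [← Multiset.toFinset_sum_count_eq]
        exact Finset.sum_congr rfl (fun y _ => (count_roots _).symm)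
    _ ≤ _ := card_roots' _

theorem card_LRoots : G.LRoots.card ≤ (wronskian G.a₁ G.b₁).natDegree := by
  refine le_trans ?_ sum_LRoots
  rw [Finset.card_eq_sum_ones]
  apply Finset.sum_le_sum
  intro y hy
  exact (rootMultiplicity_pos W_ne).2 (mem_LRoots.1 hy).2

open Classical in
/-- There are many nonconstant critical points. -/
theorem card_Crit : 2 * n * max G.wn.natDegree G.wd.natDegree ≤ G.Crit.card := by
  have h1 : ∑ y ∈ G.W.roots.toFinset, G.W.rootMultiplicity y = G.W.natDegree := by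
    have h1 : Multiset.card G.W.roots = G.W.natDegree :=
      (IsAlgClosed.splits G.W).natDegree_eq_card_roots.symm
    rw [← h1, ← Multiset.toFinset_sum_count_eq]
    exact Finset.sum_congr rfl (fun y _ => (count_roots _).symm)
  rw [← Finset.sum_filter_add_sum_filter_not _ (fun c => G.InL c)] at h1
  have h2 : ∑ y ∈ G.W.roots.toFinset.filter (fun c => ¬ G.InL c), G.W.rootMultiplicity y
      = G.Crit.card := by
    rw [Finset.card_eq_sum_ones]
    exact Finset.sum_congr (by rw [Crit]) (fun y hy => mult_Crit (by rw [Crit]; exact hy))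
  have h3 : ∑ y ∈ G.W.roots.toFinset.filter (fun c => G.InL c), G.W.rootMultiplicity y
      ≤ (wronskian G.a₁ G.b₁).natDegree := sum_LRoots
  have h4 := natDegree_W (G := G)
  omega

/-- The critical value at a critical point. -/
noncomputable def cv (G : GenData n) (c : ℂ) : ℂ := G.p.eval c / G.q.eval c

/-- The value of `w`. -/
noncomputable def wv (G : GenData n) (c : ℂ) : ℂ := G.wn.eval c / G.wd.eval c

/-- The factor `E(c)`. -/
noncomputable def Ev (G : GenData n) (c : ℂ) : ℂ :=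
  G.Δ.eval c * (G.wd.eval c) ^ (2 * n) / (G.q.eval c) ^ 2

theorem Ev_ne {c : ℂ} (hc : c ∈ G.Crit) : G.Ev c ≠ 0 := by
  obtain ⟨h1, h2⟩ := mem_Crit.1 hc
  exact div_ne_zero (mul_ne_zero (eval_ne_zero lp_Δ G.Δne h1)
    (pow_ne_zero _ (eval_ne_zero lp_wd wd_ne h1))) (pow_ne_zero _ (q_ne h1 h2))

/-- The variation of the critical value. -/
theorem Df_cv {c : ℂ} (hc : c ∈ G.Crit) (f : Fin (n + 1) → ℂ) :
    G.Df f (G.cv c) = G.Ev c * ∑ i, f i * (G.wv c) ^ (i : ℕ) := by
  obtain ⟨h1, h2⟩ := mem_Crit.1 hc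
  have hq := q_ne h1 h2
  have hwd := eval_ne_zero lp_wd wd_ne h1
  have hp : G.p.eval c = G.cv c * G.q.eval c := by rw [cv]; field_simp
  have hp' : (derivative G.p).eval c = G.cv c * (derivative G.q).eval c := by
    rw [W, wronskian, eval_sub, eval_mul, eval_mul, hp] at h2
    apply mul_right_cancel₀ hq
    linear_combination -h2
  have e1 := D_eval (G.Df f) G.p c
  have e2 := D_eval (G.Df f) G.q c
  rw [hp, Derivation.leibniz, smul_eq_mul, smul_eq_mul, e2, hp', mapDf_p, mapDf_q, eval_mul,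
    eval_mul] at e1
  have hdet := congrArg (Polynomial.eval c) (det_identity (G := G))
  rw [eval_sub, eval_mul, eval_mul, eval_mul, eval_pow, hp] at hdet
  have hF : (G.F f).eval c = (G.wd.eval c) ^ n * ∑ i, f i * (G.wv c) ^ (i : ℕ) := by
    rw [F, eval_finsetSum, Finset.mul_sum]
    apply Finset.sum_congr rfl
    intro i _
    rw [eval_mul, eval_C, eval_mul, eval_pow, eval_pow, wv, div_pow]
    have : (G.wd.eval c) ^ n = (G.wd.eval c) ^ (i : ℕ) * (G.wd.eval c) ^ (n - i) := by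
      rw [← pow_add]; congr 1; have := i.2; omega
    rw [this]
    field_simp
  rw [Ev, div_mul_eq_mul_div, eq_div_iff (pow_ne_zero 2 hq)]
  rw [hF] at e1
  have hpow : (G.wd.eval c) ^ (2 * n) = (G.wd.eval c) ^ n * (G.wd.eval c) ^ n := by
    rw [← pow_add]; congr 1; omega
  rw [hpow]
  linear_combination (G.q.eval c) * e1 + ((G.wd.eval c) ^ n * ∑ i, f i * (G.wv c) ^ (i : ℕ)) * hdet

theorem wv_not_inL {c : ℂ} (hc : ¬ G.InL c) : ¬ G.InL (G.wv c) := by
  intro h
  have hwd := eval_ne_zero lp_wd wd_ne hc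
  have h1 : G.LPoly (G.wn - C (G.wv c) * G.wd) := lp_wn.sub ((lpoly_C h).mul lp_wd)
  have h2 : G.wn - C (G.wv c) * G.wd ≠ 0 := by
    intro h0
    rw [sub_eq_zero] at h0
    apply G.wne
    rw [h0, wronskian, derivative_C_mul]; ring
  apply eval_ne_zero h1 h2 hc
  rw [eval_sub, eval_mul, eval_C, wv]; field_simp; ring

/-- Equal critical values force equal values of `w`. -/
theorem wv_eq_of_cv_eq {c c' : ℂ} (hc : c ∈ G.Crit) (hc' : c' ∈ G.Crit) (h : G.cv c = G.cv c') :
    G.wv c = G.wv c' := by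
  have h0 := Df_cv hc (e 0)
  have h0' := Df_cv hc' (e 0)
  have h1 := Df_cv hc (e G.one')
  have h1' := Df_cv hc' (e G.one')
  have hs0 : ∀ x : ℂ, ∑ i : Fin (n + 1), (e 0 : Fin (n + 1) → ℂ) i * x ^ (i : ℕ) = 1 := by
    intro x
    rw [Finset.sum_eq_single 0]
    · simp [e]
    · intro j _ hj; simp [e, hj]
    · simp
  have hs1 : ∀ x : ℂ, ∑ i : Fin (n + 1), (e G.one' : Fin (n + 1) → ℂ) i * x ^ (i : ℕ) = x := by
    intro x
    rw [Finset.sum_eq_single G.one']
    · simp [e, one']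
    · intro j _ hj; simp [e, hj]
    · simp
  rw [hs0, mul_one] at h0 h0'
  rw [hs1] at h1 h1'
  rw [h] at h0 h1
  rw [h0] at h0'
  rw [h1, ← h0'] at h1'
  exact mul_left_cancel₀ (Ev_ne hc) h1'

theorem cv_not_inL {c : ℂ} (hc : c ∈ G.Crit) : ¬ G.InL (G.cv c) := by
  intro h
  have h0 := Df_cv hc (e 0)
  rw [Df_inL _ h, Finset.sum_eq_single 0] at h0
  · simp [e] at h0
    exact Ev_ne hc h0.symm
  · intro j _ hj; simp [e, hj]
  · simp

end GenData

end Pool.Agent.Helper74_Centr
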