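import Pool.Agent.Helper74_Centr.Generic
import Pool.Agent.Helper74_Centr.Key

/-!
# Indecomposability of the generic member of the family
-/

namespace Pool.Agent.Helper74_Centr

open Polynomial IntermediateField

namespace GenData

variable {n : ℕ} {G : GenData n}

theorem p_ne : G.p ≠ 0 := fun h => W_ne (G := G) (by rw [W, h, wronskian_zero_left])
theorem q_ne' : G.q ≠ 0 := fun h => W_ne (G := G) (by rw [W, h, wronskian_zero_right])

variable (G)

/-- The rational function `R = p / q`. -/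
noncomputable def R : RatFunc ℂ :=
  algebraMap ℂ[X] (RatFunc ℂ) G.p / algebraMap ℂ[X] (RatFunc ℂ) G.q

variable {G}

theorem R_mul : G.R * algebraMap ℂ[X] (RatFunc ℂ) G.q = algebraMap ℂ[X] (RatFunc ℂ) G.p := by
  rw [R, div_mul_cancel₀]
  intro h0
  exact q_ne' (RatFunc.algebraMap_injective ℂ (by rw [h0, map_zero]))

theorem R_nonconst : Nonconst G.R := by
  intro s hs
  have h := R_mul (G := G)
  rw [hs, ← RatFunc.algebraMap_C, ← map_mul] at h
  have h2 := RatFunc.algebraMap_injective ℂ h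
  apply W_ne (G := G)
  rw [W, ← h2, wronskian, derivative_C_mul]; ring

theorem deg_R_le : deg G.R ≤ max G.p.natDegree G.q.natDegree := by
  unfold deg R
  exact max_le_max (natDegree_le_of_dvd (RatFunc.num_div_dvd _ q_ne') p_ne)
    (natDegree_le_of_dvd (RatFunc.denom_div_dvd _ _) q_ne')

theorem hasJet_Crit {c : ℂ} (hc : c ∈ G.Crit) : HasJet G.R c (G.cv c) 0 := by
  obtain ⟨h1, h2⟩ := mem_Crit.1 hc
  exact hasJet_zero_of_wronskian R_mul (q_ne h1 h2) h2

theorem crit_or_LRoots {c s : ℂ} (h : HasJet G.R c s 0) :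
    (c ∈ G.Crit ∧ s = G.cv c) ∨ c ∈ G.LRoots := by
  have hw : G.W.eval c = 0 := h.wronskian_eq_zero R_mul
  by_cases hL : G.InL c
  · exact Or.inr (mem_LRoots.2 ⟨hL, hw⟩)
  · have hc : c ∈ G.Crit := mem_Crit.2 ⟨hL, hw⟩
    exact Or.inl ⟨hc, (h.unique (hasJet_Crit hc)).1⟩

/-- A proper intermediate field gives a generator regular at a given finite set. -/
theorem exists_regular_generator (E : IntermediateField ℂ (RatFunc ℂ)) (hE : E ≠ ⊥)
    (S : Finset ℂ) : ∃ U : RatFunc ℂ, Nonconst U ∧ E = ℂ⟮U⟯ ∧ ∀ c ∈ S, ∃ y d, HasJet U c y d := by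
  classical
  set U₀ := RatFunc.Luroth.generator E with hU₀
  have hE₀ : E = ℂ⟮U₀⟯ := RatFunc.Luroth.eq_adjoin_generator
  have hU₀c : Nonconst U₀ := fun c hc => RatFunc.Luroth.generator_ne_C hE ⟨c, hc⟩
  obtain ⟨l, hl⟩ := Infinite.exists_notMem_finset (S.image (fun c => U₀.num.eval c / U₀.denom.eval c))
  have hne : U₀ - RatFunc.C l ≠ 0 := sub_ne_zero.2 (hU₀c l)
  set U := (U₀ - RatFunc.C l)⁻¹ with hU
  have hU₀U : U₀ = U⁻¹ + RatFunc.C l := by rw [hU, inv_inv]; ring
  have hUc : Nonconst U := by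
    intro a ha
    apply hU₀c (a⁻¹ + l)
    rw [hU₀U, ha, map_add, map_inv₀]
  refine ⟨U, hUc, ?_, ?_⟩
  · rw [hE₀]
    apply le_antisymm
    · rw [adjoin_simple_le_iff, hU₀U]
      exact add_mem (inv_mem (mem_adjoin_simple_self ℂ U)) (by
        rw [← RatFunc.algebraMap_eq_C]; exact IntermediateField.algebraMap_mem _ l)
    · rw [adjoin_simple_le_iff, hU]
      exact inv_mem (sub_mem (mem_adjoin_simple_self ℂ U₀) (by
        rw [← RatFunc.algebraMap_eq_C]; exact IntermediateField.algebraMap_mem _ l))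
  · intro c hc
    have h1 : (U₀.num - C l * U₀.denom).eval c ≠ 0 := by
      intro h0
      rw [eval_sub, eval_mul, eval_C, sub_eq_zero] at h0
      by_cases hd : U₀.denom.eval c = 0
      · rw [hd, mul_zero] at h0
        exact num_denom_not_both_zero U₀ c h0 hd
      · apply hl
        rw [Finset.mem_image]
        exact ⟨c, hc, by rw [h0]; field_simp⟩
    have h2 : U * algebraMap ℂ[X] (RatFunc ℂ) (U₀.num - C l * U₀.denom) =
        algebraMap ℂ[X] (RatFunc ℂ) U₀.denom := by
      rw [map_sub, map_mul, RatFunc.algebraMap_C, ← num_denom_eq, ← sub_mul, hU,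
        inv_mul_cancel_left₀ hne]
    exact ⟨_, _, hasJet_of_eq h2 h1⟩

theorem natDegree_wronskian_le {U : RatFunc ℂ} (hU : Nonconst U) :
    (wronskian U.num U.denom).natDegree ≤ 2 * deg U - 1 := by
  have := natDegree_wronskian_lt_add (wronskian_ne_zero hU)
  have h2 : U.num.natDegree ≤ deg U := le_max_left _ _
  have h3 : U.denom.natDegree ≤ deg U := le_max_right _ _
  omega

/-- If `R = V ∘ U` has a finite value at `c` and `U` is regular at `c`, then so is `V` at `U(c)`. -/
theorem regular_of_comp {V U : RatFunc ℂ} (hU : Nonconst U) {c y d s t : ℂ} (h1 : HasJet U c y d)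
    (h2 : HasJet (comp V U) c s t) : ∃ e, HasJet V y s e ∧ t = e * d := by
  have h3 : comp V U * aeval U V.denom = aeval U V.num := by
    rw [← comp_algebraMap hU, ← comp_algebraMap hU, ← comp_mul hU, num_denom_eq]
  have h4 := (h2.mul (h1.aeval V.denom)).unique (h3 ▸ h1.aeval V.num)
  have h5 : V.denom.eval y ≠ 0 := by
    intro h0
    apply num_denom_not_both_zero V y _ h0
    rw [← h4.1, h0, mul_zero]
  obtain ⟨s', e, he⟩ := exists_hasJet h5
  have h6 := (h1.comp hU he).unique h2
  obtain ⟨h7, h8⟩ := h6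
  subst h7
  exact ⟨e, he, h8.symm⟩

/-- A simple root of `fibP U y` has a companion. -/
theorem exists_companion {U : RatFunc ℂ} (hU : Nonconst U) {c y d : ℂ} (hd : d ≠ 0)
    (h : HasJet U c y d) (hdeg : 2 ≤ (fibP U y).natDegree) :
    ∃ c', c' ≠ c ∧ ∃ d', HasJet U c' y d' := by
  have hF0 := fibP_ne_zero hU y
  have h1 := h.eval_eq (num_denom_eq U)
  have hden := h.denom_ne_zero
  have hroot : (fibP U y).eval c = 0 := by rw [fibP_eval, h1.1]; ring
  have hderiv : (derivative (fibP U y)).eval c ≠ 0 := by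
    rw [fibP, derivative_sub, derivative_C_mul, eval_sub, eval_mul, eval_C, h1.2]
    ring_nf
    exact mul_ne_zero hd hden
  have hcard : 2 ≤ Multiset.card (fibP U y).roots := by
    rw [← (IsAlgClosed.splits (fibP U y)).natDegree_eq_card_roots]; exact hdeg
  have hcount : (fibP U y).roots.count c = 1 := by
    rw [count_roots]
    have h2 : 0 < (fibP U y).rootMultiplicity c := (rootMultiplicity_pos hF0).2 hroot
    have h3 : ¬ 1 < (fibP U y).rootMultiplicity c := by
      rw [one_lt_rootMultiplicity_iff_isRoot hF0]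
      rintro ⟨_, h⟩
      exact hderiv h
    omega
  obtain ⟨c', hc', hne⟩ : ∃ c' ∈ (fibP U y).roots, c' ≠ c := by
    by_contra hcon
    push Not at hcon
    have h2 := Multiset.eq_replicate_card.2 hcon
    rw [h2, Multiset.count_replicate_self] at hcount
    omega
  refine ⟨c', hne, ?_⟩
  rw [mem_roots hF0, IsRoot.def] at hc'
  have h5 : U.denom.eval c' ≠ 0 := by
    intro h0
    rw [fibP_eval, h0, mul_zero, sub_zero] at hc'
    exact num_denom_not_both_zero U c' hc' h0
  refine ⟨_, (hasJet_of_eq (num_denom_eq U) h5).congr ?_ rfl⟩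
  rw [fibP_eval, sub_eq_zero] at hc'
  rw [hc']; field_simp

/-- **Indecomposability.** -/
theorem indecomposable (hinj : ∀ c ∈ G.Crit, ∀ c' ∈ G.Crit, G.cv c = G.cv c' → c = c')
    (hcard : deg G.R + (wronskian G.a₁ G.b₁).natDegree < G.Crit.card)
    (E : IntermediateField ℂ (RatFunc ℂ)) (hE : ℂ⟮G.R⟯ ≤ E) : E = ℂ⟮G.R⟯ ∨ E = ⊤ := by
  classical
  by_contra hcon
  push Not at hcon
  obtain ⟨hER, hEtop⟩ := hcon
  have hEbot : E ≠ ⊥ := by
    rintro rfl
    have h1 : G.R ∈ (⊥ : IntermediateField ℂ (RatFunc ℂ)) := hE (mem_adjoin_simple_self ℂ _)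
    rw [IntermediateField.mem_bot] at h1
    obtain ⟨c, hc⟩ := h1
    exact R_nonconst (G := G) c (by rw [← hc, RatFunc.algebraMap_eq_C])
  obtain ⟨U, hU, hEU, hreg⟩ := exists_regular_generator E hEbot G.Crit
  have hRU : G.R ∈ ℂ⟮U⟯ := by rw [← hEU]; exact hE (mem_adjoin_simple_self ℂ _)
  rw [mem_adjoin_iff hU] at hRU
  obtain ⟨V, hV⟩ := hRU
  have hdeg : deg G.R = deg V * deg U := by rw [hV, deg_comp V hU]
  have hRpos := deg_pos_iff.2 (R_nonconst (G := G))
  have hUpos := deg_pos_iff.2 hU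
  have hVpos : 0 < deg V := by
    rcases Nat.eq_zero_or_pos (deg V) with h | h
    · rw [hdeg, h, zero_mul] at hRpos; omega
    · exact h
  have hU2 : 2 ≤ deg U := by
    by_contra hlt
    have h1 : deg U = 1 := by omega
    apply hEtop
    rw [hEU, ← IntermediateField.finrank_eq_one_iff_eq_top, finrank_adjoin, h1]
  have hV2 : 2 ≤ deg V := by
    by_contra hlt
    have h1 : deg V = 1 := by omega
    apply hER
    apply le_antisymm _ hE
    rw [← IntermediateField.relfinrank_eq_one_iff]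
    have h2 := IntermediateField.relfinrank_mul_finrank_top hE
    rw [finrank_adjoin, hdeg, h1, one_mul, hEU, finrank_adjoin, ← hEU] at h2
    exact Nat.eq_of_mul_eq_mul_right hUpos (by rw [h2, one_mul])
  choose! y hy using hreg
  choose! d hd using hy
  -- jets of `V`
  have hVjet : ∀ c ∈ G.Crit, ∃ e, HasJet V (y c) (G.cv c) e ∧ 0 = e * d c := by
    intro c hc
    have h1 := hasJet_Crit hc
    rw [hV] at h1
    exact regular_of_comp hU (hd c hc) h1
  -- the three parts of `Crit`
  set A := G.Crit.filter (fun c => d c = 0) with hA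
  set y₀ := U.num.coeff (deg U) / U.denom.coeff (deg U) with hy₀
  set B₁ := G.Crit.filter (fun c => d c ≠ 0 ∧ y c = y₀) with hB₁
  set B₂ := G.Crit.filter (fun c => d c ≠ 0 ∧ y c ≠ y₀) with hB₂
  have hsub : G.Crit ⊆ A ∪ (B₁ ∪ B₂) := by
    intro c hc
    rw [Finset.mem_union, Finset.mem_union, hA, hB₁, hB₂, Finset.mem_filter, Finset.mem_filter,
      Finset.mem_filter]
    by_cases h1 : d c = 0
    · exact Or.inl ⟨hc, h1⟩
    · by_cases h2 : y c = y₀
      · exact Or.inr (Or.inl ⟨hc, h1, h2⟩)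
      · exact Or.inr (Or.inr ⟨hc, h1, h2⟩)
  have hAcard : A.card ≤ 2 * deg U - 1 := by
    refine le_trans ?_ (natDegree_wronskian_le hU)
    refine le_trans (Finset.card_le_card ?_) ((Multiset.toFinset_card_le _).trans (card_roots' _))
    intro c hc
    rw [hA, Finset.mem_filter] at hc
    rw [Multiset.mem_toFinset, mem_roots (wronskian_ne_zero hU)]
    have h1 := hd c hc.1
    rw [hc.2] at h1
    exact h1.wronskian_eq_zero (num_denom_eq U)
  have hB₁card : B₁.card ≤ 1 := by
    rw [Finset.card_le_one]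
    intro c hc c' hc'
    rw [hB₁, Finset.mem_filter] at hc hc'
    apply hinj c hc.1 c' hc'.1
    obtain ⟨e, he, _⟩ := hVjet c hc.1
    obtain ⟨e', he', _⟩ := hVjet c' hc'.1
    rw [hc.2.2] at he
    rw [hc'.2.2] at he'
    exact (he.unique he').1
  have hcomp : ∀ c ∈ B₂, ∃ c', c' ∈ G.LRoots ∧ HasJet G.R c' (G.cv c) 0 := by
    intro c hc
    rw [hB₂, Finset.mem_filter] at hc
    obtain ⟨hcC, hdc, hyc⟩ := hc
    have hfd : (fibP U (y c)).natDegree = deg U := fibP_natDegree_eq hU hyc
    obtain ⟨c', hne, d', hd'⟩ := exists_companion hU hdc (hd c hcC) (by rw [hfd]; exact hU2)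
    obtain ⟨e, he, he0⟩ := hVjet c hcC
    have he1 : e = 0 := by
      rcases mul_eq_zero.1 he0.symm with h | h
      · exact h
      · exact absurd h hdc
    have h3 : HasJet G.R c' (G.cv c) 0 := by
      rw [hV]
      exact (hd'.comp hU he).congr rfl (by rw [he1, zero_mul])
    refine ⟨c', ?_, h3⟩
    rcases crit_or_LRoots h3 with ⟨h4, h5⟩ | h4
    · exact absurd (hinj c hcC c' h4 h5).symm hne
    · exact h4
  choose! φ hφ using hcomp
  have hB₂card : B₂.card ≤ G.LRoots.card := by
    apply Finset.card_le_card_of_injOn φ (fun c hc => (hφ c hc).1)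
    intro c hc c' hc' h
    have h1 := (hφ c hc).2
    have h2 := (hφ c' hc').2
    rw [← h] at h2
    have h3 := (h1.unique h2).1
    have hc1 : c ∈ G.Crit := (Finset.mem_filter.1 (Finset.mem_coe.1 hc)).1
    have hc2 : c' ∈ G.Crit := (Finset.mem_filter.1 (Finset.mem_coe.1 hc')).1
    exact hinj c hc1 c' hc2 h3
  have h1 := Finset.card_le_card hsub
  have h2 := Finset.card_union_le A (B₁ ∪ B₂)
  have h3 := Finset.card_union_le B₁ B₂
  have h4 := card_LRoots (G := G)
  have h5 : 2 * deg U ≤ deg G.R := by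
    rw [hdeg]; exact Nat.mul_le_mul_right _ hV2
  omega

end GenData

end Pool.Agent.Helper74_Centr
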