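import Pool.Agent.Helper74_Centr.Comp
import Pool.Agent.Helper74_Centr.Mobius

/-!
# First order jets of rational functions at points of `ℂ`
-/

namespace Pool.Agent.Helper74_Centr

open Polynomial

/-- `f` is regular at `c`, with value `s` and derivative `d`. -/
def HasJet (f : RatFunc ℂ) (c s d : ℂ) : Prop :=
  ∃ P Q : ℂ[X], Q.eval c ≠ 0 ∧ f * algebraMap ℂ[X] (RatFunc ℂ) Q = algebraMap ℂ[X] (RatFunc ℂ) P ∧
    P.eval c = s * Q.eval c ∧
    (derivative P).eval c = d * Q.eval c + s * (derivative Q).eval c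

theorem HasJet.eval_eq {f : RatFunc ℂ} {c s d : ℂ} (h : HasJet f c s d) {p q : ℂ[X]}
    (hpq : f * algebraMap ℂ[X] (RatFunc ℂ) q = algebraMap ℂ[X] (RatFunc ℂ) p) :
    p.eval c = s * q.eval c ∧
    (derivative p).eval c = d * q.eval c + s * (derivative q).eval c := by
  obtain ⟨P, Q, hQ, hPQ, h1, h2⟩ := h
  have hx : p * Q = P * q := by
    apply RatFunc.algebraMap_injective ℂ
    rw [map_mul, map_mul, ← hpq, ← hPQ]; ring
  have e1 := congrArg (Polynomial.eval c) hx
  rw [eval_mul, eval_mul, h1] at e1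
  have e1' : p.eval c = s * q.eval c := by
    apply mul_right_cancel₀ hQ
    rw [e1]; ring
  refine ⟨e1', ?_⟩
  have e2 := congrArg (fun r => Polynomial.eval c (derivative r)) hx
  simp only [derivative_mul, eval_add, eval_mul] at e2
  rw [h1, h2, e1'] at e2
  apply mul_right_cancel₀ hQ
  linear_combination e2

theorem HasJet.unique {f : RatFunc ℂ} {c s d s' d' : ℂ} (h : HasJet f c s d)
    (h' : HasJet f c s' d') : s = s' ∧ d = d' := by
  obtain ⟨P, Q, hQ, hPQ, h1, h2⟩ := h'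
  obtain ⟨e1, e2⟩ := h.eval_eq hPQ
  have hs : s = s' := mul_right_cancel₀ hQ (by rw [← e1, h1])
  subst hs
  refine ⟨rfl, mul_right_cancel₀ hQ ?_⟩
  linear_combination h2 - e2

theorem hasJet_algebraMap (p : ℂ[X]) (c : ℂ) :
    HasJet (algebraMap ℂ[X] (RatFunc ℂ) p) c (p.eval c) ((derivative p).eval c) :=
  ⟨p, 1, by simp, by simp, by simp, by simp⟩

theorem hasJet_C (a c : ℂ) : HasJet (RatFunc.C a) c a 0 := by
  have := hasJet_algebraMap (Polynomial.C a) c
  rw [RatFunc.algebraMap_C] at this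
  simpa using this

theorem hasJet_X (c : ℂ) : HasJet RatFunc.X c c 1 := by
  have := hasJet_algebraMap (Polynomial.X) c
  rw [RatFunc.algebraMap_X] at this
  simpa using this

theorem HasJet.add {f g : RatFunc ℂ} {c s d s' d' : ℂ} (h : HasJet f c s d)
    (h' : HasJet g c s' d') : HasJet (f + g) c (s + s') (d + d') := by
  obtain ⟨P, Q, hQ, hPQ, h1, h2⟩ := h
  obtain ⟨P', Q', hQ', hPQ', h1', h2'⟩ := h'
  refine ⟨P * Q' + P' * Q, Q * Q', by rw [eval_mul]; exact mul_ne_zero hQ hQ', ?_, ?_, ?_⟩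
  · simp only [map_mul, map_add, ← hPQ, ← hPQ']; ring
  · simp only [eval_add, eval_mul, h1, h1']; ring
  · simp only [derivative_add, derivative_mul, eval_add, eval_mul, h1, h1', h2, h2']; ring

theorem HasJet.mul {f g : RatFunc ℂ} {c s d s' d' : ℂ} (h : HasJet f c s d)
    (h' : HasJet g c s' d') : HasJet (f * g) c (s * s') (d * s' + s * d') := by
  obtain ⟨P, Q, hQ, hPQ, h1, h2⟩ := h
  obtain ⟨P', Q', hQ', hPQ', h1', h2'⟩ := h'
  refine ⟨P * P', Q * Q', by rw [eval_mul]; exact mul_ne_zero hQ hQ', ?_, ?_, ?_⟩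
  · simp only [map_mul, ← hPQ, ← hPQ']; ring
  · simp only [eval_mul, h1, h1']; ring
  · simp only [derivative_mul, eval_add, eval_mul, h1, h1', h2, h2']; ring

theorem HasJet.neg {f : RatFunc ℂ} {c s d : ℂ} (h : HasJet f c s d) :
    HasJet (-f) c (-s) (-d) := by
  obtain ⟨P, Q, hQ, hPQ, h1, h2⟩ := h
  refine ⟨-P, Q, hQ, ?_, ?_, ?_⟩
  · simp only [map_neg, ← hPQ]; ring
  · simp only [eval_neg, h1]; ring
  · simp only [derivative_neg, eval_neg, h2]; ring

theorem HasJet.sub {f g : RatFunc ℂ} {c s d s' d' : ℂ} (h : HasJet f c s d)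
    (h' : HasJet g c s' d') : HasJet (f - g) c (s - s') (d - d') := by
  rw [sub_eq_add_neg, sub_eq_add_neg, sub_eq_add_neg]; exact h.add h'.neg

theorem HasJet.congr {f : RatFunc ℂ} {c s d s' d' : ℂ} (h : HasJet f c s d)
    (hs : s = s') (hd : d = d') : HasJet f c s' d' := by subst hs; subst hd; exact h

theorem HasJet.inv {f : RatFunc ℂ} {c s d : ℂ} (h : HasJet f c s d) (hs : s ≠ 0) :
    HasJet f⁻¹ c s⁻¹ (-d / s ^ 2) := by
  obtain ⟨P, Q, hQ, hPQ, h1, h2⟩ := h
  have hP : P.eval c ≠ 0 := by rw [h1]; exact mul_ne_zero hs hQ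
  have hf : f ≠ 0 := by
    rintro rfl
    rw [zero_mul] at hPQ
    have : P = 0 := by
      apply RatFunc.algebraMap_injective ℂ
      rw [← hPQ, map_zero]
    rw [this] at hP; simp at hP
  refine ⟨Q, P, hP, ?_, ?_, ?_⟩
  · rw [← hPQ, inv_mul_cancel_left₀ hf]
  · rw [h1]; field_simp
  · rw [h1, h2]; field_simp; ring

theorem HasJet.div {f g : RatFunc ℂ} {c s d s' d' : ℂ} (h : HasJet f c s d)
    (h' : HasJet g c s' d') (hs' : s' ≠ 0) :
    HasJet (f / g) c (s / s') ((d * s' - s * d') / s' ^ 2) := by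
  rw [div_eq_mul_inv]
  refine (h.mul (h'.inv hs')).congr (by rw [div_eq_mul_inv]) ?_
  field_simp; ring

theorem HasJet.pow {f : RatFunc ℂ} {c s d : ℂ} (h : HasJet f c s d) (n : ℕ) :
    HasJet (f ^ n) c (s ^ n) (n * s ^ (n - 1) * d) := by
  induction n with
  | zero =>
    have := hasJet_C 1 c
    simpa using this
  | succ n ih =>
    rw [pow_succ]
    refine (ih.mul h).congr (by rw [pow_succ]) ?_
    rcases Nat.eq_zero_or_pos n with rfl | hn
    · simp
    · obtain ⟨m, rfl⟩ := Nat.exists_eq_succ_of_ne_zero hn.ne'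
      simp only [Nat.succ_sub_one, Nat.succ_eq_add_one]
      push_cast
      ring

theorem hasJet_zero (c : ℂ) : HasJet 0 c 0 0 := by
  have := hasJet_C 0 c
  simpa using this

/-- Jets of polynomial expressions. -/
theorem HasJet.aeval {g : RatFunc ℂ} {c s d : ℂ} (h : HasJet g c s d) (p : ℂ[X]) :
    HasJet (aeval g p) c (p.eval s) ((derivative p).eval s * d) := by
  induction p using Polynomial.induction_on' with
  | add p q hp hq =>
    rw [map_add]
    exact (hp.add hq).congr (by rw [eval_add]) (by rw [derivative_add, eval_add]; ring)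
  | monomial n a =>
    rw [aeval_monomial, RatFunc.algebraMap_eq_C]
    refine ((hasJet_C a c).mul (h.pow n)).congr ?_ ?_
    · rw [eval_monomial]
    · rw [derivative_monomial, eval_monomial]; ring

theorem aeval_ne_zero {g : RatFunc ℂ} (hg : Nonconst g) {p : ℂ[X]} (hp : p ≠ 0) :
    aeval g p ≠ 0 := by
  rw [← comp_algebraMap hg, Ne, comp_eq_zero_iff hg]
  intro h
  exact hp (RatFunc.algebraMap_injective ℂ (by rw [h, map_zero]))

/-- The chain rule. -/
theorem HasJet.comp {f g : RatFunc ℂ} {c s d t e : ℂ} (hg : Nonconst g) (h : HasJet g c s d)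
    (h' : HasJet f s t e) : HasJet (comp f g) c t (e * d) := by
  obtain ⟨P, Q, hQ, hPQ, h1, h2⟩ := h'
  have hQ0 : Q ≠ 0 := by rintro rfl; simp at hQ
  have hx : Pool.Agent.Helper74_Centr.comp f g = Polynomial.aeval g P / Polynomial.aeval g Q := by
    rw [eq_div_iff (aeval_ne_zero hg hQ0), ← comp_algebraMap hg, ← comp_algebraMap hg,
      ← comp_mul hg, hPQ]
  rw [hx]
  refine ((h.aeval P).div (h.aeval Q) hQ).congr ?_ ?_
  · rw [h1]; field_simp
  · rw [h1, h2]; field_simp; ring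

theorem HasJet.denom_ne_zero {f : RatFunc ℂ} {c s d : ℂ} (h : HasJet f c s d) :
    f.denom.eval c ≠ 0 := by
  obtain ⟨P, Q, hQ, hPQ, -, -⟩ := h
  have hQ0 : Q ≠ 0 := by rintro rfl; simp at hQ
  have hd : f.denom ∣ Q := by
    rw [RatFunc.denom_dvd hQ0]
    refine ⟨P, ?_⟩
    rw [eq_div_iff]
    · exact hPQ
    · intro h0
      exact hQ0 (RatFunc.algebraMap_injective ℂ (by rw [h0, map_zero]))
  intro h0
  obtain ⟨R, hR⟩ := hd
  rw [hR, eval_mul, h0, zero_mul] at hQ
  exact hQ rfl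

theorem num_denom_eq (f : RatFunc ℂ) :
    f * algebraMap ℂ[X] (RatFunc ℂ) f.denom = algebraMap ℂ[X] (RatFunc ℂ) f.num := by
  have h := RatFunc.num_div_denom f
  rw [div_eq_iff] at h
  · exact h.symm
  · intro h0
    exact f.denom_ne_zero (RatFunc.algebraMap_injective ℂ (by rw [h0, map_zero]))

theorem hasJet_of_eq {f : RatFunc ℂ} {p q : ℂ[X]} {c : ℂ}
    (hpq : f * algebraMap ℂ[X] (RatFunc ℂ) q = algebraMap ℂ[X] (RatFunc ℂ) p)
    (hq : q.eval c ≠ 0) :
    HasJet f c (p.eval c / q.eval c)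
      (((derivative p).eval c * q.eval c - p.eval c * (derivative q).eval c) / q.eval c ^ 2) := by
  refine ⟨p, q, hq, hpq, by field_simp, by field_simp; ring⟩

theorem exists_hasJet {f : RatFunc ℂ} {c : ℂ} (h : f.denom.eval c ≠ 0) :
    ∃ s d, HasJet f c s d :=
  ⟨_, _, hasJet_of_eq (num_denom_eq f) h⟩

/-- A critical point is a zero of the Wronskian of any representation. -/
theorem HasJet.wronskian_eq_zero {f : RatFunc ℂ} {c s : ℂ} (h : HasJet f c s 0) {p q : ℂ[X]}
    (hpq : f * algebraMap ℂ[X] (RatFunc ℂ) q = algebraMap ℂ[X] (RatFunc ℂ) p) :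
    (wronskian p q).eval c = 0 := by
  obtain ⟨e1, e2⟩ := h.eval_eq hpq
  rw [wronskian, eval_sub, eval_mul, eval_mul, e1, e2]; ring

theorem hasJet_zero_of_wronskian {f : RatFunc ℂ} {p q : ℂ[X]} {c : ℂ}
    (hpq : f * algebraMap ℂ[X] (RatFunc ℂ) q = algebraMap ℂ[X] (RatFunc ℂ) p)
    (hq : q.eval c ≠ 0) (hw : (wronskian p q).eval c = 0) :
    HasJet f c (p.eval c / q.eval c) 0 := by
  refine (hasJet_of_eq hpq hq).congr rfl ?_
  rw [wronskian, eval_sub, eval_mul, eval_mul] at hw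
  rw [div_eq_zero_iff]; left
  linear_combination -hw

/-- Jets of Möbius transformations. -/
theorem hasJet_mob {M : Matrix (Fin 2) (Fin 2) ℂ} {c : ℂ} (h : M 1 0 * c + M 1 1 ≠ 0) :
    HasJet (mob M) c ((M 0 0 * c + M 0 1) / (M 1 0 * c + M 1 1))
      (M.det / (M 1 0 * c + M 1 1) ^ 2) := by
  unfold mob
  have h1 : ∀ a b : ℂ, HasJet (RatFunc.C a * RatFunc.X + RatFunc.C b) c (a * c + b) a := by
    intro a b
    refine (((hasJet_C a c).mul (hasJet_X c)).add (hasJet_C b c)).congr rfl ?_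
    ring
  refine ((h1 _ _).div (h1 _ _) h).congr rfl ?_
  rw [Matrix.det_fin_two]
  ring

end Pool.Agent.Helper74_Centr
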